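import Pool.Agent.Work.MP_80ee1d_an.Ctx

/-!
A weighted `L²` estimate and the real inequalities used when `l₁` is much closer to the first
eigenvalue than `l₂`.
-/

open MeasureTheory Filter Topology

noncomputable section
namespace CritSys

theorem T4_weight {X : Type} [MeasurableSpace X] {μ : Measure X} [IsFiniteMeasure μ] {φ : L4 μ}
    (hφ : PosL φ) {δ : ℝ} (hδ : 0 < δ) : ∃ K : ℝ, 0 < K ∧ ∀ a : L4 μ,
      T4 (oneL μ) (oneL μ) a a ≤ K * T4 a a φ φ + δ * ‖a‖ ^ 2 := by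
  have hm : ∀ n : ℕ, AEStronglyMeasurable (fun x => max (1 - (n : ℝ) * φ x) 0) μ := fun n =>
    (aestronglyMeasurable_const.sub ((Lp.aestronglyMeasurable φ).const_mul _)).sup
      aestronglyMeasurable_const
  have hb : ∀ n : ℕ, ∀ᵐ x ∂μ, ‖max (1 - (n : ℝ) * φ x) 0‖ ≤ 1 := fun n => by
    filter_upwards [hφ] with x hx
    rw [Real.norm_of_nonneg (le_max_right _ _)]
    have : 0 ≤ (n : ℝ) * φ x := by positivity
    exact max_le (by linarith) zero_le_one
  have hL : ∀ n : ℕ, MemLp (fun x => max (1 - (n : ℝ) * φ x) 0) 4 μ := fun n =>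
    MemLp.of_bound (hm n) 1 (hb n)
  have ht : Tendsto (fun n : ℕ => ∫ x, max (1 - (n : ℝ) * φ x) 0 ^ 4 ∂μ) atTop (𝓝 (∫ _, 0 ∂μ)) := by
    refine tendsto_integral_of_dominated_convergence (fun _ => 1) (fun n => (hm n).pow 4)
      (integrable_const _) (fun n => ?_) ?_
    · filter_upwards [hb n] with x hx
      rw [norm_pow]
      exact pow_le_one₀ (norm_nonneg _) hx
    · filter_upwards [hφ] with x hx
      refine tendsto_const_nhds.congr' ?_
      filter_upwards [(tendsto_natCast_atTop_atTop.atTop_mul_const hx).eventually_ge_atTop 1]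
        with n hn
      rw [max_eq_right (by linarith)]
      norm_num
  rw [integral_zero] at ht
  obtain ⟨n, hn⟩ := (ht.eventually_lt_const (show (0 : ℝ) < (δ / 2) ^ 2 by positivity)).exists
  obtain ⟨χ, hχ⟩ : ∃ χ : L4 μ, ∀ᵐ x ∂μ, χ x = max (1 - (n : ℝ) * φ x) 0 :=
    ⟨(hL n).toLp _, (hL n).coeFn_toLp⟩
  have h4 : ‖χ‖ ^ 2 ≤ δ / 2 := by
    refine abs_le_of_sq_le_sq' ?_ (by positivity) |>.2
    rw [← pow_mul, ← T4_self]
    refine le_trans (le_of_eq (integral_congr_ae ?_)) hn.le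
    filter_upwards [hχ] with x hx
    rw [hx]
    ring
  refine ⟨2 * (n : ℝ) ^ 2 + 1, by positivity, fun a => ?_⟩
  have h5 : T4 (oneL μ) (oneL μ) a a ≤ 2 * (n : ℝ) ^ 2 * T4 a a φ φ + 2 * T4 a a χ χ := by
    rw [T4, T4, T4, ← integral_const_mul, ← integral_const_mul, ← integral_add
      ((T4_integrable _ _ _ _).const_mul _) ((T4_integrable _ _ _ _).const_mul _)]
    refine integral_mono_ae (T4_integrable _ _ _ _) (((T4_integrable _ _ _ _).const_mul _).add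
      ((T4_integrable _ _ _ _).const_mul _)) ?_
    filter_upwards [hχ, oneL_ae (μ := μ), hφ] with x hx h1 h2
    rw [h1]
    have k1 : 1 - (n : ℝ) * φ x ≤ χ x := by rw [hx]; exact le_max_left _ _
    have k2 : 1 ≤ ((n : ℝ) * φ x + χ x) ^ 2 := one_le_pow₀ (by linarith)
    have k3 : 1 ≤ 2 * ((n : ℝ) * φ x) ^ 2 + 2 * χ x ^ 2 := by
      linarith [sq_nonneg ((n : ℝ) * φ x - χ x)]
    have k4 := mul_le_mul_of_nonneg_left k3 (mul_self_nonneg (a x))
    linarith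
  have h6 := mul_le_mul_of_nonneg_left h4 (sq_nonneg ‖a‖)
  linarith [T4A_sq a χ, T4_sq_nonneg a φ]

theorem Far_small (a : ℝ) {b : ℝ} (hb : 0 < b) : ∀ᶠ κ in 𝓝[>] (0 : ℝ), κ * a ≤ b := by
  have h : Tendsto (fun κ : ℝ => κ * a) (𝓝[>] 0) (𝓝 (0 * a)) :=
    ((continuous_id.mul continuous_const).tendsto 0).mono_left nhdsWithin_le_nhds
  rw [zero_mul] at h
  exact (h.eventually_lt_const hb).mono fun _ => le_of_lt

/-- The level cannot be both above and below the level of two bubbles. -/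
theorem Far_algA {L Q s t σ σ' : ℝ} (hs : 0 < s) (ht : 0 < t) (h0 : 0 < σ) (h : σ < σ')
    (h1 : σ' * (s + t) ≤ L) (h2 : L ≤ Q) (h3 : L * Q ≤ σ ^ 2 * (s + t) ^ 2) : False := by
  have p : 0 < s + t := by linarith
  have a : σ * (s + t) < L := (mul_lt_mul_of_pos_right h p).trans_le h1
  have b : 0 < σ * (s + t) := mul_pos h0 p
  have c := mul_lt_mul'' a (a.trans_le h2) b.le b.le
  linarith

theorem Far_algB {p π ν b Γ θ u ε N : ℝ} (hu : 0 < u) (hN : 0 ≤ N) (hθ : θ ≤ u / 4)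
    (hπ : 0 ≤ π) (hp0 : 0 ≤ p) (hp : p ≤ 1 - u) (hε0 : 0 ≤ ε) (hπp : π ≤ ε * p) (hν0 : 0 ≤ ν)
    (hν : ν ^ 2 ≤ N * π) (hΓ : 1 - ν ≤ Γ) (hb : |b - 1| ≤ 28 * π)
    (hε : ε * (28 + 2 * (1 + 4 / u) * (1568 + 8 * N)) ≤ u) (h0 : 0 < 1 - Γ * (1 - p) * b)
    (h : 1 - (1 + θ) * (1 - Γ * (1 - p) * b) ^ 2 ≤ (1 - p) ^ 2 * b) : False := by
  obtain ⟨b1, b2⟩ := abs_le.1 hb
  have u1 : u ≤ 1 := by linarith
  have hw : 0 < 4 / u := by positivity
  have e0 : 0 ≤ ε * (2 * (1 + 4 / u) * (1568 + 8 * N)) := by positivity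
  have e1 : 28 * ε ≤ u := by linarith
  have e2 : π ≤ ε := hπp.trans (mul_le_of_le_one_right hε0 (by linarith))
  have A0 : 0 ≤ 1 - p := by linarith
  have c0 : 0 ≤ (1 - p) * b := mul_nonneg A0 (by linarith)
  have c1 : (1 - p) * b ≤ 2 := by
    have := mul_le_mul (show 1 - p ≤ 1 by linarith) (show b ≤ 2 by linarith) (by linarith)
      zero_le_one
    linarith
  have c2 : 1 - p - 28 * π ≤ (1 - p) * b := by
    have a1 := mul_le_mul_of_nonneg_left b1 A0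
    have a2 := mul_nonneg hp0 hπ
    linarith
  have c3 : 1 - Γ * (1 - p) * b ≤ p + (28 * π + 2 * ν) := by
    have a1 := mul_le_mul_of_nonneg_right hΓ c0
    have a2 := mul_le_mul_of_nonneg_left c1 hν0
    linarith
  have d1 : (28 * π + 2 * ν) ^ 2 ≤ (1568 + 8 * N) * (ε * p) := by
    have a1 : π ^ 2 ≤ π := by
      rw [sq]
      exact mul_le_of_le_one_right hπ (by linarith)
    have a2 := mul_le_mul_of_nonneg_left hπp (show 0 ≤ 1568 + 8 * N by positivity)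
    linarith [sq_nonneg (28 * π - 2 * ν)]
  have p0 : 0 < p := by
    refine hp0.lt_of_ne fun e => ?_
    rw [← e] at d1 c3 h0
    have a1 : (28 * π + 2 * ν) ^ 2 = 0 := le_antisymm (by linarith) (sq_nonneg _)
    have a2 := pow_eq_zero_iff (two_ne_zero) |>.1 a1
    linarith
  generalize 28 * π + 2 * ν = v at c3 d1
  have d2 : (p + v) ^ 2 ≤ (1 + u / 4) * p ^ 2 + (1 + 4 / u) * v ^ 2 := by
    have a1 : 0 ≤ 4 / u * (u / 4 * p - v) ^ 2 := by positivity
    have a2 : 4 / u * (u / 4 * p - v) ^ 2 = u / 4 * p ^ 2 - 2 * p * v + 4 / u * v ^ 2 := by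
      field_simp
      ring
    linarith
  have d3 : (1 - Γ * (1 - p) * b) ^ 2 ≤ (p + v) ^ 2 := pow_le_pow_left₀ h0.le c3 2
  have d4 := mul_le_mul_of_nonneg_left d1 (show 0 ≤ 1 + 4 / u by positivity)
  have d5 : (1 + θ) * (1 - Γ * (1 - p) * b) ^ 2 ≤
      (1 + u / 4) * ((1 + u / 4) * p ^ 2 + (1 + 4 / u) * ((1568 + 8 * N) * (ε * p))) :=
    mul_le_mul (by linarith) (by linarith) (sq_nonneg _) (by linarith)
  have d6 : (1 - p) ^ 2 * b ≤ (1 - p) ^ 2 + 28 * (ε * p) := by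
    have a1 := mul_le_mul_of_nonneg_left b2 (sq_nonneg (1 - p))
    have a2 : (1 - p) ^ 2 * (28 * π) ≤ 28 * π :=
      mul_le_of_le_one_left (by linarith) (pow_le_one₀ A0 (by linarith))
    linarith
  generalize hZ : (1 + 4 / u) * (1568 + 8 * N) * ε = Z at *
  have Z0 : 0 ≤ Z := by rw [← hZ]; positivity
  have d7 : p * (2 - p - 28 * ε) ≤ p * ((1 + u / 4) * ((1 + u / 4) * p + Z)) := by
    rw [← hZ]
    linarith
  have d8 := le_of_mul_le_mul_left d7 p0
  have d9 : (1 + u / 4) * Z ≤ 2 * Z := mul_le_mul_of_nonneg_right (by linarith) Z0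
  have d10 : (1 + u / 4) ^ 2 * p ≤ (1 + u / 4) ^ 2 * (1 - u) :=
    mul_le_mul_of_nonneg_left hp (sq_nonneg _)
  have d11 : 28 * ε + 2 * Z ≤ u := by rw [← hZ]; linarith
  have d12 : 0 ≤ u ^ 2 := sq_nonneg u
  have d13 : 0 ≤ u ^ 3 := by positivity
  linarith

end CritSys
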