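import Pool.Agent.Work.MP_80ee1d_an.X.Path
import Pool.Agent.Work.MP_80ee1d_an.Ball

/-!
The set of couplings with a ground state when `Λ + l₁` is much smaller than `Λ + l₂`.
-/

open MeasureTheory Filter Topology
open scoped RealInnerProductSpace

noncomputable section
namespace CritSys
namespace Ctx

variable {X : Type} [MeasurableSpace X] {H : Type} [NormedAddCommGroup H] [InnerProductSpace ℝ H]
  [CompleteSpace H] [TopologicalSpace.SeparableSpace H] {μ : Measure X} [IsFiniteMeasure μ]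
  (C : Ctx H μ) {φ : H} {γ l l0 m m1 m2 : ℝ}

omit [CompleteSpace H] [TopologicalSpace.SeparableSpace H] in
theorem Far_least (hm : 0 < m) {ω : H} (h : C.Least l m ω) : ∃ (W : H) (a : ℝ), 0 < a ∧
    C.P W = 1 ∧ C.Pos W ∧ (∀ ψ, C.B l W ψ = a * C.T W W W ψ) ∧ C.q l W = a ∧
      C.q l ω * m = a ^ 2 ∧ ∀ v, C.R ω v * m = C.R W v * a := by
  obtain ⟨W, r, hr, pW, rfl⟩ := C.CritC_norm h.2.1.ne_zero
  have p1 := h.2.1.smul (inv_pos.2 hr)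
  rw [inv_smul_smul₀ hr.ne'] at p1
  have e : ∀ ψ, C.B l W ψ = m * r ^ 2 * C.T W W W ψ := fun ψ => by
    have := h.1 ψ
    simp only [B_smul1, T_smul1, T_smul2, T_smul3] at this
    exact mul_left_cancel₀ hr.ne' (by linarith)
  have TW : C.T W W W W = 1 := pW
  have qW : C.q l W = m * r ^ 2 := by rw [← B_self, e, TW, mul_one]
  refine ⟨W, m * r ^ 2, by positivity, pW, p1, e, qW, by rw [q_smul, qW]; ring, fun v => ?_⟩
  have := C.R_smul r 1 W v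
  rw [one_smul] at this
  rw [this]
  ring

omit [CompleteSpace H] [TopologicalSpace.SeparableSpace H] in
theorem Far_P_phi (hE : C.Eig φ γ) : C.P φ = 1 := by rw [P_eq, hE.norm, one_pow]

omit [CompleteSpace H] [TopologicalSpace.SeparableSpace H] in
theorem Far_M (hE : C.Eig φ γ) {δ : ℝ} (hδ : 0 < δ) : ∃ K : ℝ, 0 < K ∧ ∀ (l : ℝ) (u : H),
    -C.Λ ≤ l → C.P u = 1 → C.S - δ ≤ C.q l u + K * C.R u φ := by
  have hL := C.Lam_pos
  obtain ⟨K, hK, h⟩ := T4_weight hE.pos (div_pos hδ hL)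
  refine ⟨C.Λ * K, by positivity, fun l u hl hu => ?_⟩
  have h1 : C.M u u ≤ K * C.R u φ + δ / C.Λ * ‖C.val u‖ ^ 2 := h (C.val u)
  have h2 := C.sob u
  rw [C.CritA_one hu] at h1 h2
  have h3 := mul_le_mul_of_nonneg_left h1 hL.le
  have h4 := mul_le_mul_of_nonneg_right hl (C.M_nonneg u)
  have h5 : C.Λ * (δ / C.Λ) = δ := mul_div_cancel₀ _ hL.ne'
  have h6 : C.q l u = ‖u‖ ^ 2 + l * C.M u u := rfl
  linarith

theorem far_top (hE : C.Eig φ γ) (h1 : 0 < m1) (h2 : 0 < m2) {δ₀ : ℝ} (hδ : 0 < δ₀) :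
    ∀ᶠ κ in 𝓝[>] (0 : ℝ), ∀ l1 l2 β : ℝ, C.Adm l1 → C.Adm l2 → C.Λ + l1 ≤ κ * (C.Λ + l2) →
      δ₀ * (C.Λ + l2) ≤ β * (C.Λ + l1) → β ≤ C.bh l1 m1 l2 → ¬ C.GS l1 l2 m1 m2 β := by
  have hL := C.Lam_pos
  have hg : 0 < γ * C.S := mul_pos hE.γ_pos C.S_pos
  obtain ⟨k, hk⟩ : ∃ k, k = C.M φ φ := ⟨_, rfl⟩
  have k0 : 0 < k := hk ▸ C.M_pos hE.pos.ne_zero
  obtain ⟨σ, hσ⟩ : ∃ σ, σ = C.S / C.Λ := ⟨_, rfl⟩
  have σ0 : 0 < σ := hσ ▸ div_pos C.S_pos hL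
  obtain ⟨τ₀, hτ⟩ : ∃ τ₀, τ₀ = σ / (2 * k) := ⟨_, rfl⟩
  have τ0 : 0 < τ₀ := by rw [hτ]; positivity
  obtain ⟨K, hK⟩ : ∃ K, K = 2 * m1 * k ^ 2 / (σ * δ₀) := ⟨_, rfl⟩
  have K0 : 0 < K := by rw [hK]; positivity
  obtain ⟨u, hu⟩ : ∃ u, u = σ / (4 * K) := ⟨_, rfl⟩
  have u0 : 0 < u := by rw [hu]; positivity
  filter_upwards [self_mem_nhdsWithin, Far_small 1 one_pos,
    Far_small (2 * (m1 + m2) * k) (mul_pos σ0 hδ),
    Far_small ((1 + u / 4) * (m1 * m2)) (show 0 < u / 4 * (δ₀ * τ₀) ^ 2 by positivity),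
    Far_small (64 * ((K + k) * C.Λ)) hg,
    Far_small (36 * ((K + k) * C.Λ) / (γ * C.S) *
      (28 + 2 * (1 + 4 / u) * (1568 + 8 * (16 / τ₀ ^ 2)))) u0] with κ (κ0 : 0 < κ) c1 c2 c3 c4 c5
  intro l1 l2 β a1 a2 hκ hβ hb hG
  rw [mul_one] at c1
  have e1 : 0 < C.Λ + l1 := by linarith [a1.1]
  have e2 : 0 < C.Λ + l2 := by linarith [a2.1]
  have e12 : C.Λ + l1 ≤ C.Λ + l2 := hκ.trans (mul_le_of_le_one_left e2.le c1)
  have e3 : C.Λ + l1 ≤ κ * C.Λ :=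
    hκ.trans (mul_le_mul_of_nonneg_left (by linarith [a2.2]) κ0.le)
  have β0 : 0 < β := (mul_pos_iff_of_pos_right e1).1 ((mul_pos hδ e2).trans_le hβ)
  have βκ : δ₀ ≤ β * κ := by
    refine le_of_mul_le_mul_right ?_ e2
    linarith [mul_le_mul_of_nonneg_left hκ β0.le]
  obtain ⟨z, w, s, t, pz, pw, z0, -, hs, hc, -, -⟩ := C.Deg_data hG
  obtain ⟨ω, hω⟩ := C.least_exists a1 h1
  obtain ⟨W, a, a0, pW, W0, eW, qW, qω, Rω⟩ := C.Far_least h1 hω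
  have q1 := C.Near_q_phi hE l1
  have q2 := C.Near_q_phi hE l2
  have aE : a ≤ (C.Λ + l1) * k := by
    have := C.Near_least hE a1 h1 hω
    rw [qω, ← hk] at this
    exact (abs_le_of_sq_le_sq' this (by positivity)).2
  have aσ : σ * (C.Λ + l1) ≤ a := by rw [hσ, ← qW]; exact C.Far_low a1 pW
  have yσ : σ * (C.Λ + l2) ≤ C.q l2 w := by rw [hσ]; exact C.Far_low a2 pw
  have b0 : β * (C.Λ + l1) ≤ m1 * (C.Λ + l2) := by
    have i1 := C.Near_bh1 (K := (C.Λ + l2) / (C.Λ + l1)) a1 a2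
      (by rw [div_mul_cancel₀ _ e1.ne']) hω
    rw [max_eq_left ((one_le_div e1).2 e12), ← mul_div_assoc] at i1
    exact (le_div_iff₀ e1).1 (hb.trans i1)
  have b1 : β * C.R W w * a ≤ m1 * C.q l2 w := by
    have i1 := mul_le_mul_of_nonneg_right hb (C.R_nonneg ω w)
    have i2 := mul_le_mul_of_nonneg_left (i1.trans (C.bh_le a2 hω w)) h1.le
    have i3 := Rω w
    calc _ = β * (C.R W w * a) := by ring
      _ = m1 * (β * C.R ω w) := by rw [← i3]; ring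
      _ ≤ _ := i2
  obtain ⟨e, he⟩ : ∃ e, e = (C.Λ + l2) * k / β := ⟨_, rfl⟩
  have e0 : 0 < e := by rw [he]; positivity
  have eβ : e * β = (C.Λ + l2) * k := by rw [he, div_mul_cancel₀ _ β0.ne']
  have pφ := C.Far_P_phi hE
  have U1 := C.semi1 a1 a2 h1 h2 hc pφ pφ (x := m1 * e) (y := (C.Λ + l2) * k)
    (by
      rw [q1, ← hk]
      refine le_of_mul_le_mul_right ?_ β0
      have := mul_le_mul_of_nonneg_right b0 k0.le
      rw [mul_assoc m1 e, eβ]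
      linarith)
    (by rw [q2, hk]) (by rw [R_self, pφ, ← eβ]; exact le_of_eq (by ring))
  have U2 : s * C.q l1 z + t * C.q l2 w ≤ m1 * e ^ 2 :=
    le_of_mul_le_mul_right (U1.trans (le_of_eq (by ring))) h1
  have τ1 : C.R z w ≤ 1 := by
    have := C.R_le z w
    rwa [C.CritA_one pz, C.CritA_one pw, one_pow, mul_one] at this
  have τn := C.R_nonneg z w
  obtain ⟨s0, t0, hx, hy⟩ := id hs
  have cs : 0 ≤ β * C.R z w * s * t := by positivity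
  have L1 : s * C.q l1 z + t * C.q l2 w =
      m1 * s ^ 2 + 2 * (β * C.R z w * s * t) + m2 * t ^ 2 := by
    rw [hx, hy]
    ring
  have m1s : 0 ≤ m1 * s ^ 2 := by positivity
  have m2t : 0 ≤ m2 * t ^ 2 := by positivity
  have se : s ≤ e :=
    (abs_le_of_sq_le_sq' (le_of_mul_le_mul_left (by linarith) h1) e0.le).2
  have te : m2 * t ≤ (m1 + m2) * e := by
    refine (abs_le_of_sq_le_sq' ?_ (by positivity)).2
    have i1 := mul_le_mul_of_nonneg_left (show m2 * t ^ 2 ≤ m1 * e ^ 2 by linarith) h2.le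
    have i2 : 0 ≤ (m1 ^ 2 + m1 * m2 + m2 ^ 2) * e ^ 2 := by positivity
    linarith
  have te2 : 2 * ((m1 + m2) * e) ≤ σ * (C.Λ + l2) := by
    refine le_of_mul_le_mul_right ?_ (mul_pos β0 κ0)
    have i1 := mul_le_mul_of_nonneg_right c2 e2.le
    have i2 := mul_le_mul_of_nonneg_left βκ (mul_pos σ0 e2).le
    calc _ = κ * (2 * (m1 + m2)) * (e * β) := by ring
      _ = κ * (2 * (m1 + m2) * k) * (C.Λ + l2) := by rw [eβ]; ring
      _ ≤ _ := by linarith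
  have cl : σ * (C.Λ + l2) ≤ 2 * (β * C.R z w * s) := by linarith
  have τl : τ₀ ≤ C.R z w := by
    rw [hτ, div_le_iff₀ (by positivity)]
    refine le_of_mul_le_mul_right ?_ e2
    have i1 := mul_le_mul_of_nonneg_left se (mul_nonneg β0.le τn)
    calc _ ≤ 2 * (β * C.R z w * e) := by linarith
      _ = 2 * C.R z w * (e * β) := by ring
      _ = _ := by rw [eβ]; ring
  have x0 : 0 < C.q l1 z := C.q_pos a1.1 z0.ne_zero
  have xK : C.q l1 z ≤ K * (C.Λ + l1) := by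
    have i1 : σ * (C.Λ + l2) ≤ 2 * (β * s) := by
      have := mul_le_mul_of_nonneg_left τ1 (mul_pos β0 s0).le
      linarith
    have i2 : s * C.q l1 z ≤ m1 * e ^ 2 := by
      have := mul_nonneg t0.le (C.q_nonneg a2.1.le w)
      linarith
    have i3 := mul_le_mul_of_nonneg_right i1 x0.le
    have i4 := mul_le_mul_of_nonneg_left i2 β0.le
    have i5 : σ * C.q l1 z ≤ 2 * m1 * k * e := by
      refine le_of_mul_le_mul_right ?_ e2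
      calc _ ≤ 2 * m1 * e * (e * β) := by linarith
        _ = _ := by rw [eβ]; ring
    have i6 : δ₀ * e ≤ (C.Λ + l1) * k := by
      refine le_of_mul_le_mul_right ?_ β0
      have := mul_le_mul_of_nonneg_right hβ k0.le
      rw [mul_assoc δ₀ e, eβ]
      linarith
    rw [hK, div_mul_eq_mul_div, le_div_iff₀ (by positivity)]
    have i7 := mul_le_mul_of_nonneg_left i5 hδ.le
    have i8 := mul_le_mul_of_nonneg_left i6 (show 0 ≤ 2 * m1 * k by positivity)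
    linarith
  have Y1 := mul_le_mul_of_nonneg_left e3 K0.le
  have Y2 := mul_le_mul_of_nonneg_left e3 k0.le
  have Y3 : 0 ≤ K * (κ * C.Λ) := by positivity
  have Y4 : 0 ≤ k * (κ * C.Λ) := by positivity
  refine C.Far_path hE a1 a2 h1 h2 pz pw z0 hs hc pW W0 eW b1 τ0 τl u0
    (Y := κ * ((K + k) * C.Λ)) (ε := κ * (36 * ((K + k) * C.Λ) / (γ * C.S))) (by linarith)
    (by linarith) ?_ (by linarith) (by rw [mul_assoc κ, div_mul_cancel₀ _ hg.ne']; ring)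
    (by linarith) ?_ β0
  · refine le_trans ?_ aσ
    calc _ ≤ u * (4 * (K * (C.Λ + l1))) := by gcongr
      _ = _ := by rw [hu]; field_simp
  · have i1 : δ₀ * τ₀ ≤ κ * (β * C.R z w) := by
      have := mul_le_mul βκ τl τ0.le (by positivity)
      linarith
    have i2 := pow_le_pow_left₀ (by positivity) i1 2
    have i3 := mul_le_mul_of_nonneg_left i2 (show 0 ≤ u / 4 by positivity)
    refine le_of_mul_le_mul_left ?_ κ0
    have i4 : κ * (κ * (u / 4 * (β * C.R z w) ^ 2)) ≤ κ * (u / 4 * (β * C.R z w) ^ 2) :=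
      mul_le_of_le_one_left (by positivity) c1
    linarith

omit [CompleteSpace H] [TopologicalSpace.SeparableSpace H] in
theorem far_mid (hE : C.Eig φ γ) (h1 : 0 < m1) (h2 : 0 < m2) (a0 : C.Adm l0) :
    ∃ δ₀ : ℝ, 0 < δ₀ ∧ ∀ᶠ κ in 𝓝[>] (0 : ℝ), ∀ l1 l2 β : ℝ, C.Adm l1 → C.Adm l2 → l2 ≤ l0 →
      l1 < l2 → C.Λ + l1 ≤ κ * (C.Λ + l2) → 0 ≤ β → m1 * m2 ≤ β ^ 2 →
      β * (C.Λ + l1) ≤ δ₀ * (C.Λ + l2) → ¬ C.GS l1 l2 m1 m2 β := by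
  have hL := C.Lam_pos
  obtain ⟨φ₀, σ₀, n0, -, p0, q0, -, σ0, σS⟩ := C.exists_phi a0 a0
  have r0 : 0 < C.R φ φ₀ := C.R_pos hE.pos n0
  obtain ⟨K, K0, hK⟩ := C.Far_M hE (show 0 < (C.S - σ₀) / 4 by linarith)
  obtain ⟨k, hk⟩ : ∃ k, k = C.M φ φ := ⟨_, rfl⟩
  have k0 : 0 < k := hk ▸ C.M_pos hE.pos.ne_zero
  obtain ⟨σ, hσ⟩ : ∃ σ, σ = C.S / C.Λ := ⟨_, rfl⟩
  have σp : 0 < σ := hσ ▸ div_pos C.S_pos hL
  obtain ⟨m0, m00, m01, m02⟩ : ∃ m0 : ℝ, 0 < m0 ∧ m0 ≤ m1 ∧ m0 ≤ m2 :=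
    ⟨min m1 m2, lt_min h1 h2, min_le_left _ _, min_le_right _ _⟩
  have g0 : 0 < C.S - σ₀ := by linarith
  obtain ⟨δ₀, hδ⟩ : ∃ δ₀, δ₀ = (C.S - σ₀) * m0 * σ / (8 * K * k) := ⟨_, rfl⟩
  have δ0 : 0 < δ₀ := by rw [hδ]; positivity
  have δ1 : δ₀ * (8 * K * k) = (C.S - σ₀) * m0 * σ := by
    rw [hδ, div_mul_cancel₀ _ (by positivity)]
  refine ⟨δ₀, δ0, ?_⟩
  filter_upwards [self_mem_nhdsWithin, Far_small m2 δ0,
    Far_small (m2 * C.Λ * k) (show 0 < m0 * C.R φ φ₀ * σ₀ by positivity)]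
    with κ (κ0 : 0 < κ) c1 c2
  intro l1 l2 β a1 a2 hl0 hl hκ hβ hd hb hG
  have e1 : 0 < C.Λ + l1 := by linarith [a1.1]
  have e2 : 0 < C.Λ + l2 := by linarith [a2.1]
  have e3 : C.Λ + l1 ≤ κ * C.Λ :=
    hκ.trans (mul_le_mul_of_nonneg_left (by linarith [a2.2]) κ0.le)
  have mβ : m0 ≤ β := by
    refine (abs_le_of_sq_le_sq' (le_trans ?_ hd) hβ).2
    rw [sq]
    exact mul_le_mul m01 m02 m00.le h1.le
  have β0 : 0 < β := m00.trans_le mβ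
  obtain ⟨z, w, s, t, pz, pw, z0, -, hs, hc, ez, -⟩ := C.Deg_data hG
  have pic := C.picone_eqn (l := l1) (m := m1 * s) (β := β * t) ez z0 φ
  rw [C.Near_q_phi hE, ← hk] at pic
  obtain ⟨s0, t0, hx, hy⟩ := hs
  have τ1 : C.R z w ≤ 1 := by
    have := C.R_le z w
    rwa [C.CritA_one pz, C.CritA_one pw, one_pow, mul_one] at this
  have st : 0 < β * s * t := by positivity
  have L1 : s * C.q l1 z + t * C.q l2 w ≤ m1 * s ^ 2 + 2 * β * s * t + m2 * t ^ 2 := by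
    have := mul_le_mul_of_nonneg_left τ1 st.le
    rw [hx, hy]
    linarith
  have yσ : σ * (C.Λ + l2) ≤ C.q l2 w := by rw [hσ]; exact C.Far_low a2 pw
  have i1 : σ * (C.Λ + l2) ≤ (β + m2) * (s + t) := by
    have j1 := mul_le_mul_of_nonneg_left τ1 (mul_pos β0 s0).le
    have j2 := mul_pos β0 t0
    have j3 := mul_pos h2 s0
    linarith
  have i2 : (C.Λ + l1) * (β + m2) ≤ 2 * δ₀ * (C.Λ + l2) := by
    have j1 := mul_le_mul_of_nonneg_left hκ h2.le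
    have j2 := mul_le_mul_of_nonneg_right c1 e2.le
    linarith
  have i3 : σ * (C.Λ + l1) ≤ 2 * δ₀ * (s + t) := by
    refine le_of_mul_le_mul_right ?_ e2
    have j1 := mul_le_mul_of_nonneg_left i1 e1.le
    have j2 := mul_le_mul_of_nonneg_right i2 (add_pos s0 t0).le
    linarith
  have i4 : m0 * (s * C.R z φ + t * C.R w φ) ≤ (C.Λ + l1) * k := by
    have j1 := mul_le_mul_of_nonneg_right m01 (mul_nonneg s0.le (C.R_nonneg z φ))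
    have j2 := mul_le_mul_of_nonneg_right mβ (mul_nonneg t0.le (C.R_nonneg w φ))
    linarith
  have i5 : K * (s * C.R z φ + t * C.R w φ) ≤ (C.S - σ₀) / 4 * (s + t) := by
    refine le_of_mul_le_mul_left ?_ (mul_pos m00 σp)
    have j1 := mul_le_mul_of_nonneg_left i4 (mul_pos K0 σp).le
    have j2 := mul_le_mul_of_nonneg_left i3 (mul_pos K0 k0).le
    calc _ ≤ δ₀ * (8 * K * k) * ((s + t) / 4) := by linarith
      _ = _ := by rw [δ1]; ring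
  have i6 : (C.S + σ₀) / 2 * (s + t) ≤ s * C.q l1 z + t * C.q l2 w := by
    have j1 := mul_le_mul_of_nonneg_left (hK l1 z a1.1.le pz) s0.le
    have j2 := mul_le_mul_of_nonneg_left (hK l2 w a2.1.le pw) t0.le
    linarith
  have L0 : 0 ≤ s * C.q l1 z + t * C.q l2 w := le_trans (by positivity [C.S_pos]) i6
  have f2 : C.q l2 φ₀ ≤ σ₀ := (C.q_mono hl0 φ₀).trans q0
  have f1 : C.q l1 φ₀ ≤ σ₀ := (C.q_mono hl.le φ₀).trans f2
  refine Far_algA s0 t0 σ0 (by linarith) i6 L1 ?_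
  rcases le_or_gt β m2 with b2 | b2
  · have j0 : m1 ≤ m2 := by
      refine le_of_mul_le_mul_right (hd.trans ?_) h2
      rw [← sq]
      exact pow_le_pow_left₀ hβ b2 2
    have j1 := C.semi2 a1 a2 h1 h2 hc (C.Far_P_phi hE) p0 (x := (C.Λ + l1) * k) (y := σ₀)
      (by rw [C.Near_q_phi hE, hk]) f2 (by
        have o1 := mul_le_mul_of_nonneg_left e3 (mul_pos h2 k0).le
        have o2 := mul_le_mul_of_nonneg_right mβ (mul_pos r0 σ0).le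
        linarith)
    have j2 : m1 * s ^ 2 + 2 * β * s * t + m2 * t ^ 2 ≤ m2 * (s + t) ^ 2 := by
      have o1 := mul_le_mul_of_nonneg_right j0 (sq_nonneg s)
      have o2 := mul_le_mul_of_nonneg_right b2 (mul_pos s0 t0).le
      linarith
    have j3 := mul_le_mul_of_nonneg_left j2 L0
    have j4 := mul_le_mul_of_nonneg_right j1 (sq_nonneg (s + t))
    linarith
  rcases le_or_gt β m1 with b1 | b1
  · exact (C.gap_mid hl b2.le b1 hG).elim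
  have D0 : 0 < β ^ 2 - m1 * m2 := by
    have := mul_lt_mul'' b1 b2 h1.le h2.le
    linarith
  have j1 := C.mon a1 a2 h1 h2 hβ hc p0 p0 f1 f2 (ρ := 1) zero_le_one (by rw [R_self, p0])
    (s := σ₀ * (β - m2) / (β ^ 2 - m1 * m2)) (t := σ₀ * (β - m1) / (β ^ 2 - m1 * m2))
    ⟨div_pos (mul_pos σ0 (by linarith)) D0, div_pos (mul_pos σ0 (by linarith)) D0,
      by rw [← mul_div_assoc, ← mul_div_assoc, ← add_div, eq_div_iff D0.ne']; ring,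
      by rw [← mul_div_assoc, ← mul_div_assoc, ← add_div, eq_div_iff D0.ne']; ring⟩
  rw [div_mul_eq_mul_div, div_mul_eq_mul_div, ← add_div, le_div_iff₀ D0] at j1
  refine le_of_mul_le_mul_right ?_ D0
  have j2 := mul_le_mul_of_nonneg_right j1 (L0.trans L1)
  have j3 := mul_nonneg (sq_nonneg σ₀) (sq_nonneg ((β - m1) * s - (β - m2) * t))
  linarith

theorem far_bh (hE : C.Eig φ γ) (h1 : 0 < m1) (h2 : 0 < m2) (a0 : C.Adm l0) :
    ∀ᶠ κ in 𝓝[>] (0 : ℝ), ∀ l1 l2 : ℝ, C.Adm l1 → C.Adm l2 → l2 ≤ l0 →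
      C.Λ + l1 ≤ κ * (C.Λ + l2) → C.bh l2 m2 l1 ^ 2 < m1 * m2 ∧ m1 * m2 ≤ C.bh l1 m1 l2 ^ 2 ∧
        ∀ β : ℝ, C.bh l1 m1 l2 < β → C.GS l1 l2 m1 m2 β := by
  have hL := C.Lam_pos
  obtain ⟨φ₀, σ₀, -, -, p0, q0, -, σ0, σS⟩ := C.exists_phi a0 a0
  obtain ⟨K, K0, hK⟩ := C.Far_M hE (show 0 < (C.S - σ₀) / 2 by linarith)
  obtain ⟨k, hk⟩ : ∃ k, k = C.M φ φ := ⟨_, rfl⟩
  have k0 : 0 < k := hk ▸ C.M_pos hE.pos.ne_zero
  obtain ⟨σ, hσ⟩ : ∃ σ, σ = C.S / C.Λ := ⟨_, rfl⟩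
  have σp : 0 < σ := hσ ▸ div_pos C.S_pos hL
  obtain ⟨m0, m00, m01, m02⟩ : ∃ m0 : ℝ, 0 < m0 ∧ m0 ≤ m1 ∧ m0 ≤ m2 :=
    ⟨min m1 m2, lt_min h1 h2, min_le_left _ _, min_le_right _ _⟩
  have g0 : 0 < C.S - σ₀ := by linarith
  filter_upwards [self_mem_nhdsWithin, Far_small 1 one_pos,
    Far_small (4 * K * k * m2) (show 0 < m0 * (C.S - σ₀) * σ by positivity),
    Far_small (k * (m1 + m2)) (mul_pos h1 σp),
    Far_small (k ^ 2 * m2) (show 0 < σ ^ 2 * m1 by positivity)] with κ (κ0 : 0 < κ) c1 c2 c3 c4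
  intro l1 l2 a1 a2 hl0 hκ
  rw [mul_one] at c1
  have e1 : 0 < C.Λ + l1 := by linarith [a1.1]
  have e2 : 0 < C.Λ + l2 := by linarith [a2.1]
  obtain ⟨ω, hω⟩ := C.least_exists a2 h2
  obtain ⟨W, a, ap, pW, -, -, qW, qω, Rω⟩ := C.Far_least h2 hω
  have aσ : σ * (C.Λ + l2) ≤ a := by rw [hσ, ← qW]; exact C.Far_low a2 pW
  have aσ0 : a ≤ σ₀ := by
    have i1 := C.least_quot a2.1 h2 hω φ₀
    rw [p0, mul_one, qω] at i1
    exact (abs_le_of_sq_le_sq' i1 (C.q_nonneg a2.1.le φ₀)).2.trans ((C.q_mono hl0 φ₀).trans q0)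
  have b1 : 0 ≤ C.bh l1 m1 l2 := C.bh_nonneg a2
  have b2 : 0 ≤ C.bh l2 m2 l1 := C.bh_nonneg a1
  refine ⟨?_, ?_, fun β hβ => ?_⟩
  · have i1 : C.S - σ₀ ≤ 2 * K * C.R W φ := by linarith [hK l2 W a2.1.le pW]
    have i2 := mul_le_mul_of_nonneg_right (C.bh_le a1 hω φ) h2.le
    rw [mul_assoc, Rω, C.Near_q_phi hE, ← hk] at i2
    have i3 : (C.S - σ₀) * (σ * (C.Λ + l2)) ≤ 2 * K * C.R W φ * a :=
      mul_le_mul i1 aσ (by positivity) (g0.le.trans i1)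
    have i4 := mul_le_mul_of_nonneg_left i3 b2
    have i5 := mul_le_mul_of_nonneg_left i2 K0.le
    have i6 := mul_le_mul_of_nonneg_left hκ (show 0 ≤ K * k * m2 by positivity)
    have i7 := mul_le_mul_of_nonneg_right c2 e2.le
    have i8 : 2 * C.bh l2 m2 l1 ≤ m0 :=
      le_of_mul_le_mul_right (a := (C.S - σ₀) * (σ * (C.Λ + l2))) (by linarith) (by positivity)
    calc _ < m0 ^ 2 := pow_lt_pow_left₀ (by linarith) b2 two_ne_zero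
      _ ≤ _ := by
        rw [sq]
        exact mul_le_mul m01 m02 m00.le h1.le
  · have i0 : m1 + m2 ≤ C.bh l1 m1 l2 := by
      refine le_of_not_gt fun hlt => ?_
      obtain ⟨ω', v, hω', v0, hv⟩ := C.exists_of_bh_lt a1 h1 hlt
      obtain ⟨W', a', ap', pW', -, -, -, qω', Rω'⟩ := C.Far_least h1 hω'
      obtain ⟨V, p, p0', pV, qV, -, RV⟩ := C.CritA_norm v0
      have aE : a' ≤ (C.Λ + l1) * k := by
        have := C.Near_least hE a1 h1 hω'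
        rw [qω', ← hk] at this
        exact (abs_le_of_sq_le_sq' this (by positivity)).2
      rw [qV, R_comm, RV, R_comm, mul_left_comm] at hv
      have j1 := lt_of_mul_lt_mul_left hv p0'.le
      have j2 : C.R W' V ≤ 1 := by
        have := C.R_le W' V
        rwa [C.CritA_one pW', C.CritA_one pV, one_pow, mul_one] at this
      have j3 : σ * (C.Λ + l2) ≤ C.q l2 V := by rw [hσ]; exact C.Far_low a2 pV
      have j4 : C.R ω' V * m1 ≤ κ * (C.Λ + l2) * k := by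
        rw [Rω']
        exact (mul_le_of_le_one_left ap'.le j2).trans
          (aE.trans (mul_le_mul_of_nonneg_right hκ k0.le))
      have j5 := mul_le_mul_of_nonneg_left j4 (add_pos h1 h2).le
      have j6 := mul_lt_mul_of_pos_left (j3.trans_lt j1) h1
      have j7 := mul_le_mul_of_nonneg_right c3 e2.le
      linarith
    have i1 := pow_le_pow_left₀ (add_pos h1 h2).le i0 2
    linarith [sq_nonneg m1, sq_nonneg m2, mul_pos h1 h2]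
  · obtain ⟨w, y, hw, -, hy⟩ := C.exists_of_bh_lt a1 h1 hβ
    refine C.upper a1 a2 h1 h2 (by linarith) hw hω ?_ hy
    refine le_of_mul_le_mul_right ?_ (mul_pos h1 h2)
    have i1 := C.Near_least hE a1 h1 hw
    rw [← hk] at i1
    have i2 : ((C.Λ + l1) * k) ^ 2 ≤ (κ * (C.Λ + l2) * k) ^ 2 := by gcongr
    have i3 := mul_le_mul_of_nonneg_right (i1.trans i2) h2.le
    have i4 := mul_le_mul_of_nonneg_right (pow_le_pow_left₀ (by positivity) aσ 2) h1.le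
    have i5 := mul_le_mul_of_nonneg_right c4 (sq_nonneg (C.Λ + l2))
    have i6 : κ * (κ * (k ^ 2 * m2) * (C.Λ + l2) ^ 2) ≤ κ * (k ^ 2 * m2) * (C.Λ + l2) ^ 2 :=
      mul_le_of_le_one_left (by positivity) c1
    rw [← qω] at i4
    linarith

theorem far (h1 : 0 < m1) (h2 : 0 < m2) (a0 : C.Adm l0) : ∃ κ : ℝ, 0 < κ ∧ ∀ l1 l2 : ℝ,
    C.Adm l1 → C.Adm l2 → l2 ≤ l0 → C.Λ + l1 ≤ κ * (C.Λ + l2) →
      C.bh l2 m2 l1 ^ 2 < m1 * m2 ∧ m1 * m2 ≤ C.bh l1 m1 l2 ^ 2 ∧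
        ∀ β : ℝ, C.bh l2 m2 l1 ≤ β → (C.GS l1 l2 m1 m2 β ↔ C.bh l1 m1 l2 < β) := by
  obtain ⟨φ, γ, hE⟩ := C.exists_eig
  obtain ⟨δ₀, δ0, hm⟩ := C.far_mid hE h1 h2 a0
  have hp : ∀ᶠ κ in 𝓝[>] (0 : ℝ), 0 < κ := eventually_mem_nhdsWithin
  obtain ⟨κ, κ0, κ1, A, B, D⟩ := (Filter.Eventually.and hp ((Far_small 2 one_pos).and (hm.and
    ((C.far_top hE h1 h2 δ0).and (C.far_bh hE h1 h2 a0))))).exists
  refine ⟨κ, κ0, fun l1 l2 a1 a2 hl0 hκ => ?_⟩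
  obtain ⟨d1, d2, d3⟩ := D l1 l2 a1 a2 hl0 hκ
  refine ⟨d1, d2, fun β hβ => ⟨fun hG => lt_of_not_ge fun hb => ?_, d3 β⟩⟩
  have β0 : 0 ≤ β := (C.bh_nonneg a1).trans hβ
  have e2 : 0 < C.Λ + l2 := by linarith [a2.1]
  have hl : l1 < l2 := by linarith [mul_le_mul_of_nonneg_right κ1 e2.le]
  rcases lt_or_ge (β ^ 2) (m1 * m2) with hd | hd
  · exact C.lower_non a1 a2 h1 h2 β0 hd hβ hG
  rcases le_total (β * (C.Λ + l1)) (δ₀ * (C.Λ + l2)) with e | e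
  · exact A l1 l2 β a1 a2 hl0 hl hκ β0 hd e hG
  · exact B l1 l2 β a1 a2 hκ e hb hG

theorem far_low (h1 : 0 < m1) (h2 : 0 < m2) : ∃ ε : ℝ, 0 < ε ∧ ∀ l1 l2 β : ℝ, C.Adm l1 →
    C.Adm l2 → l1 ≤ l2 → C.Λ + l2 < ε → 0 ≤ β → β ^ 2 < m1 * m2 →
      (C.GS l1 l2 m1 m2 β ↔ β < C.bh l1 m1 l2 ∧ β < C.bh l2 m2 l1) := by
  obtain ⟨φ, γ, hE⟩ := C.exists_eig
  obtain ⟨δ, δ0, uq⟩ := C.uniq hE
  have k0 : 0 < C.M φ φ := C.M_pos hE.pos.ne_zero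
  obtain ⟨L, hL⟩ : ∃ L, L = 2 + m1 / m2 + m2 / m1 := ⟨_, rfl⟩
  have r1 := div_pos h1 h2
  have r2 := div_pos h2 h1
  have L0 : 0 < L := by linarith
  refine ⟨δ / (L * C.M φ φ), by positivity, fun l1 l2 β a1 a2 hl hε hβ hd => ?_⟩
  rw [lt_div_iff₀ (by positivity)] at hε
  have e1 : 0 < C.Λ + l1 := by linarith [a1.1]
  have e2 : 0 < C.Λ + l2 := by linarith [a2.1]
  have E12 : ((C.Λ + l1) * C.M φ φ) ^ 2 ≤ ((C.Λ + l2) * C.M φ φ) ^ 2 := by gcongr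
  have nl1 := fun w (hw : C.Least l1 m1 w) => (C.Near_least hE a1 h1 hw).trans E12
  have nl2 := fun w (hw : C.Least l2 m2 w) => C.Near_least hE a2 h2 hw
  have hE2 : 0 < (C.Λ + l2) * C.M φ φ := mul_pos e2 k0
  have hsm : L * ((C.Λ + l2) * C.M φ φ) ≤ δ := by linarith
  generalize (C.Λ + l2) * C.M φ φ = E at *
  have qn1 := C.q_nonneg a1.1.le
  have qn2 := C.q_nonneg a2.1.le
  have sm1 : ∀ w w1 w2, C.Sol1 l1 m1 w → C.Least l1 m1 w1 → C.Least l2 m2 w2 →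
      C.q l1 w ≤ C.q l1 w1 + C.q l2 w2 → m1 * ‖C.val w‖ ^ 2 ≤ δ := by
    intro w w1 w2 hw hw1 hw2 hle
    refine (Near_sq (c := (m2 + m1) / m2) hE2.le (by positivity)
      (by rw [add_div, div_self h2.ne']; linarith) ?_).trans hsm
    rw [C.Near_sol hw, div_mul_eq_mul_div, le_div_iff₀ h2]
    have t1 := mul_le_mul_of_nonneg_right (nl1 w1 hw1) h2.le
    have t2 := mul_le_mul_of_nonneg_right (nl2 w2 hw2) h1.le
    have t3 := mul_le_mul_of_nonneg_right hle (mul_pos h1 h2).le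
    linarith
  have sm2 : ∀ w w1 w2, C.Sol1 l2 m2 w → C.Least l1 m1 w1 → C.Least l2 m2 w2 →
      C.q l2 w ≤ C.q l1 w1 + C.q l2 w2 → m2 * ‖C.val w‖ ^ 2 ≤ δ := by
    intro w w1 w2 hw hw1 hw2 hle
    refine (Near_sq (c := (m1 + m2) / m1) hE2.le (by positivity)
      (by rw [add_div, div_self h1.ne']; linarith) ?_).trans hsm
    rw [C.Near_sol hw, div_mul_eq_mul_div, le_div_iff₀ h1]
    have t1 := mul_le_mul_of_nonneg_right (nl1 w1 hw1) h2.le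
    have t2 := mul_le_mul_of_nonneg_right (nl2 w2 hw2) h1.le
    have t3 := mul_le_mul_of_nonneg_right hle (mul_pos h1 h2).le
    linarith
  refine C.lowerRange a1 a2 h1 h2 hβ hd ?_ ?_
  · intro w w1 w2 hw hp hw1 hw2 hle
    rw [uq l1 m1 w w1 a1.1.le h1 hw hp hw1.1 hw1.2.1 (sm1 w w1 w2 hw hw1 hw2 hle)
      (sm1 w1 w1 w2 hw1.1 hw1 hw2 (by linarith [qn2 w2]))]
    exact hw1
  · intro w w1 w2 hw hp hw1 hw2 hle
    rw [uq l2 m2 w w2 a2.1.le h2 hw hp hw2.1 hw2.2.1 (sm2 w w1 w2 hw hw1 hw2 hle)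
      (sm2 w2 w1 w2 hw2.1 hw1 hw2 (by linarith [qn1 w1]))]
    exact hw2

theorem near_far (h1 : 0 < m1) (h2 : 0 < m2) {ρ : ℝ} (hρ : 0 < ρ) :
    ∃ ε : ℝ, 0 < ε ∧ ∀ l1 l2 : ℝ, -C.Λ < l1 → l1 < -C.Λ + ε → l1 ≤ l2 → l2 ≤ -ρ →
      ρ ≤ |((C.Λ + l1) / (C.Λ + l2)) ^ 2 * m2 - m1| → ∀ β : ℝ, 0 ≤ β →
      (min (C.bh l1 m1 l2) (C.bh l2 m2 l1) ≤ β ∨ l2 < -C.Λ + ε ∨ (β ^ 2 < m1 * m2 →
        (C.GS l1 l2 m1 m2 β ↔ β < min (C.bh l1 m1 l2) (C.bh l2 m2 l1)))) →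
      (C.GS l1 l2 m1 m2 β ↔
        β < min (C.bh l1 m1 l2) (C.bh l2 m2 l1) ∨ max (C.bh l1 m1 l2) (C.bh l2 m2 l1) < β) := by
  have hL := C.Lam_pos
  obtain ⟨κ, κ0, A⟩ := C.far h1 h2 (l0 := max (-ρ) (-C.Λ / 2))
    ⟨lt_max_of_lt_right (by linarith), max_lt (by linarith) (by linarith)⟩
  obtain ⟨ε1, p1, B⟩ := C.near h1 h2 (lt_min hρ κ0)
  obtain ⟨ε2, p2, D⟩ := C.far_low h1 h2
  refine ⟨min (κ * ε1) ε2, lt_min (mul_pos κ0 p1) p2, fun l1 l2 k1 k2 k3 k4 k5 β hβ hh => ?_⟩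
  have t1 := min_le_left (κ * ε1) ε2
  have t2 := min_le_right (κ * ε1) ε2
  have a1 : C.Adm l1 := ⟨k1, by linarith⟩
  have a2 : C.Adm l2 := ⟨by linarith, by linarith⟩
  have e2 : 0 < C.Λ + l2 := by linarith
  rcases le_total (κ * (C.Λ + l2)) (C.Λ + l1) with e | e
  · have i1 : C.Λ + l2 < ε1 := lt_of_mul_lt_mul_left (by linarith) κ0.le
    exact B l1 l2 k1 k3 a2.2 (by linarith) ((min_le_right _ _).trans ((le_div_iff₀ e2).2 e))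
      ((min_le_left _ _).trans k5) β hβ
  obtain ⟨d1, d2, d3⟩ := A l1 l2 a1 a2 (le_max_of_le_left k4) e
  have b1 : 0 ≤ C.bh l1 m1 l2 := C.bh_nonneg a2
  have hle : C.bh l2 m2 l1 ≤ C.bh l1 m1 l2 := (abs_le_of_sq_le_sq' (by linarith) b1).2
  rw [min_eq_right hle] at hh ⊢
  rw [max_eq_left hle]
  rcases le_or_gt (C.bh l2 m2 l1) β with f | f
  · rw [d3 β f, or_iff_right (not_lt.2 f)]
  have hd : β ^ 2 < m1 * m2 := (pow_le_pow_left₀ hβ f.le 2).trans_lt d1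
  refine iff_of_true ?_ (Or.inl f)
  rcases hh with g | g | g
  · exact absurd g (not_le.2 f)
  · exact (D l1 l2 β a1 a2 k3 (by linarith) hβ hd).2 ⟨f.trans_le hle, f⟩
  · exact (g hd).2 f

theorem bh_le_coef {l1 l2 : ℝ} (a1 : C.Adm l1) (a2 : C.Adm l2) (k : l1 ≤ l2) (h2 : 0 < m2) :
    C.bh l2 m2 l1 ≤ m2 := by
  obtain ⟨w, hw⟩ := C.least_exists a2 h2
  have e1 := C.bh_le a1 hw w
  have e2 := hw.1.q_eq
  have e3 : 0 < C.P w := C.P_pos hw.2.1.ne_zero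
  have e4 : C.q l1 w ≤ C.q l2 w := by
    have := mul_le_mul_of_nonneg_right k (C.M_nonneg w)
    simp only [q]
    linarith
  have e5 : C.R w w = C.P w := rfl
  rw [e5] at e1
  exact le_of_mul_le_mul_right (by linarith) e3

end Ctx

theorem final_near_far (Ω : Set E4) (ho : IsOpen Ω) (hc : IsConnected Ω)
    (hb : Bornology.IsBounded Ω) (μ₁ μ₂ : ℝ) (h1 : 0 < μ₁) (h2 : 0 < μ₂) (ρ : ℝ) (hρ : 0 < ρ) :
    ∃ ε : ℝ, 0 < ε ∧ ∀ l₁ l₂ : ℝ, -lam1 Ω < l₁ → l₁ < -lam1 Ω + ε → l₁ ≤ l₂ → l₂ ≤ -ρ →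
      ρ ≤ |((lam1 Ω + l₁) / (lam1 Ω + l₂)) ^ 2 * μ₂ - μ₁| → ∀ β : ℝ, 0 ≤ β →
      (min μ₂ (min (betaHat Ω l₁ μ₁ l₂) (betaHat Ω l₂ μ₂ l₁)) ≤ β ∨ l₂ < -lam1 Ω + ε ∨
        ∃ R : ℝ, 0 < R ∧ Ω = Metric.ball 0 R) →
      (HasGroundState Ω l₁ l₂ μ₁ μ₂ β ↔
        β < min (betaHat Ω l₁ μ₁ l₂) (betaHat Ω l₂ μ₂ l₁) ∨
          max (betaHat Ω l₁ μ₁ l₂) (betaHat Ω l₂ μ₂ l₁) < β) := by
  obtain ⟨d, rfl⟩ : ∃ d : Dom, d.Ω = Ω := ⟨⟨Ω, ho, hc, hb⟩, rfl⟩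
  have hΛ : lam1 d.Ω = (ctx d).Λ := lam1_eq d
  obtain ⟨ε, hε, h⟩ := (ctx d).near_far h1 h2 hρ
  refine ⟨ε, hε, fun l₁ l₂ k1 k2 k3 k4 k5 β hβ hh => ?_⟩
  have hB : (∃ R : ℝ, 0 < R ∧ d.Ω = Metric.ball 0 R) → β ^ 2 < μ₁ * μ₂ →
      (HasGroundState d.Ω l₁ l₂ μ₁ μ₂ β ↔
        β < min (betaHat d.Ω l₁ μ₁ l₂) (betaHat d.Ω l₂ μ₂ l₁)) := by
    rintro ⟨R, hR, e⟩ hd
    rw [e] at k1 ⊢
    exact final_ball R hR l₁ l₂ μ₁ μ₂ k1 k3 (by linarith) h1 h2 β hβ hd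
  rw [hΛ] at k1 k2 k5 hh
  have a1 : (ctx d).Adm l₁ := ⟨k1, by linarith⟩
  have a2 : (ctx d).Adm l₂ := ⟨by linarith, by linarith⟩
  have e0 : HasGroundState d.Ω l₁ l₂ μ₁ μ₂ β ↔ _ := hasGS_iff a1 a2 μ₁ μ₂ β
  have e1 : betaHat d.Ω l₁ μ₁ l₂ = _ := betaHat_eq a1 l₂
  have e2 : betaHat d.Ω l₂ μ₂ l₁ = _ := betaHat_eq a2 l₁
  rw [e0, e1, e2] at hB ⊢
  rw [e1, e2, min_eq_right ((min_le_right _ _).trans ((ctx d).bh_le_coef a1 a2 k3 h2))] at hh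
  exact h l₁ l₂ k1 k2 k3 k4 k5 β hβ (hh.imp_right (Or.imp_right hB))

end CritSys
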