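import Pool.Agent.Work.MP_80ee1d_an.X.PolSys
import Pool.Agent.Work.MP_80ee1d_an.X.Far

/-!
Compactness of almost minimisers of the Sobolev quotient and coercivity of its second variation.
-/

open MeasureTheory Filter Topology
open scoped RealInnerProductSpace

noncomputable section
namespace CritSys
namespace Ctx

variable {X : Type} [MeasurableSpace X] {H : Type} [NormedAddCommGroup H] [InnerProductSpace ℝ H]
  {μ : Measure X} [IsFiniteMeasure μ] {C : Ctx H μ} {l a l1 a1 : ℝ} {W W1 : H} {ι : Type}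

/-- A normalised positive minimiser of the Sobolev quotient. -/
structure Nrm (C : Ctx H μ) (l a : ℝ) (W : H) : Prop where
  adm : C.Adm l
  a0 : 0 < a
  aS : a < C.S
  P1 : C.P W = 1
  q1 : C.q l W = a
  least : C.Least l a W
  min : ∀ z, a ^ 2 * C.P z ≤ C.q l z ^ 2

theorem Diag_of_min (al : C.Adm l) (a0 : 0 < a) (hm : ∀ z, a ^ 2 * C.P z ≤ C.q l z ^ 2) {u : H}
    (h0 : 0 ≤ C.val u) (hP : C.P u = 1) (hq : C.q l u = a) : C.Least l a u := by
  have hs : C.Sol1 l a u := by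
    intro ψ
    have d := ((C.hasDerivAt_q l u ψ).fun_pow 2).sub ((C.hasDerivAt_P u ψ).const_mul (a ^ 2))
    have hmin : IsLocalMin
        (fun ε : ℝ => C.q l (u + ε • ψ) ^ 2 - a ^ 2 * C.P (u + ε • ψ)) 0 := by
      refine Eventually.of_forall fun ε => ?_
      have := hm (u + ε • ψ)
      simp only [zero_smul, add_zero, hq, hP]
      linarith
    have := hmin.hasDerivAt_eq_zero d
    simp only [zero_smul, add_zero, hq] at this
    refine mul_left_cancel₀ a0.ne' ?_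
    norm_num at this
    linarith
  refine ⟨hs, C.pos_of_eqn ((C.sol1_iff l a u u).1 hs) al.2.le a0.le le_rfl h0 (C.CritC_ne hP),
    fun z hz e => ?_⟩
  have k := hm z
  refine le_of_mul_le_mul_right ?_ (C.q_pos al.1 hz)
  rw [hq, ← sq, e] at *
  linarith

theorem Nrm.low (h : C.Nrm l a W) {u : H} (hu : C.P u = 1) : a ≤ C.q l u := by
  have := h.min u
  rw [hu, mul_one] at this
  exact (abs_le_of_sq_le_sq' this (C.q_nonneg h.adm.1.le u)).2

theorem Nrm.sol (h : C.Nrm l a W) (ψ : H) : C.B l W ψ = a * C.T W W W ψ := h.least.1 ψ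

theorem Nrm.qr (h : C.Nrm l a W) {d : H} (d0 : C.T W W W d = 0) (r : ℝ) :
    C.q l (W + r • d) = a + r ^ 2 * C.q l d := by
  rw [q_add, B_smul2, h.sol, d0, q_smul, h.q1]
  ring

theorem Nrm.second (h : C.Nrm l a W) {d : H} (d0 : C.T W W W d = 0) :
    3 * a * C.T W W d d ≤ C.q l d := by
  have c1 : Continuous fun r : ℝ => a ^ 2 * (6 * C.T W W d d + 4 * r * C.T W d d d +
      r ^ 2 * C.T d d d d) - (2 * a * C.q l d + r ^ 2 * C.q l d ^ 2) := by fun_prop
  have k := le_of_tendsto (b := 0) ((c1.tendsto 0).mono_left (nhdsWithin_le_nhds (s := Set.Ioi 0)))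
    (by
      filter_upwards [self_mem_nhdsWithin] with r (hr : 0 < r)
      have k := h.min (W + r • d)
      rw [Far_P, h.qr d0, h.P1, d0] at k
      refine le_of_mul_le_mul_left ?_ (pow_pos hr 2)
      linarith)
  refine le_of_mul_le_mul_left ?_ h.a0
  linarith

theorem Nrm.kernel (h : C.Nrm l a W) {e : H} (e0 : C.T W W W e = 0)
    (he : C.q l e ≤ 3 * a * C.T W W e e) (ψ : H) : C.B l e ψ = 3 * a * C.T W W e ψ := by
  have TW : C.T W W W W = 1 := h.P1
  obtain ⟨χ, hχ⟩ : ∃ χ, χ = ψ - C.T W W W ψ • W := ⟨_, rfl⟩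
  have χ0 : C.T W W W χ = 0 := by rw [hχ, T_sub4, T_smul4, TW, mul_one, sub_self]
  have k1 : C.B l e χ - 3 * a * C.T W W e χ = 0 := by
    have d := (C.hasDerivAt_q l e χ).sub ((C.hasDerivAt_R2 W e χ).const_mul (3 * a))
    have hmin : IsLocalMin
        (fun ε : ℝ => C.q l (e + ε • χ) - 3 * a * C.R W (e + ε • χ)) 0 := by
      refine Eventually.of_forall fun ε => ?_
      have := h.second (d := e + ε • χ) (by rw [T_add4, T_smul4, e0, χ0, mul_zero, add_zero])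
      simp only [zero_smul, add_zero, R]
      linarith
    have := hmin.hasDerivAt_eq_zero d
    linarith
  rw [hχ, B_sub2, B_smul2, T_sub4, T_smul4, C.B_comm l e W, h.sol, C.T_swap34 W W e W, e0] at k1
  linarith

theorem Diag_norm' (al : C.Adm l) {m : ℝ} (hm : 0 < m) {ω : H} (hω : C.Least l m ω) :
    ∃ a W, C.Nrm l a W ∧ C.q l ω * m = a ^ 2 ∧ ∀ v, C.R ω v * m = C.R W v * a := by
  obtain ⟨W, a, a0, pW, W0, eW, qW, qω, Rω⟩ := C.Far_least hm hω
  have hm : ∀ z, a ^ 2 * C.P z ≤ C.q l z ^ 2 := fun z => by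
    have := C.least_quot al.1 hm hω z
    rwa [← mul_assoc, qω] at this
  obtain ⟨φ, σ, -, -, p0, q0, -, -, σS⟩ := C.exists_phi al al
  have k := hm φ
  rw [p0, mul_one] at k
  exact ⟨a, W, ⟨al, a0, ((abs_le_of_sq_le_sq' k (C.q_nonneg al.1.le φ)).2.trans q0).trans_lt σS,
    pW, qW, Diag_of_min al a0 hm (PosL.nonneg W0) pW qW, hm⟩, qω, Rω⟩

variable [CompleteSpace H] [TopologicalSpace.SeparableSpace H]

theorem Nrm.close (Pz : C.Polar ι) (h : C.Nrm l a W) {η : ℝ} (hη : 0 < η) :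
    ∃ θ : ℝ, 0 < θ ∧ ∀ u, 0 ≤ C.val u → C.P u = 1 → C.q l u ≤ a + θ → ‖u - W‖ ≤ η := by
  by_contra hn
  push Not at hn
  choose u u0 pu qu nu using fun n : ℕ => hn (1 / ((n : ℝ) + 1)) Nat.one_div_pos_of_nat
  have κ0 : 0 < (C.Λ + l) / C.Λ := div_pos (by linarith [h.adm.1]) C.Lam_pos
  have bd : ∀ n, ‖u n‖ ≤ √((a + 1) / ((C.Λ + l) / C.Λ)) := fun n => by
    refine Real.le_sqrt_of_sq_le ?_
    rw [le_div_iff₀' κ0]
    have : 1 / ((n : ℝ) + 1) ≤ 1 := Nat.one_div_le_one_div (Nat.zero_le n) |>.trans (by simp)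
    linarith [C.q_lower h.adm.2.le (u n), qu n]
  obtain ⟨φ, z, -, r, s, a', b', P', Q', R', hφ, e, -, hr⟩ := C.decomp u u _ bd bd
  have k1 : C.P z + P' = 1 :=
    tendsto_nhds_unique (hr.pa z) (by simpa only [← e, pu] using tendsto_const_nhds)
  have k2 : C.q l z + a' ≤ a := by
    have t := (tendsto_one_div_add_atTop_nhds_zero_nat.comp hφ.tendsto_atTop).const_add a
    rw [add_zero] at t
    exact le_of_tendsto_of_tendsto' (hr.qa l z) t fun n => by rw [← e]; exact qu (φ n)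
  have p0 := C.P_nonneg z
  have k3 : a * √(C.P z) ≤ C.q l z := by
    refine (abs_le_of_sq_le_sq' ?_ (C.q_nonneg h.adm.1.le z)).2
    rw [mul_pow, Real.sq_sqrt p0]
    exact h.min z
  have k4 : C.S * √P' ≤ a' := by
    refine (abs_le_of_sq_le_sq' ?_ hr.a0).2
    rw [mul_pow, Real.sq_sqrt hr.P0]
    exact hr.sa
  have k5 := Upper_le_sqrt p0 (by linarith [hr.P0])
  have k6 := Upper_le_sqrt hr.P0 (by linarith)
  have k7 : √P' = 0 := by
    refine le_antisymm (le_of_mul_le_mul_left ?_ (sub_pos.2 h.aS)) (Real.sqrt_nonneg _)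
    have := mul_le_mul_of_nonneg_left (show 1 ≤ √(C.P z) + √P' by linarith) h.a0.le
    linarith
  have pz : C.P z = 1 := by linarith [hr.P0]
  have qz := h.low pz
  have a0 : a' = 0 := le_antisymm (by linarith) hr.a0
  have t1 : Tendsto r atTop (𝓝 0) := by
    have t := (hr.qa l 0).div_const ((C.Λ + l) / C.Λ)
    simp only [zero_add, q_zero, a0, zero_div] at t
    have t' := t.sqrt
    rw [Real.sqrt_zero] at t'
    refine tendsto_zero_iff_norm_tendsto_zero.2 (squeeze_zero (fun n => norm_nonneg _)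
      (fun n => Real.le_sqrt_of_sq_le ?_) t')
    rw [le_div_iff₀' κ0]
    exact C.q_lower h.adm.2.le (r n)
  have t2 : Tendsto (fun n => u (φ n)) atTop (𝓝 z) := by
    simpa only [e, add_zero] using t1.const_add z
  have z0 : 0 ≤ C.val z := ge_of_tendsto' ((C.val.continuous.tendsto z).comp t2) fun n => u0 _
  have lz := Diag_of_min h.adm h.a0 h.min z0 pz (by linarith [hr.a0])
  obtain rfl : z = W := Pz.uniq l a z W h.adm h.a0 lz.1 lz.2.1 (Pz.least_fix h.adm h.a0 lz)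
    h.least.1 h.least.2.1 (Pz.least_fix h.adm h.a0 h.least)
  have t3 := (t2.sub_const z).norm
  rw [sub_self, norm_zero] at t3
  exact hη.not_ge (ge_of_tendsto' t3 fun n => (nu _).le)

theorem Nrm.coer (Pz : C.Polar2 ι) (h : C.Nrm l a W) : ∃ c : ℝ, 0 < c ∧ ∀ d ∈ Pz.V,
    C.T W W W d = 0 → c * ‖d‖ ^ 2 ≤ C.q l d - 3 * a * C.T W W d d := by
  by_contra hn
  push Not at hn
  have ex : ∀ n : ℕ, ∃ e ∈ Pz.V, C.T W W W e = 0 ∧ ‖e‖ = 1 ∧
      C.q l e - 3 * a * C.T W W e e ≤ 1 / ((n : ℝ) + 1) := fun n => by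
    obtain ⟨d, d1, d2, d3⟩ := hn (1 / ((n : ℝ) + 1)) Nat.one_div_pos_of_nat
    have d4 : ‖d‖ ≠ 0 := fun e => by
      rw [e] at d3
      linarith [h.second d2]
    refine ⟨‖d‖⁻¹ • d, Pz.V.smul_mem _ d1, by rw [T_smul4, d2, mul_zero],
      by rw [norm_smul, norm_inv, norm_norm, inv_mul_cancel₀ d4], ?_⟩
    rw [q_smul, T_smul3, T_smul4]
    refine le_of_mul_le_mul_right ?_ (show 0 < ‖d‖ ^ 2 by positivity)
    refine le_trans (le_of_eq ?_) d3.le
    field_simp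
  choose e e1 e2 e3 e4 using ex
  obtain ⟨φ, z, hφ, wz⟩ := weak_subseq e 1 fun n => (e3 n).le
  have nz : ‖z‖ ≤ 1 := le_norm_of_weak (fun n => (e3 (φ n)).le) wz
  have hr := C.wnull (fun n => e (φ n) - z)
    ⟨2, fun n => (norm_sub_le _ _).trans (by linarith [e3 (φ n)])⟩ wz
  have zV : z ∈ Pz.V := by
    have := Pz.closed.completeSpace_coe
    rw [← Pz.V.orthogonal_orthogonal, Submodule.mem_orthogonal]
    intro y hy
    have t := wz y
    simp only [inner_sub_left, Submodule.inner_right_of_mem_orthogonal (e1 _) hy, zero_sub] at t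
    rw [real_inner_comm, ← neg_eq_zero]
    exact tendsto_nhds_unique tendsto_const_nhds t
  have z0 : C.T W W W z = 0 := by
    have t := T4_mixed1 hr (C.val W) (C.val W) (C.val W)
    have e : ∀ n, T4 (C.val (e (φ n) - z)) (C.val W) (C.val W) (C.val W) = -C.T W W W z := fun n => by
      change C.T (e (φ n) - z) W W W = _
      rw [C.T_swap14, T_sub4, e2, zero_sub]
    simp only [e] at t
    rw [← neg_eq_zero]
    exact tendsto_nhds_unique tendsto_const_nhds t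
  have t1 := C.Weak_ma hr z
  have t2 : Tendsto (fun n => C.T W W (e (φ n)) (e (φ n))) atTop (𝓝 (C.T W W z z)) := by
    have t := (((T4_mixed1 hr (C.val z) (C.val W) (C.val W)).const_mul 2).add
      (hr.2 (C.val W))).const_add (C.T W W z z)
    rw [mul_zero, add_zero, add_zero] at t
    refine t.congr fun n => ?_
    change _ + (2 * C.T (e (φ n) - z) z W W + C.T (e (φ n) - z) (e (φ n) - z) W W) = _
    simp only [T_sub1, T_sub2]
    rw [C.T_pairs W W z z, C.T_pairs W W (e (φ n)), C.T_swap12 z (e (φ n))]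
    ring
  simp only [add_sub_cancel] at t1
  have t3 := ((t1.const_mul l).const_add 1).sub (t2.const_mul (3 * a))
  have k1 : 1 + l * C.M z z - 3 * a * C.T W W z z ≤ 0 :=
    le_of_tendsto_of_tendsto' t3
      (tendsto_one_div_add_atTop_nhds_zero_nat.comp hφ.tendsto_atTop) fun n => by
        have := e4 (φ n)
        rw [q, e3, one_pow] at this
        exact this
  have k2 : ‖z‖ ^ 2 ≤ 1 := pow_le_one₀ (norm_nonneg _) nz
  have k3 : C.q l z = ‖z‖ ^ 2 + l * C.M z z := rfl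
  have k4 := Pz.nondeg l a W z h.adm h.a0 h.least.1 h.least.2.1
    (Pz.toPolar.least_fix h.adm h.a0 h.least) zV (h.kernel z0 (by linarith))
  have k5 := h.second z0
  rw [k4, norm_zero] at k3
  rw [k4] at k1 k5
  linarith

omit [CompleteSpace H] [TopologicalSpace.SeparableSpace H] in
theorem Nrm.transfer (Pz : C.Polar2 ι) (h : C.Nrm l a W) (h1 : C.Nrm l1 a1 W1) {c σ e : ℝ}
    (hc0 : 0 < c) (hc : ∀ d ∈ Pz.V, C.T W W W d = 0 →
      c * ‖d‖ ^ 2 ≤ C.q l d - 3 * a * C.T W W d d) (σ0 : 0 ≤ σ) (hσ : ∀ u, ‖C.val u‖ ≤ σ * ‖u‖)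
    (e1 : e ≤ 1) (hl : |l1 - l| ≤ e) (ha : |a1 - a| ≤ e) (hW : ‖W1 - W‖ ≤ e)
    (he : e * (9 * σ ^ 4 * (c * ‖W‖ ^ 2 + 2 * a) + 1 / C.Λ + 3 * σ ^ 2 + 6 * a * σ ^ 3) ≤ c / 4)
    {d : H} (hd : d ∈ Pz.V) (d0 : C.T W1 W1 W1 d = 0) :
    c / 4 * ‖d‖ ^ 2 ≤ C.q l1 d - 3 * a1 * C.T W1 W1 d d := by
  have hL := C.Lam_pos
  have a0 := h.a0
  have e0 : 0 ≤ e := (abs_nonneg _).trans hl
  have TW : C.T W W W W = 1 := h.P1
  have WV : W ∈ Pz.V :=
    Pz.mem W (PosL.nonneg h.least.2.1) (Pz.toPolar.least_fix h.adm h.a0 h.least)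
  obtain ⟨τ, hτ⟩ : ∃ τ, τ = C.T W W W d := ⟨_, rfl⟩
  obtain ⟨χ, hχ⟩ : ∃ χ, χ = d - τ • W := ⟨_, rfl⟩
  have χ0 : C.T W W W χ = 0 := by rw [hχ, T_sub4, T_smul4, TW, mul_one, hτ, sub_self]
  have ed : d = χ + τ • W := by rw [hχ, sub_add_cancel]
  have k1 := hc χ (hχ ▸ Pz.V.sub_mem hd (Pz.V.smul_mem τ WV)) χ0
  have k2 : C.q l d = C.q l χ + τ ^ 2 * a := by
    rw [ed, q_add, B_smul2, B_comm, h.sol, χ0, q_smul, h.q1]
    ring
  have k3 : C.T W W d d = C.T W W χ χ + τ ^ 2 := by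
    rw [ed]
    simp only [T_add3, T_add4, T_smul3, T_smul4]
    rw [C.T_swap34 W W χ W, χ0, TW]
    ring
  have k4 : ‖d‖ ^ 2 ≤ 2 * ‖χ‖ ^ 2 + 2 * (τ ^ 2 * ‖W‖ ^ 2) := by
    have i1 : ‖d‖ ≤ ‖χ‖ + |τ| * ‖W‖ := by
      rw [ed, ← Real.norm_eq_abs, ← norm_smul]
      exact norm_add_le _ _
    have i2 := pow_le_pow_left₀ (norm_nonneg _) i1 2
    rw [← sq_abs τ]
    linarith [sq_nonneg (‖χ‖ - |τ| * ‖W‖)]
  have n0 := C.CritA_one h.P1
  have n1 := C.CritA_one h1.P1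
  have ζ : ‖C.val W1 - C.val W‖ ≤ σ * e := by
    rw [← map_sub]
    exact (hσ _).trans (mul_le_mul_of_nonneg_left hW σ0)
  have δ := hσ d
  have δ0 := norm_nonneg (C.val d)
  have k5 : |τ| ≤ 3 * (σ * e * (σ * ‖d‖)) := by
    have i1 := T4_tele (C.val W1) (C.val W1) (C.val W1) (C.val d) (C.val W) (C.val W) (C.val W)
      (C.val d)
    rw [n0, n1, sub_self, norm_zero] at i1
    have i2 := mul_le_mul ζ δ δ0 (by positivity)
    have i3 : T4 (C.val W1) (C.val W1) (C.val W1) (C.val d) -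
        T4 (C.val W) (C.val W) (C.val W) (C.val d) = -τ := by
      rw [hτ, ← zero_sub, ← d0]
      rfl
    rw [i3, abs_neg] at i1
    linarith
  have k6 : τ ^ 2 ≤ e * (9 * σ ^ 4) * ‖d‖ ^ 2 := by
    have i1 := pow_le_pow_left₀ (abs_nonneg _) k5 2
    have i2 : e * (e * (9 * σ ^ 4) * ‖d‖ ^ 2) ≤ e * (9 * σ ^ 4) * ‖d‖ ^ 2 :=
      mul_le_of_le_one_left (by positivity) e1
    rw [sq_abs] at i1
    linarith
  have k7 : C.q l d - e * (1 / C.Λ) * ‖d‖ ^ 2 ≤ C.q l1 d := by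
    have i1 := C.q_sub_q l l1 d
    have i2 := mul_le_mul_of_nonneg_right (abs_le.1 hl).1 (C.M_nonneg d)
    have i3 : C.M d d ≤ 1 / C.Λ * ‖d‖ ^ 2 := by
      rw [one_div, ← div_eq_inv_mul, le_div_iff₀' hL]
      exact C.poin' d
    have i4 := mul_le_mul_of_nonneg_left i3 e0
    linarith
  have δ2 : ‖C.val d‖ * ‖C.val d‖ ≤ σ ^ 2 * ‖d‖ ^ 2 :=
    (mul_le_mul δ δ δ0 (by positivity)).trans_eq (by ring)
  have k8 : C.T W1 W1 d d ≤ C.T W W d d + 2 * (σ * e * (σ ^ 2 * ‖d‖ ^ 2)) := by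
    have i1 := (abs_le.1 (T4_tele (C.val W1) (C.val W1) (C.val d) (C.val d) (C.val W) (C.val W)
      (C.val d) (C.val d))).2
    rw [n0, n1, sub_self, norm_zero] at i1
    have i2 := mul_le_mul ζ δ2 (by positivity) (by positivity)
    simp only [T]
    linarith
  have k9 : C.T W1 W1 d d ≤ σ ^ 2 * ‖d‖ ^ 2 := by
    have i1 := (abs_le.1 (C.T_abs_le W1 W1 d d)).2
    rw [n1] at i1
    linarith
  have j1 := mul_le_mul (abs_le.1 ha).2 k9 (C.R_nonneg W1 d) e0
  have j2 := mul_le_mul_of_nonneg_left k8 a0.le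
  have j3 := mul_le_mul_of_nonneg_left k6 (show 0 ≤ c * ‖W‖ ^ 2 + 2 * a by positivity)
  have j4 := mul_le_mul_of_nonneg_left k4 hc0.le
  have j5 := mul_le_mul_of_nonneg_right he (sq_nonneg ‖d‖)
  have j6 : a * C.T W W d d = a * C.T W W χ χ + a * τ ^ 2 := by rw [k3]; ring
  linarith

end Ctx
end CritSys
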