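import Pool.Agent.Work.MP_80ee1d_an.X.DiagA

/-!
The deformation argument when both components are close to the same nondegenerate minimiser.
-/

open MeasureTheory Filter Topology
open scoped RealInnerProductSpace

noncomputable section
namespace CritSys

theorem Diag_I1 {a c D T2 T3 T4 δ N σ e r Pr P1 : ℝ} (a0 : 0 < a) (r0 : 0 ≤ r) (r1 : r ≤ 1)
    (D0 : 0 ≤ D) (DN : D ≤ N ^ 2) (T20 : 0 ≤ T2) (h2 : T2 ≤ δ ^ 2) (h3 : T3 ≤ δ ^ 3)
    (h4 : T4 ≤ δ ^ 4) (δ0 : 0 ≤ δ) (σ0 : 0 ≤ σ) (N0 : 0 ≤ N) (δN : δ ≤ σ * N) (Ne : N ≤ e)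
    (e1 : e ≤ 1) (σe : σ * e ≤ 1) (co : c * N ^ 2 ≤ D - 3 * a * T2)
    (s1 : e * (6 * σ ^ 2 + 16 * (a + 1) * σ ^ 3) ≤ c) (Pr1 : 1 ≤ Pr)
    (eP : P1 - Pr = 6 * (1 - r ^ 2) * T2 + 4 * (1 - r ^ 3) * T3 + (1 - r ^ 4) * T4) :
    a * (c * ((1 - r) * N ^ 2)) ≤ (a + D) ^ 2 * Pr - (a + r ^ 2 * D) ^ 2 * P1 := by
  have e0 : 0 ≤ e := N0.trans Ne
  have ρ0 : 0 ≤ 1 - r := by linarith
  have δe : δ ≤ σ * e := δN.trans (mul_le_mul_of_nonneg_left Ne σ0)
  have δ1 : δ ≤ 1 := δe.trans σe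
  have r2 : r ^ 2 ≤ 1 := pow_le_one₀ r0 r1
  have r3 : r ^ 3 ≤ 1 := pow_le_one₀ r0 r1
  have rr : 1 - r ≤ 1 - r ^ 2 := by
    have := mul_le_of_le_one_right r0 r1
    linarith
  have N1 : N ^ 2 ≤ 1 := pow_le_one₀ N0 (Ne.trans e1)
  obtain ⟨A, hA⟩ : ∃ A, A = a + r ^ 2 * D := ⟨_, rfl⟩
  have rD : r ^ 2 * D ≤ D := mul_le_of_le_one_left D0 r2
  have A0 : a ≤ A := by rw [hA]; linarith [mul_nonneg (sq_nonneg r) D0]
  have A1 : A ≤ a + 1 := by linarith
  have b3 : (1 - r ^ 3) * T3 ≤ 3 * ((1 - r) * δ ^ 3) := by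
    have i1 := mul_le_mul_of_nonneg_left h3 (sub_nonneg.2 r3)
    have i2 : 0 ≤ (1 - r) * δ ^ 3 * (2 - r - r ^ 2) :=
      mul_nonneg (by positivity) (by linarith)
    linarith
  have b4 : (1 - r ^ 4) * T4 ≤ 4 * ((1 - r) * δ ^ 3) := by
    have i0 : δ ^ 4 ≤ δ ^ 3 := pow_le_pow_of_le_one δ0 δ1 (by norm_num)
    have i1 := mul_le_mul_of_nonneg_left (h4.trans i0) (sub_nonneg.2 (pow_le_one₀ (n := 4) r0 r1))
    have i2 : 0 ≤ (1 - r) * δ ^ 3 * (3 - r - r ^ 2 - r ^ 3) :=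
      mul_nonneg (by positivity) (by linarith)
    linarith
  have c1 : δ ^ 2 ≤ e * σ ^ 2 := by
    have i1 := pow_le_pow_left₀ δ0 δe 2
    have i2 : e * (e * σ ^ 2) ≤ e * σ ^ 2 := mul_le_of_le_one_left (by positivity) e1
    linarith
  have c2 : δ ^ 3 ≤ e * σ ^ 3 * N ^ 2 := by
    have i1 := mul_le_mul δe (pow_le_pow_left₀ δ0 δN 2) (by positivity) (by positivity)
    linarith
  have c3 : (c - 3 * (e * σ ^ 2)) * N ^ 2 ≤ D - 3 * A * T2 := by
    have i1 := mul_le_mul (rD.trans DN) (h2.trans c1) T20 (by positivity)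
    rw [hA]
    linarith
  have c4 : 0 ≤ c - 3 * (e * σ ^ 2) := by
    have i1 : 0 ≤ e * (3 * σ ^ 2 + 16 * (a + 1) * σ ^ 3) := by positivity
    linarith
  have c5 := mul_le_mul rr c3 (by positivity) (by linarith)
  have c6 := mul_le_mul A1 (mul_le_mul_of_nonneg_left c2 ρ0) (by positivity) (by positivity)
  have c7 := mul_le_mul_of_nonneg_right s1 (show 0 ≤ (1 - r) * N ^ 2 by positivity)
  have c8 : c * ((1 - r) * N ^ 2) ≤ 2 * ((1 - r ^ 2) * D) - A * (P1 - Pr) := by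
    have i1 := mul_le_mul_of_nonneg_left b3 (show 0 ≤ A by linarith)
    have i2 := mul_le_mul_of_nonneg_left b4 (show 0 ≤ A by linarith)
    rw [eP]
    linarith
  have c0 : 0 ≤ c := by
    have : 0 ≤ e * σ ^ 2 := by positivity
    linarith
  have c9 := mul_le_mul A0 c8 (by positivity) (by linarith)
  have p0 : 0 ≤ (1 - r ^ 2) * D := mul_nonneg (by linarith) D0
  have d1 : 0 ≤ ((1 - r ^ 2) * D) ^ 2 * Pr := by positivity
  have d2 : 0 ≤ A * ((1 - r ^ 2) * D) * (Pr - 1) :=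
    mul_nonneg (mul_nonneg (by linarith) p0) (by linarith)
  have d3 : a + D = A + (1 - r ^ 2) * D := by rw [hA]; ring
  rw [d3, ← hA]
  linarith

theorem Diag_real {m1 m2 A v s t c β x y θ : ℝ} (h2 : 0 < m2) (hm : m2 < m1) (A0 : 0 < A)
    (v0 : 0 ≤ v) (s0 : 0 < s) (t0 : 0 < t) (c0 : 0 ≤ c) (cβ : c ≤ β)
    (hx : x = m1 * s + c * t) (hy : y = c * s + m2 * t)
    (hL : (s * x + t * y) * m1 ≤ ((1 + v) * A) ^ 2) (Ay : A ≤ y) (hβ : β ≤ m1 * (1 + v))
    (hv : v * (6 * m1) ≤ m1 - m2) (θ0 : 0 < θ)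
    (hθ : v * (15 * m1 * A ^ 2) ≤ m2 * (m1 * (m1 - m2) / 2) * θ ^ 2) :
    y ≤ (1 + 3 * v) * A ∧ x ≤ (1 + v) * A + 2 * m1 * θ ∧
      m1 * (m1 - m2) / 2 ≤ c ^ 2 - m1 * m2 := by
  have h1 : 0 < m1 := h2.trans hm
  have v1 : v ≤ 1 := by
    refine le_of_mul_le_mul_right ?_ h1
    linarith [mul_nonneg v0 h1.le]
  have vv : (1 + v) ^ 2 ≤ 1 + 3 * v := by
    have := mul_le_of_le_one_right v0 v1
    linarith
  obtain ⟨L, eL⟩ : ∃ L, L = m1 * s ^ 2 + 2 * (c * s * t) + m2 * t ^ 2 := ⟨_, rfl⟩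
  have eL' : s * x + t * y = L := by rw [hx, hy, eL]; ring
  rw [eL'] at hL
  have A2 := pow_le_pow_left₀ A0.le Ay 2
  have up : m1 * m2 ≤ c ^ 2 := by
    by_contra hn
    have i1 : L * m2 - y ^ 2 = s ^ 2 * (m1 * m2 - c ^ 2) := by rw [eL, hy]; ring
    have i2 := mul_nonneg (sq_nonneg s) (sub_nonneg.2 (not_le.1 hn).le)
    have i3 := mul_le_mul_of_nonneg_left (show A ^ 2 ≤ L * m2 by linarith) h1.le
    have i4 := mul_le_mul_of_nonneg_left hL h2.le
    have i5 := mul_le_mul_of_nonneg_left vv (show 0 ≤ m2 * A ^ 2 by positivity)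
    have i6 : m1 ≤ m2 * (1 + 3 * v) :=
      le_of_mul_le_mul_right (by linarith) (pow_pos A0 2)
    have i7 := mul_le_mul_of_nonneg_left hm.le v0
    linarith
  have id1 : c ^ 2 * L - m1 * y ^ 2 = (2 * (c * s * t) + m2 * t ^ 2) * (c ^ 2 - m1 * m2) := by
    rw [eL, hy]; ring
  have p1 : 0 ≤ c * s * t := by positivity
  have p2 : 0 ≤ m2 * t ^ 2 := by positivity
  have j1 := mul_nonneg (show 0 ≤ 2 * (c * s * t) + m2 * t ^ 2 by positivity) (sub_nonneg.2 up)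
  have j2 := mul_le_mul_of_nonneg_left hL (sq_nonneg c)
  have j3 : m1 * y ≤ c * ((1 + v) * A) := by
    refine (abs_le_of_sq_le_sq' ?_ (by positivity)).2
    have := mul_le_mul_of_nonneg_left (show m1 * y ^ 2 ≤ c ^ 2 * L by linarith) h1.le
    linarith
  have cm : c ≤ m1 * (1 + v) := cβ.trans hβ
  have j4 : y ≤ (1 + 3 * v) * A := by
    refine le_of_mul_le_mul_left ?_ h1
    have i1 := mul_le_mul_of_nonneg_right cm (show 0 ≤ (1 + v) * A by positivity)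
    have i2 := mul_le_mul_of_nonneg_left vv (show 0 ≤ m1 * A by positivity)
    linarith
  have j5 : m1 ≤ c * (1 + v) := by
    refine le_of_mul_le_mul_right ?_ A0
    linarith [mul_le_mul_of_nonneg_left Ay h1.le]
  have j6 : m1 * (m1 - m2) / 2 ≤ c ^ 2 - m1 * m2 := by
    have i1 := pow_le_pow_left₀ h1.le j5 2
    have i2 := mul_le_mul_of_nonneg_left vv (sq_nonneg c)
    have i3 : m1 ^ 2 * (1 - 3 * v) ≤ c ^ 2 := by
      refine le_of_mul_le_mul_right ?_ (show 0 < 1 + 3 * v by positivity)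
      have : 0 ≤ m1 ^ 2 * v ^ 2 := by positivity
      linarith
    have i4 := mul_le_mul_of_nonneg_left hv h1.le
    linarith
  have Δ0 : 0 < m1 * (m1 - m2) / 2 := by
    have := sub_pos.2 hm
    positivity
  have j7 : t ≤ θ := by
    refine (abs_le_of_sq_le_sq' (le_of_mul_le_mul_left ?_ (mul_pos h2 Δ0)) θ0.le).2
    refine le_trans (le_of_mul_le_mul_left ?_ h1) hθ
    have i1 := mul_le_mul (show m2 * t ^ 2 ≤ 2 * (c * s * t) + m2 * t ^ 2 by linarith) j6 Δ0.le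
      (by positivity)
    have i2 := mul_le_mul_of_nonneg_left i1 h1.le
    have i3 := mul_le_mul_of_nonneg_right (pow_le_pow_left₀ c0 cm 2) (sq_nonneg ((1 + v) * A))
    have i4 := mul_le_mul_of_nonneg_left A2 (sq_nonneg m1)
    have i5 : ((1 + v) ^ 2) ^ 2 ≤ 1 + 15 * v := by
      have k1 := pow_le_pow_left₀ (sq_nonneg _) vv 2
      have k2 := mul_le_of_le_one_right v0 v1
      linarith
    have i6 := mul_le_mul_of_nonneg_left i5 (show 0 ≤ m1 ^ 2 * A ^ 2 by positivity)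
    rw [← id1] at i2
    linarith
  refine ⟨j4, ?_, j6⟩
  have k1 : m1 * s ≤ (1 + v) * A := by
    refine (abs_le_of_sq_le_sq' ?_ (by positivity)).2
    have := mul_le_mul_of_nonneg_left (show m1 * s ^ 2 ≤ L by linarith) h1.le
    linarith
  have k2 := mul_le_mul (show c ≤ 2 * m1 by linarith [mul_le_mul_of_nonneg_left v1 h1.le]) j7 t0.le
    (by positivity)
  linarith

namespace Ctx

variable {X : Type} [MeasurableSpace X] {H : Type} [NormedAddCommGroup H] [InnerProductSpace ℝ H]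
  {μ : Measure X} [IsFiniteMeasure μ] {C : Ctx H μ} {l a l1 l2 m1 m2 β : ℝ} {W : H}

theorem Diag_eq {z w : H} (z0 : C.Pos z) (w0 : C.Pos w) (pz : C.P z = 1) (pw : C.P w = 1)
    (h : C.R z w = 1) : z = w := by
  by_contra hn
  have p : C.Pos (z + w) := by
    unfold Pos PosL at *
    rw [map_add]
    filter_upwards [z0, w0, Lp.coeFn_add (C.val z) (C.val w)] with x k1 k2 k3
    rw [k3]
    exact add_pos k1 k2
  have k := C.R_pos p (sub_ne_zero.2 hn)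
  simp only [R, P, T_add1, T_add2, T_sub3, T_sub4] at k pz pw h
  rw [C.T_swap34 z z w z, C.T_swap24 z w z z, C.T_swap23 z w z w, C.T_swap24 z w w z,
    C.T_swap23 z z w w, C.T_swap14 w z z z, C.T_swap13 w z z w, C.T_swap14 w z w z,
    C.T_swap12 w z w w, C.T_pairs w w z z, C.T_swap13 w w z w, C.T_swap14 w w w z] at k
  rw [C.T_swap23 z w z w] at k
  linarith

theorem Diag_path (a2 : C.Adm l2) (h1 : 0 < m1) (h2 : 0 < m2) (hβ : 0 ≤ β) {z w d : H}
    {s t lam c σ e Δ : ℝ} (pz : C.P z = 1) (pw : C.P w = 1)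
    (hs : Sys m1 m2 β (C.q l1 z) (C.q l2 w) 1 1 (C.R z w) s t)
    (hc : C.LB l1 l2 m1 m2 β (s * C.q l1 z + t * C.q l2 w)) (h : C.Nrm l1 a W)
    (hb : β * C.R W w * a ≤ m1 * C.q l2 w) (l0 : 0 < lam) (e1 : W + (1 : ℝ) • d = lam • z)
    (d0 : C.T W W W d = 0) (co : c * ‖d‖ ^ 2 ≤ C.q l1 d - 3 * a * C.T W W d d)
    (σ0 : 0 ≤ σ) (hσ : ∀ u, ‖C.val u‖ ≤ σ * ‖u‖) (hd : ‖d‖ ≤ e) (hw : ‖w - W‖ ≤ e) (he : e ≤ 1)
    (σe : σ * e ≤ 1) (Δ0 : 0 < Δ) (hΔ : Δ ≤ (β * C.R z w) ^ 2 - m1 * m2)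
    (s1 : e * (6 * σ ^ 2 + 16 * (a + 1) * σ ^ 3) ≤ c)
    (s2 : 256 * (β * (e * (118 * σ ^ 2 * (a + 1) + 8))) ^ 2 < a * (c * Δ)) : False := by
  have a1 := h.adm
  have pW := h.P1
  have a0 := h.a0
  have nW := C.CritA_one pW
  have nw := C.CritA_one pw
  have q1 : lam ^ 2 * C.q l1 z = a + C.q l1 d := by
    rw [← q_smul, ← e1, h.qr d0]
    ring
  have P1 : C.P (W + (1 : ℝ) • d) = (lam ^ 2) ^ 2 := by rw [e1, P_smul, pz]; ring
  have R1 : C.R (W + (1 : ℝ) • d) w = lam ^ 2 * C.R z w := by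
    have := C.R_smul lam 1 z w
    rw [one_smul] at this
    rw [e1, this]
    ring
  have D0 := C.q_nonneg a1.1.le d
  have DN := C.q_le_norm a1.2.le d
  have N0 := norm_nonneg d
  have δN := hσ d
  have δ0 := norm_nonneg (C.val d)
  have δe : ‖C.val d‖ ≤ σ * e := δN.trans (mul_le_mul_of_nonneg_left hd σ0)
  have δ1 : ‖C.val d‖ ≤ 1 := δe.trans σe
  obtain ⟨s0, t0, hx', hy'⟩ := hs
  have g1 : β * C.R z w * C.q l1 z - m1 * C.q l2 w = t * ((β * C.R z w) ^ 2 - m1 * m2) := by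
    rw [hx', hy']
    ring
  have g0 : 0 < β * C.R z w * C.q l1 z - m1 * C.q l2 w := by
    rw [g1]
    exact mul_pos t0 (Δ0.trans_le hΔ)
  have hcont : Continuous fun r : ℝ => β * C.R (W + r • d) w * C.q l1 (W + r • d) -
      m1 * C.q l2 w * C.P (W + r • d) := by
    have c1 : Continuous fun r : ℝ => W + r • d := by fun_prop
    exact (((C.continuous_R.comp (c1.prodMk continuous_const)).const_mul β).mul
      ((C.continuous_q l1).comp c1)).sub ((C.continuous_P.comp c1).const_mul _)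
  obtain ⟨r, ⟨r0, r1⟩, hr⟩ := intermediate_value_Ico zero_le_one hcont.continuousOn
    (show (0 : ℝ) ∈ Set.Ico _ _ from ⟨by
      simp only [zero_smul, add_zero]
      rw [h.q1, pW]
      linarith, by
      simp only [P1, R1, h.qr d0]
      have := mul_pos (show 0 < (lam ^ 2) ^ 2 by positivity) g0
      rw [one_pow, one_mul, ← q1]
      linarith⟩)
  simp only at hr
  have Pr := C.Far_Pone pW d0 r
  have Pr' := C.Far_Pone pW d0 1
  have Pd := (abs_le.1 (C.Far_Pdiff pW d0 δ1 r0 r1.le)).1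
  have nb : ∀ s : ℝ, 0 ≤ s → s ≤ 1 → ‖C.val (W + s • d)‖ ≤ 2 := fun s s0 s1 => by
    rw [map_add, map_smul]
    refine (norm_add_le _ _).trans ?_
    rw [nW, norm_smul, Real.norm_of_nonneg s0]
    have := mul_le_one₀ s1 (norm_nonneg _) δ1
    linarith
  have Pb : ∀ s : ℝ, 0 ≤ s → s ≤ 1 → C.P (W + s • d) ≤ 16 := fun s s0 s1 => by
    rw [P_eq]
    exact (pow_le_pow_left₀ (norm_nonneg _) (nb s s0 s1) 4).trans (by norm_num)
  have Rb : C.R (W + r • d) w ≤ 4 := by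
    have i1 := C.R_le (W + r • d) w
    have i2 := pow_le_pow_left₀ (norm_nonneg _) (nb r r0 r1.le) 2
    rw [nw] at i1
    linarith
  have ρ0 : 0 < 1 - r := by linarith
  have e0 : 0 ≤ e := N0.trans hd
  have rr : 1 - r ^ 2 ≤ 2 * (1 - r) := by linarith [sq_nonneg (1 - r)]
  have δδ : ‖C.val d‖ ^ 2 ≤ σ ^ 2 * (e * ‖d‖) :=
    (sq _).trans_le ((mul_le_mul δe δN δ0 (by positivity)).trans_eq (by ring))
  have Rd : C.R (W + (1 : ℝ) • d) w - C.R (W + r • d) w ≤ 6 * σ ^ 2 * ((1 - r) * (e * ‖d‖)) := by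
    have i0 : ∀ s : ℝ, C.R (W + s • d) w = C.R W w + 2 * (s * C.T w w W d) + s ^ 2 * C.R d w :=
      fun s => by
        have := C.R_smul s 1 d w
        rw [one_smul] at this
        rw [R_add, T_smul4, this]
        ring
    have i1 := (abs_le.1 (T4_tele (C.val w) (C.val w) (C.val W) (C.val d) (C.val W) (C.val W)
      (C.val W) (C.val d))).2
    rw [nW, nw, sub_self, sub_self, norm_zero, ← map_sub] at i1
    have i2 := mul_le_mul ((hσ _).trans (mul_le_mul_of_nonneg_left hw σ0)) δN δ0 (by positivity)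
    have i3 : C.T w w W d ≤ 2 * (σ ^ 2 * (e * ‖d‖)) := by
      simp only [T] at d0 ⊢
      linarith
    have i4 := C.R_le d w
    rw [nw] at i4
    have i5 := mul_le_mul rr (show C.R d w ≤ σ ^ 2 * (e * ‖d‖) by linarith) (C.R_nonneg d w)
      (by positivity)
    have i6 := mul_le_mul_of_nonneg_left i3 ρ0.le
    rw [i0, i0]
    linarith
  have U0 : W + r • d ≠ 0 := fun e => by
    rw [e, P_zero] at Pr
    linarith
  have se := C.Deg_semi a1 a2 h1 h2 hc U0 (C.CritC_ne pw) (by linarith)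
  have lv : (s * C.q l1 z + t * C.q l2 w) * m1 =
      C.q l1 z ^ 2 - t * (β * C.R z w * C.q l1 z - m1 * C.q l2 w) := by
    rw [hx', hy']
    ring
  have T2 := (abs_le.1 (C.T_abs_le W W d d)).2
  have T3 := (abs_le.1 (C.T_abs_le W d d d)).2
  have T4' := (abs_le.1 (C.T_abs_le d d d d)).2
  rw [nW] at T2 T3
  have I1 := Diag_I1 (Pr := C.P (W + r • d)) (P1 := C.P (W + (1 : ℝ) • d)) (T3 := C.T W d d d)
    (T4 := C.T d d d d) a0 r0 r1.le D0 DN (C.R_nonneg W d) (show C.T W W d d ≤ _ by linarith)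
    (by linarith) (by linarith) δ0 σ0 N0 δN hd he σe co s1 Pr (by
      rw [Far_P, Far_P, d0]
      simp only [R]
      ring)
  have P16 := Pb 1 zero_le_one le_rfl
  have P16' := Pb r r0 r1.le
  have R0 := C.R_nonneg (W + r • d) w
  rw [P1] at Pd I1 P16 Pr'
  rw [R1] at Rd
  rw [h.qr d0] at hr se
  rw [lv] at se
  generalize C.q l1 z = x at *
  generalize C.q l2 w = y at *
  generalize C.R z w = τ at *
  generalize C.q l1 d = D at *
  generalize ‖C.val d‖ = δ at *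
  generalize ‖d‖ = N at *
  generalize C.P (W + r • d) = Q at *
  generalize C.R (W + r • d) w = Rr at *
  generalize lam ^ 2 = Λ' at *
  obtain ⟨g, hg⟩ : ∃ g, g = β * τ * x - m1 * y := ⟨_, rfl⟩
  obtain ⟨u, hu⟩ : ∃ u, u = (1 - r) * (e * N) := ⟨_, rfl⟩
  have u0 : 0 ≤ u := by rw [hu]; positivity
  rw [← hg] at g0 g1 se
  rw [← hu] at Rd
  have N1 : N ^ 2 ≤ e * N := (sq N).trans_le (mul_le_mul_of_nonneg_right hd N0)
  have N2 : N ^ 2 ≤ 1 := pow_le_one₀ N0 (hd.trans he)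
  have rD : r ^ 2 * D ≤ D := mul_le_of_le_one_left D0 (pow_le_one₀ r0 r1.le)
  have rD0 : 0 ≤ r ^ 2 * D := by positivity
  have PQ : 1 ≤ Λ' ^ 2 * Q := one_le_mul_of_one_le_of_one_le Pr' Pr
  have G1 : g ≤ β * (u * (118 * σ ^ 2 * (a + 1) + 8)) := by
    refine le_of_mul_le_mul_right ?_ (show 0 < Λ' ^ 2 * Q by linarith)
    have i0 : g * (Λ' ^ 2 * Q) = β * (((Λ' * τ - Rr) * (a + D) + Rr * ((1 - r ^ 2) * D)) * Q +
        Rr * (a + r ^ 2 * D) * (Q - Λ' ^ 2)) := by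
      rw [hg]
      linear_combination (β * τ * Λ' * Q) * q1 + Λ' ^ 2 * hr
    have i1 : (Λ' * τ - Rr) * (a + D) ≤ 6 * σ ^ 2 * u * (a + 1) :=
      (mul_le_mul_of_nonneg_right Rd (by linarith)).trans
        (mul_le_mul_of_nonneg_left (by linarith) (by positivity))
    have i2 : Rr * ((1 - r ^ 2) * D) ≤ 4 * (2 * (1 - r) * (e * N)) :=
      mul_le_mul Rb (mul_le_mul rr (DN.trans N1) D0 (by positivity))
        (mul_nonneg (sub_nonneg.2 (pow_le_one₀ r0 r1.le)) D0) (by norm_num)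
    have i3 : Q - Λ' ^ 2 ≤ 28 * (σ ^ 2 * u) := by
      have := mul_le_mul_of_nonneg_left δδ ρ0.le
      rw [hu]
      linarith
    have i4 : Rr * (a + r ^ 2 * D) * (Q - Λ' ^ 2) ≤ 4 * (a + 1) * (28 * (σ ^ 2 * u)) :=
      (mul_le_mul_of_nonneg_left i3 (by positivity)).trans (mul_le_mul_of_nonneg_right
        (mul_le_mul Rb (by linarith) (by positivity) (by norm_num)) (by positivity))
    have i5 : ((Λ' * τ - Rr) * (a + D) + Rr * ((1 - r ^ 2) * D)) * Q ≤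
        (6 * σ ^ 2 * u * (a + 1) + 8 * u) * (Λ' ^ 2 * Q) :=
      (mul_le_mul_of_nonneg_right (show _ ≤ 6 * σ ^ 2 * u * (a + 1) + 8 * u by
        rw [hu] at i1 ⊢; linarith) (by linarith)).trans (mul_le_mul_of_nonneg_left
          (le_mul_of_one_le_left (by linarith) Pr') (by positivity))
    have i6 := le_mul_of_one_le_right (show 0 ≤ 4 * (a + 1) * (28 * (σ ^ 2 * u)) by positivity) PQ
    rw [i0, mul_assoc β]
    exact mul_le_mul_of_nonneg_left (by linarith) hβ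
  have G2 : a * (c * ((1 - r) * N ^ 2)) ≤ 256 * (t * g) := by
    have i1 := mul_le_mul_of_nonneg_left se (sq_nonneg Λ')
    have i2 : Λ' ^ 2 * Q ≤ 16 * 16 := mul_le_mul P16 P16' (by linarith) (by norm_num)
    have i3 := mul_le_mul_of_nonneg_left i2 (mul_pos t0 g0).le
    rw [← q1] at I1
    linarith
  have G3 : t * g * Δ ≤ g ^ 2 := by
    have := mul_le_mul_of_nonneg_left hΔ (mul_pos t0 g0).le
    rw [sq g]
    nth_rewrite 3 [g1]
    linarith
  have G4 := pow_le_pow_left₀ g0.le G1 2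
  have N3 : 0 < N := by
    refine N0.lt_of_ne fun e => ?_
    rw [hu, ← e] at G1
    linarith
  have G5 := mul_lt_mul_of_pos_right s2 (show 0 < (1 - r) * N ^ 2 by positivity)
  have G6 := mul_le_mul_of_nonneg_right G2 Δ0.le
  have G7 : (1 - r) * ((β * (e * (118 * σ ^ 2 * (a + 1) + 8))) ^ 2 * ((1 - r) * N ^ 2)) ≤
      (β * (e * (118 * σ ^ 2 * (a + 1) + 8))) ^ 2 * ((1 - r) * N ^ 2) :=
    mul_le_of_le_one_left (by positivity) (by linarith)
  rw [hu] at G4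
  linarith

end Ctx
end CritSys
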