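import Pool.Agent.Work.MP_80ee1d_an.X.DiagB

/-!
The set of couplings with a ground state on a ball when `l₁` and `l₂` are close to each other.
-/

open MeasureTheory Filter Topology
open scoped RealInnerProductSpace

noncomputable section
namespace CritSys
namespace Ctx

variable {X : Type} [MeasurableSpace X] {H : Type} [NormedAddCommGroup H] [InnerProductSpace ℝ H]
  {μ : Measure X} [IsFiniteMeasure μ] {C : Ctx H μ} {l a l1 l2 a1 a2 m1 m2 β : ℝ} {W W1 W2 : H}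
  {ι : Type}

theorem Diag_shift {ε : ℝ} (hl : |l1 - l| ≤ ε) {u : H} (hu : C.P u = 1) :
    C.q l1 u ≤ C.q l u + ε * ‖oneL μ‖ ^ 2 ∧ C.q l u ≤ C.q l1 u + ε * ‖oneL μ‖ ^ 2 := by
  have i1 := C.q_sub_q l l1 u
  have i2 := C.M_le u
  rw [C.CritA_one hu, one_pow, mul_one] at i2
  have i3 := mul_le_mul_of_nonneg_left i2 ((abs_nonneg _).trans hl)
  have i4 := mul_le_mul_of_nonneg_right (abs_le.1 hl).1 (C.M_nonneg u)
  have i5 := mul_le_mul_of_nonneg_right (abs_le.1 hl).2 (C.M_nonneg u)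
  constructor <;> linarith

theorem Diag_bh_up (b2 : C.Adm l2) (h1 : 0 < m1) {ω : H}
    (hω : C.Least l1 m1 ω) (Rω : ∀ v, C.R ω v * m1 = C.R W1 v * a1) (hb : β ≤ C.bh l1 m1 l2)
    (w : H) : β * C.R W1 w * a1 ≤ m1 * C.q l2 w := by
  have i1 := mul_le_mul_of_nonneg_right hb (C.R_nonneg ω w)
  have i2 := mul_le_mul_of_nonneg_left (i1.trans (C.bh_le b2 hω w)) h1.le
  calc _ = β * (C.R W1 w * a1) := by ring
    _ = m1 * (β * C.R ω w) := by rw [← Rω w]; ring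
    _ ≤ _ := i2

variable [CompleteSpace H] [TopologicalSpace.SeparableSpace H]

theorem Diag_bh_low (h : C.Nrm l1 a1 W1) (h' : C.Nrm l2 a2 W2) (h1 : 0 < m1) :
    m1 * a2 ≤ C.bh l1 m1 l2 * a1 := by
  rw [← div_le_iff₀ h.a0]
  by_contra hn
  obtain ⟨ω, v, hω, hv, k⟩ := C.exists_of_bh_lt h.adm h1 (not_le.1 hn)
  obtain ⟨a, W, n, -, Rω⟩ := Diag_norm' h.adm h1 hω
  obtain rfl : a = a1 :=
    le_antisymm ((n.low h.P1).trans_eq h.q1) ((h.low n.P1).trans_eq n.q1)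
  obtain ⟨u, s, s0, pu, qu, -, Ru⟩ := C.CritA_norm hv
  have i1 := C.R_le u W
  rw [C.CritA_one pu, C.CritA_one n.P1, one_pow, mul_one] at i1
  have i2 : m1 * a2 / a * C.R ω v = a2 * (s * C.R u W) := by
    rw [← Ru, C.R_comm v W, div_mul_eq_mul_div, div_eq_iff n.a0.ne']
    linear_combination a2 * Rω v
  rw [i2, qu] at k
  have i3 := mul_le_mul_of_nonneg_left (h'.low pu) s0.le
  have i4 := mul_le_mul_of_nonneg_left i1 (mul_pos h'.a0 s0).le
  linarith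

theorem Diag_max (b1 : C.Adm l1) (b2 : C.Adm l2) (h1 : 0 < m1) (h2 : 0 < m2) :
    m1 * m2 ≤ max (C.bh l1 m1 l2) (C.bh l2 m2 l1) ^ 2 := by
  obtain ⟨ω1, o1⟩ := C.least_exists b1 h1
  obtain ⟨ω2, o2⟩ := C.least_exists b2 h2
  obtain ⟨a1, W1, n1, -, -⟩ := Diag_norm' b1 h1 o1
  obtain ⟨a2, W2, n2, -, -⟩ := Diag_norm' b2 h2 o2
  have p1 := n1.a0
  have p2 := n2.a0
  have k := mul_le_mul (Diag_bh_low n1 n2 h1) (Diag_bh_low n2 n1 h2) (by positivity)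
    (mul_nonneg (C.bh_nonneg b2) p1.le)
  have k2 : m1 * m2 ≤ C.bh l1 m1 l2 * C.bh l2 m2 l1 :=
    le_of_mul_le_mul_right (by linarith) (mul_pos p1 p2)
  rw [sq]
  exact k2.trans (mul_le_mul (le_max_left _ _) (le_max_right _ _) (C.bh_nonneg b1)
    ((C.bh_nonneg b2).trans (le_max_left _ _)))

theorem Polar2.diag_top (Pz : C.Polar2 ι) (al : C.Adm l) (h2 : 0 < m2) (hm : m2 < m1) :
    ∀ᶠ ε in 𝓝[>] (0 : ℝ), ∀ l1 l2 β : ℝ, C.Adm l1 → C.Adm l2 → |l1 - l| ≤ ε → |l2 - l| ≤ ε →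
      0 ≤ β → m1 * m2 ≤ β ^ 2 → β ≤ C.bh l1 m1 l2 → ¬ C.GS l1 l2 m1 m2 β := by
  have h1 : 0 < m1 := h2.trans hm
  have hL := C.Lam_pos
  have m0 : 0 < m1 - m2 := sub_pos.2 hm
  obtain ⟨ω₀, o₀⟩ := C.least_exists al h1
  obtain ⟨a, W, n, -, -⟩ := Diag_norm' al h1 o₀
  have a0 := n.a0
  obtain ⟨c, c0, hc⟩ := n.coer Pz
  obtain ⟨σ, σ0, hσ⟩ : ∃ σ : ℝ, 0 ≤ σ ∧ ∀ u, ‖C.val u‖ ≤ σ * ‖u‖ :=
    ⟨‖C.val‖, norm_nonneg _, C.val.le_opNorm⟩
  obtain ⟨k, hk⟩ : ∃ k, k = ‖oneL μ‖ ^ 2 := ⟨_, rfl⟩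
  have k0 : 0 ≤ k := by rw [hk]; positivity
  obtain ⟨Δ, hΔ⟩ : ∃ Δ, Δ = m1 * (m1 - m2) / 2 := ⟨_, rfl⟩
  have Δ0 : 0 < Δ := by rw [hΔ]; positivity
  obtain ⟨J, hJ⟩ : ∃ J, J = 4 + 4 * σ * (‖W‖ + 1) := ⟨_, rfl⟩
  have J4 : 4 ≤ J := by rw [hJ]; exact le_add_of_nonneg_right (by positivity)
  have hp : ∀ᶠ κ in 𝓝[>] (0 : ℝ), 0 < κ := eventually_mem_nhdsWithin
  obtain ⟨e, e0, f1, f2, f3, f4, f5⟩ := (hp.and ((Far_small J one_pos).and
    ((Far_small (2 * σ * J) one_pos).and ((Far_small (9 * σ ^ 4 * (c * ‖W‖ ^ 2 + 2 * a) +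
      1 / C.Λ + 3 * σ ^ 2 + 6 * a * σ ^ 3) (show 0 < c / 4 by positivity)).and
    ((Far_small (J * (6 * σ ^ 2 + 16 * (a + 1 + 1) * σ ^ 3)) (show 0 < c / 4 by positivity)).and
      (Far_small (256 * (2 * m1 * (J * (118 * σ ^ 2 * (a + 1 + 1) + 8))) ^ 2)
        (show 0 < a / 2 * (c / 4 * Δ) / 2 by positivity))))))).exists
  have e1 : e ≤ 1 := by linarith [mul_le_mul_of_nonneg_left J4 e0.le]
  obtain ⟨θ, θ0, hθ⟩ := n.close Pz.toPolar e0
  filter_upwards [hp, Far_small 1 e0, Far_small k e0, Far_small (2 * k) a0,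
    Far_small (8 * k / a * (6 * m1)) m0,
    Far_small (8 * k / a * (15 * m1 * a ^ 2))
      (show 0 < m2 * (m1 * (m1 - m2) / 2) * (θ / (4 * m1)) ^ 2 by positivity),
    Far_small (25 * k) (show 0 < θ / 2 by positivity)] with ε ε0 g1 g2 g3 g4 g5 g6
  intro l1 l2 β b1 b2 j1 j2 β0 hβ hb hG
  obtain ⟨η, hη⟩ : ∃ η, η = ε * k := ⟨_, rfl⟩
  have η0 : 0 ≤ η := by rw [hη]; positivity
  have S1 : ∀ u, C.P u = 1 → C.q l1 u ≤ C.q l u + η ∧ C.q l u ≤ C.q l1 u + η := fun u hu => by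
    rw [hη, hk]
    exact Diag_shift j1 hu
  have S2 : ∀ u, C.P u = 1 → C.q l2 u ≤ C.q l u + η ∧ C.q l u ≤ C.q l2 u + η := fun u hu => by
    rw [hη, hk]
    exact Diag_shift j2 hu
  obtain ⟨v, hv⟩ : ∃ v, v = ε * (8 * k / a) := ⟨_, rfl⟩
  have v0 : 0 ≤ v := by rw [hv]; positivity
  have va : v * a = 8 * η := by rw [hv, hη]; field_simp
  have ηa : 2 * η ≤ a := by linarith
  have vA : a + 3 * η ≤ (1 + v) * (a - η) := by
    have := mul_le_mul_of_nonneg_left ηa v0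
    linarith
  have g4' : v * (6 * m1) ≤ m1 - m2 := by rw [hv]; linarith
  have v1 : v ≤ 1 := by
    refine le_of_mul_le_mul_right ?_ h1
    linarith [mul_nonneg v0 h1.le]
  obtain ⟨ω1, o1⟩ := C.least_exists b1 h1
  obtain ⟨ω2, o2⟩ := C.least_exists b2 h2
  obtain ⟨a1, W1, n1, -, R1⟩ := Diag_norm' b1 h1 o1
  obtain ⟨a2, W2, n2, -, -⟩ := Diag_norm' b2 h2 o2
  have u1 : a1 ≤ a + η := by linarith [n1.low n.P1, (S1 W n.P1).1, n.q1]
  have u2 : a2 ≤ a + η := by linarith [n2.low n.P1, (S2 W n.P1).1, n.q1]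
  have d1 : a - η ≤ a1 := by linarith [n.low n1.P1, (S1 W1 n1.P1).2, n1.q1]
  have d2 : a - η ≤ a2 := by linarith [n.low n2.P1, (S2 W2 n2.P1).2, n2.q1]
  have A0 : 0 < a - η := by linarith
  have up := Diag_bh_up b2 h1 o1 R1 hb
  have βm : β ≤ m1 * (1 + v) := by
    have i1 := up W1
    rw [R_self, n1.P1, mul_one] at i1
    have i2 : C.q l2 W1 ≤ (1 + v) * (a - η) := by
      linarith [(S2 W1 n1.P1).1, (S1 W1 n1.P1).2, n1.q1]
    refine le_of_mul_le_mul_right ?_ A0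
    linarith [mul_le_mul_of_nonneg_left i2 h1.le, mul_le_mul_of_nonneg_left d1 β0]
  have βp : 0 < β := β0.lt_of_ne fun e => by
    rw [← e] at hβ
    linarith [mul_pos h1 h2]
  obtain ⟨z, w, s, t, pz, pw, z0, w0, hs, lb, -, -⟩ := C.Deg_data hG
  obtain ⟨s0, t0, hx, hy⟩ := id hs
  rw [mul_one] at hx hy
  have τ1 : C.R z w ≤ 1 := by
    have := C.R_le z w
    rwa [C.CritA_one pz, C.CritA_one pw, one_pow, mul_one] at this
  have τ0 := C.R_nonneg z w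
  have cβ : β * C.R z w ≤ β := mul_le_of_le_one_right β0 τ1
  have ya := n2.low pw
  have qW2 : C.q l1 W2 ≤ a + 3 * η := by linarith [(S1 W2 n2.P1).1, (S2 W2 n2.P1).2, n2.q1]
  rcases le_total (β * C.q l1 W2) (m1 * a2) with hcase | hcase
  · have U := C.semi1 b1 b2 h1 h2 lb n2.P1 n2.P1 (x := m1 * a2 / β) (y := a2)
      (by rw [le_div_iff₀' βp]; exact hcase) n2.q1.le
      (by rw [R_self, n2.P1, mul_one, mul_div_cancel₀ _ βp.ne'])
    rw [div_pow, le_div_iff₀ (by positivity)] at U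
    have i1 := mul_le_mul_of_nonneg_left (pow_le_pow_left₀ n2.a0.le ya 2) (sq_nonneg m1)
    have i2 : β ^ 2 * (s * C.q l1 z + t * C.q l2 w) - m1 * C.q l2 w ^ 2 =
        m1 * s ^ 2 * (β ^ 2 - (β * C.R z w) ^ 2) +
          (2 * (β * C.R z w * s * t) + m2 * t ^ 2) * (β ^ 2 - m1 * m2) := by
      rw [hx, hy]
      ring
    have i3 : β ^ 2 * (s * C.q l1 z + t * C.q l2 w) - m1 * C.q l2 w ^ 2 ≤ 0 :=
      le_of_mul_le_mul_left (by linarith) h1
    have i4 := sub_nonneg.2 (pow_le_pow_left₀ (mul_nonneg β0 τ0) cβ 2)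
    have p1 : 0 < m1 * s ^ 2 := by positivity
    have p2 : 0 < 2 * (β * C.R z w * s * t) + m2 * t ^ 2 := by positivity
    have i5 := mul_nonneg p1.le i4
    have i6 := mul_nonneg p2.le (sub_nonneg.2 hβ)
    have i7 := (mul_eq_zero.1 (show m1 * s ^ 2 * (β ^ 2 - (β * C.R z w) ^ 2) = 0 by
      linarith)).resolve_left p1.ne'
    have i8 := (mul_eq_zero.1 (show (2 * (β * C.R z w * s * t) + m2 * t ^ 2) *
      (β ^ 2 - m1 * m2) = 0 by linarith)).resolve_left p2.ne'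
    have i9 : C.R z w = 1 := by
      have := (pow_left_inj₀ β0 (mul_nonneg β0 τ0) two_ne_zero).1 (sub_eq_zero.1 i7)
      exact mul_left_cancel₀ βp.ne' (by linarith)
    obtain rfl := Diag_eq z0 w0 pz pw i9
    have k1 : β * C.q l1 z = m1 * C.q l2 z := by
      rw [hx, hy, i9]
      linear_combination t * i8
    have k2 : C.q l1 z ≤ (1 + v) * C.q l2 z := by
      have i1 := mul_le_mul_of_nonneg_left (d2.trans ya) v0
      linarith [(S1 z pz).1, (S2 z pz).2]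
    have y0 : 0 < C.q l2 z := n2.a0.trans_le ya
    have k3 : m1 ≤ β * (1 + v) := by
      refine le_of_mul_le_mul_right ?_ y0
      linarith [mul_le_mul_of_nonneg_left k2 β0]
    have k4 := pow_le_pow_left₀ h1.le k3 2
    have k5 : (1 + v) ^ 2 ≤ 1 + 3 * v := by linarith [mul_le_of_le_one_right v0 v1]
    have k6 := mul_le_mul_of_nonneg_left k5 (mul_pos h1 h2).le
    have k7 : m1 ≤ m2 * (1 + 3 * v) := by
      refine le_of_mul_le_mul_left ?_ h1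
      rw [mul_pow, sub_eq_zero.1 i8] at k4
      linarith
    linarith [mul_le_mul_of_nonneg_left hm.le v0]
  have U := C.semi1 b1 b2 h1 h2 lb n2.P1 n2.P1 (x := C.q l1 W2) (y := a2) le_rfl n2.q1.le
    (by rw [R_self, n2.P1, mul_one]; exact hcase)
  obtain ⟨r1, r2, r3⟩ := Diag_real (A := a - η) (θ := θ / (4 * m1)) h2 hm A0 v0 s0 t0
    (mul_nonneg β0 τ0) cβ hx hy
    (U.trans (pow_le_pow_left₀ (C.q_nonneg b1.1.le W2) (qW2.trans vA) 2)) (d2.trans ya) βm g4'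
    (by positivity) (by
      refine le_trans ?_ g5
      rw [← mul_assoc ε, ← hv]
      gcongr
      linarith)
  have vη := mul_nonneg v0 η0
  have r4 : 2 * m1 * (θ / (4 * m1)) = θ / 2 := by field_simp; ring
  have η25 : 25 * η ≤ θ / 2 := by linarith
  have cz := hθ z (PosL.nonneg z0) pz (by linarith [(S1 z pz).2])
  have cw := hθ w (PosL.nonneg w0) pw (by linarith [(S2 w pw).2])
  have cW := hθ W1 (PosL.nonneg n1.least.2.1) n1.P1 (by linarith [(S1 W1 n1.P1).2, n1.q1])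
  have cz1 : ‖z - W1‖ ≤ 2 * e := by
    have := norm_sub_le_norm_sub_add_norm_sub z W W1
    rw [norm_sub_rev W] at this
    linarith
  have cw1 : ‖w - W1‖ ≤ 2 * e := by
    have := norm_sub_le_norm_sub_add_norm_sub w W W1
    rw [norm_sub_rev W] at this
    linarith
  have nW1 : ‖W1‖ ≤ ‖W‖ + 1 := by linarith [norm_le_insert' W1 W]
  have eJ := mul_le_mul_of_nonneg_left J4 e0.le
  have σe := mul_le_mul_of_nonneg_left eJ σ0
  have t0' : 1 - σ * (2 * e) ≤ C.T W1 W1 W1 z := by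
    have i1 := C.Far_T (z := z) n1.P1
    rw [← map_sub] at i1
    have i2 := hσ (W1 - z)
    rw [norm_sub_rev] at i2
    linarith [mul_le_mul_of_nonneg_left cz1 σ0]
  have t1 : 1 / 2 ≤ C.T W1 W1 W1 z := by linarith
  have t3 : C.T W1 W1 W1 z ≤ 1 := by
    have := (abs_le.1 (C.T_abs_le W1 W1 W1 z)).2
    rw [C.CritA_one n1.P1, C.CritA_one pz] at this
    linarith
  obtain ⟨lam, l1', l2', hl⟩ : ∃ lam : ℝ, 1 ≤ lam ∧ lam ≤ 2 ∧ lam * C.T W1 W1 W1 z = 1 :=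
    ⟨1 / C.T W1 W1 W1 z, by rw [le_div_iff₀ (by linarith)]; linarith,
      by rw [div_le_iff₀ (by linarith)]; linarith, div_mul_cancel₀ _ (by linarith)⟩
  have l3 : lam - 1 ≤ 2 * (σ * (2 * e)) := by
    have i1 := mul_le_mul_of_nonneg_left t0' (zero_le_one.trans l1')
    have i2 := mul_le_mul_of_nonneg_right l2' (show 0 ≤ σ * (2 * e) by positivity)
    linarith
  have TW : C.T W1 W1 W1 W1 = 1 := n1.P1
  have d0 : C.T W1 W1 W1 (lam • z - W1) = 0 := by rw [T_sub4, T_smul4, hl, TW, sub_self]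
  have zV := Pz.gs_mem b1 b2 h1 h2 β0 pz pw z0 w0 hs lb (by
    intro e
    rw [e, sub_self, ← hΔ] at r3
    linarith)
  have WV : W1 ∈ Pz.V :=
    Pz.mem W1 (PosL.nonneg n1.least.2.1) (Pz.toPolar.least_fix b1 n1.a0 n1.least)
  have nd : ‖lam • z - W1‖ ≤ e * J := by
    have i0 : lam • z - W1 = lam • (z - W1) + (lam - 1) • W1 := by
      rw [smul_sub, sub_smul, one_smul]
      abel
    have i1 := norm_add_le (lam • (z - W1)) ((lam - 1) • W1)
    rw [norm_smul, norm_smul, Real.norm_of_nonneg (by linarith), Real.norm_of_nonneg (by linarith),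
      ← i0] at i1
    have i2 := mul_le_mul l2' cz1 (norm_nonneg _) zero_le_two
    have i3 := mul_le_mul l3 nW1 (norm_nonneg _) (by positivity)
    rw [hJ]
    linarith
  have p1 := n1.a0
  have a11 : a1 ≤ a + 1 := by linarith
  refine Diag_path b2 h1 h2 β0 pz pw hs lb n1 (up w) (lam := lam) (d := lam • z - W1) (by linarith)
    (by rw [one_smul, add_sub_cancel]) d0
    (n.transfer Pz n1 c0 hc σ0 hσ e1 (by linarith) (abs_le.2 ⟨by linarith, by linarith⟩) cW f3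
      (Pz.V.sub_mem (Pz.V.smul_mem _ zV) WV) d0) σ0 hσ nd (by linarith) f1 (by linarith) Δ0
    (hΔ ▸ r3) (le_trans ?_ f4) ?_
  · rw [mul_assoc]
    gcongr
  · have β2 : β ≤ 2 * m1 := by linarith [mul_le_mul_of_nonneg_left v1 h1.le]
    have J0 : 0 ≤ J := by linarith
    have i1 : β * (e * J * (118 * σ ^ 2 * (a1 + 1) + 8)) ≤
        e * (2 * m1 * (J * (118 * σ ^ 2 * (a + 1 + 1) + 8))) :=
      calc _ ≤ 2 * m1 * (e * J * (118 * σ ^ 2 * (a + 1 + 1) + 8)) := by gcongr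
        _ = _ := by ring
    have i2 := pow_le_pow_left₀ (by positivity) i1 2
    have i3 : e * (e * (2 * m1 * (J * (118 * σ ^ 2 * (a + 1 + 1) + 8))) ^ 2) ≤
        e * (2 * m1 * (J * (118 * σ ^ 2 * (a + 1 + 1) + 8))) ^ 2 :=
      mul_le_of_le_one_left (by positivity) e1
    have i4 := mul_le_mul_of_nonneg_right (show a / 2 ≤ a1 by linarith)
      (show 0 ≤ c / 4 * Δ by positivity)
    have i5 : 0 < a / 2 * (c / 4 * Δ) := by positivity
    rw [mul_pow e] at i2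
    linarith

end Ctx
end CritSys
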