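import Pool.Agent.Work.MP_80ee1d_an.X.DiagC

/-!
Assembly: balls, either `β² < μ₁ μ₂` or `l₂ - l₁` small.
-/

open MeasureTheory Filter Topology
open scoped RealInnerProductSpace

noncomputable section
namespace CritSys
namespace Ctx

variable {X : Type} [MeasurableSpace X] {H : Type} [NormedAddCommGroup H] [InnerProductSpace ℝ H]
  {μ : Measure X} [IsFiniteMeasure μ] {C : Ctx H μ} {l l1 l2 m1 m2 β : ℝ} {ι : Type}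
  [CompleteSpace H] [TopologicalSpace.SeparableSpace H]

theorem Polar.low_formula (Pz : C.Polar ι) (b1 : C.Adm l1) (b2 : C.Adm l2) (h1 : 0 < m1)
    (h2 : 0 < m2) (hβ : 0 ≤ β) (hd : β ^ 2 < m1 * m2) : C.GS l1 l2 m1 m2 β ↔
      β < min (C.bh l1 m1 l2) (C.bh l2 m2 l1) ∨ max (C.bh l1 m1 l2) (C.bh l2 m2 l1) < β := by
  rw [Pz.lowerRange_pol b1 b2 h1 h2 hβ hd, lt_min_iff, or_iff_left fun h => ?_]
  have := pow_le_pow_left₀ ((C.bh_nonneg b2).trans (le_max_left _ _)) h.le 2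
  linarith [Diag_max b1 b2 h1 h2]

theorem Polar2.diag_lt (Pz : C.Polar2 ι) (al : C.Adm l) (h2 : 0 < m2) (hm : m2 < m1) :
    ∀ᶠ ε in 𝓝[>] (0 : ℝ), ∀ l1 l2 β : ℝ, C.Adm l1 → C.Adm l2 → |l1 - l| ≤ ε → |l2 - l| ≤ ε →
      0 ≤ β → (C.GS l1 l2 m1 m2 β ↔
        β < min (C.bh l1 m1 l2) (C.bh l2 m2 l1) ∨ max (C.bh l1 m1 l2) (C.bh l2 m2 l1) < β) := by
  have h1 : 0 < m1 := h2.trans hm
  have m0 : 0 < m1 - m2 := sub_pos.2 hm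
  obtain ⟨ω₀, o₀⟩ := C.least_exists al h1
  obtain ⟨a, W, n, -, -⟩ := Diag_norm' al h1 o₀
  have a0 := n.a0
  obtain ⟨k, hk⟩ : ∃ k, k = ‖oneL μ‖ ^ 2 := ⟨_, rfl⟩
  have k0 : 0 ≤ k := by rw [hk]; positivity
  filter_upwards [Pz.diag_top al h2 hm, self_mem_nhdsWithin, Far_small (2 * k) a0,
    Far_small (8 * k / a * (6 * m1)) m0] with ε top (ε0 : 0 < ε) g3 g4
  intro l1 l2 β b1 b2 j1 j2 β0
  rcases lt_or_ge (β ^ 2) (m1 * m2) with hd | hd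
  · exact Pz.toPolar.low_formula b1 b2 h1 h2 β0 hd
  obtain ⟨η, hη⟩ : ∃ η, η = ε * k := ⟨_, rfl⟩
  have η0 : 0 ≤ η := by rw [hη]; positivity
  have S1 : ∀ u, C.P u = 1 → C.q l1 u ≤ C.q l u + η ∧ C.q l u ≤ C.q l1 u + η := fun u hu => by
    rw [hη, hk]
    exact Diag_shift j1 hu
  have S2 : ∀ u, C.P u = 1 → C.q l2 u ≤ C.q l u + η ∧ C.q l u ≤ C.q l2 u + η := fun u hu => by
    rw [hη, hk]
    exact Diag_shift j2 hu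
  obtain ⟨v, hv⟩ : ∃ v, v = ε * (8 * k / a) := ⟨_, rfl⟩
  have v0 : 0 ≤ v := by rw [hv]; positivity
  have va : v * a = 8 * η := by rw [hv, hη]; field_simp
  have ηa : 2 * η ≤ a := by linarith
  have vA : a + 3 * η ≤ (1 + v) * (a - η) := by
    have := mul_le_mul_of_nonneg_left ηa v0
    linarith
  have g4' : v * (6 * m1) ≤ m1 - m2 := by rw [hv]; linarith
  have v1 : v ≤ 1 := by
    refine le_of_mul_le_mul_right ?_ h1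
    linarith [mul_nonneg v0 h1.le]
  have vv : m2 * (1 + v) ^ 2 < m1 := by
    have i1 : (1 + v) ^ 2 ≤ 1 + 3 * v := by linarith [mul_le_of_le_one_right v0 v1]
    linarith [mul_le_mul_of_nonneg_left i1 h2.le, mul_le_mul_of_nonneg_left hm.le v0]
  obtain ⟨ω2, o2⟩ := C.least_exists b2 h2
  obtain ⟨a2, W2, n2, q2, R2⟩ := Diag_norm' b2 h2 o2
  have u2 : a2 ≤ a + η := by linarith [n2.low n.P1, (S2 W n.P1).1, n.q1]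
  have d2 : a - η ≤ a2 := by linarith [n.low n2.P1, (S2 W2 n2.P1).2, n2.q1]
  have A0 : 0 < a - η := by linarith
  have B0 := C.bh_nonneg (l := l2) (m := m2) b1
  have B1 := C.bh_nonneg (l := l1) (m := m1) b2
  have k1 : C.bh l2 m2 l1 ≤ m2 * (1 + v) := by
    have i1 := Diag_bh_up b1 h2 o2 R2 le_rfl W2
    rw [R_self, n2.P1, mul_one] at i1
    have i2 : C.q l1 W2 ≤ (1 + v) * (a - η) := by
      linarith [(S1 W2 n2.P1).1, (S2 W2 n2.P1).2, n2.q1]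
    refine le_of_mul_le_mul_right ?_ A0
    linarith [mul_le_mul_of_nonneg_left i2 h2.le, mul_le_mul_of_nonneg_left d2 B0]
  have k2 : C.bh l2 m2 l1 ^ 2 < m1 * m2 := by
    linarith [pow_le_pow_left₀ B0 k1 2, mul_lt_mul_of_pos_right vv h2]
  have k3 : C.bh l2 m2 l1 ≤ C.bh l1 m1 l2 := le_of_not_ge fun e => by
    have := Diag_max b1 b2 h1 h2
    rw [max_eq_right e] at this
    linarith
  have k4 : C.bh l2 m2 l1 < β := lt_of_pow_lt_pow_left₀ 2 β0 (k2.trans_le hd)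
  rw [min_eq_right k3, max_eq_left k3, or_iff_right k4.not_gt]
  refine ⟨fun hG => lt_of_not_ge fun hb => top l1 l2 β b1 b2 j1 j2 β0 hd hb hG, fun hb => ?_⟩
  obtain ⟨ω1, y, o1, -, hy⟩ := C.exists_of_bh_lt b1 h1 hb
  obtain ⟨a1, W1, n1, q1, -⟩ := Diag_norm' b1 h1 o1
  have u1 : a1 ≤ a + η := by linarith [n1.low n.P1, (S1 W n.P1).1, n.q1]
  refine C.upper b1 b2 h1 h2 β0 o1 o2 (le_of_mul_le_mul_right ?_ (mul_pos h1 h2)) hy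
  have i1 : a1 ≤ (1 + v) * a2 := by
    linarith [mul_le_mul_of_nonneg_left d2 (show 0 ≤ 1 + v by linarith)]
  have i2 := mul_le_mul_of_nonneg_left (pow_le_pow_left₀ n1.a0.le i1 2) h2.le
  have i3 := mul_le_mul_of_nonneg_right vv.le (sq_nonneg a2)
  calc _ = m2 * (C.q l1 ω1 * m1) := by ring
    _ ≤ m1 * (C.q l2 ω2 * m2) := by rw [q1, q2]; linarith
    _ = _ := by ring

theorem Polar2.diag_unif (Pz : C.Polar2 ι) (h1 : 0 < m1) (h2 : 0 < m2) (hm : m1 ≠ m2) {p r : ℝ}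
    (hp : -C.Λ < p) (hr : r < 0) : ∃ δ : ℝ, 0 < δ ∧ ∀ l1 l2 β : ℝ, p ≤ l1 → l1 ≤ l2 → l2 ≤ r →
      l2 - l1 < δ → 0 ≤ β → (C.GS l1 l2 m1 m2 β ↔
        β < min (C.bh l1 m1 l2) (C.bh l2 m2 l1) ∨ max (C.bh l1 m1 l2) (C.bh l2 m2 l1) < β) := by
  have ex : ∀ l : Set.Icc p r, ∃ ε : ℝ, 0 < ε ∧ ∀ l1 l2 β : ℝ, C.Adm l1 → C.Adm l2 →
      |l1 - l| ≤ ε → |l2 - l| ≤ ε → 0 ≤ β → (C.GS l1 l2 m1 m2 β ↔
        β < min (C.bh l1 m1 l2) (C.bh l2 m2 l1) ∨ max (C.bh l1 m1 l2) (C.bh l2 m2 l1) < β) := by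
    rintro ⟨l, k1, k2⟩
    have al : C.Adm l := ⟨hp.trans_le k1, k2.trans_lt hr⟩
    have h0 : ∀ᶠ κ in 𝓝[>] (0 : ℝ), 0 < κ := eventually_mem_nhdsWithin
    rcases hm.lt_or_gt with h | h
    · obtain ⟨ε, ε0, k⟩ := (h0.and (Pz.diag_lt al h1 h)).exists
      refine ⟨ε, ε0, fun l1 l2 β b1 b2 j1 j2 β0 => ?_⟩
      rw [C.GS_swap, min_comm, max_comm]
      exact k l2 l1 β b2 b1 j2 j1 β0
    · exact (h0.and (Pz.diag_lt al h2 h)).exists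
  choose ε ε0 hε using ex
  obtain ⟨δ, δ0, hδ⟩ := lebesgue_number_lemma_of_metric (isCompact_Icc (a := p) (b := r))
    (c := fun l : Set.Icc p r => Metric.ball (l : ℝ) (ε l)) (fun _ => Metric.isOpen_ball)
    fun x hx => Set.mem_iUnion.2 ⟨⟨x, hx⟩, Metric.mem_ball_self (ε0 _)⟩
  refine ⟨δ, δ0, fun l1 l2 β k1 k2 k3 k4 β0 => ?_⟩
  obtain ⟨i, hi⟩ := hδ l1 ⟨k1, k2.trans k3⟩
  have j1 := hi (Metric.mem_ball_self δ0)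
  have j2 := hi (show l2 ∈ Metric.ball l1 δ by
    rw [Metric.mem_ball, Real.dist_eq, abs_of_nonneg (sub_nonneg.2 k2)]; exact k4)
  rw [Metric.mem_ball, Real.dist_eq] at j1 j2
  exact hε i l1 l2 β ⟨by linarith, by linarith⟩ ⟨by linarith, by linarith⟩ j1.le j2.le β0

theorem upper_lv {lv : ℝ → ℝ → ℝ}
    (hlv : ∀ l m W, C.Adm l → C.Least l m W → lv l m = C.q l W / 4) (b1 : C.Adm l1)
    (b2 : C.Adm l2) (h1 : 0 < m1) (h2 : 0 < m2) (hβ : 0 ≤ β) (e : lv l1 m1 ≤ lv l2 m2)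
    (h : C.bh l1 m1 l2 < β) : C.GS l1 l2 m1 m2 β ∧ m1 * m2 < β ^ 2 := by
  obtain ⟨ω1, y1, o1, -, k1⟩ := C.exists_of_bh_lt b1 h1 h
  obtain ⟨ω2, o2⟩ := C.least_exists b2 h2
  rw [hlv _ _ _ b1 o1, hlv _ _ _ b2 o2] at e
  refine ⟨C.upper b1 b2 h1 h2 hβ o1 o2 (by linarith) k1, ?_⟩
  obtain ⟨a1, W1, n1, q1, -⟩ := Diag_norm' b1 h1 o1
  obtain ⟨a2, W2, n2, q2, -⟩ := Diag_norm' b2 h2 o2
  have p1 := n1.a0
  have p2 := n2.a0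
  have i1 := (Diag_bh_low n1 n2 h1).trans_lt (mul_lt_mul_of_pos_right h p1)
  have i2 := pow_lt_pow_left₀ i1 (by positivity) two_ne_zero
  have i3 := mul_le_mul_of_nonneg_left (show C.q l1 ω1 ≤ C.q l2 ω2 by linarith)
    (show 0 ≤ m1 ^ 2 * m2 by positivity)
  refine lt_of_mul_lt_mul_right ?_ (sq_nonneg a1)
  calc _ = m1 ^ 2 * m2 * C.q l1 ω1 := by rw [← q1]; ring
    _ ≤ _ := i3
    _ = (m1 * a2) ^ 2 := by rw [mul_pow, ← q2]; ring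
    _ < _ := by linarith

omit [CompleteSpace H] [TopologicalSpace.SeparableSpace H] in
theorem cone (hN : C.NC) (hF : C.FL) (b1 : C.Adm l1) (b2 : C.Adm l2) (hl : l1 ≠ l2) (h1 : 0 < m1)
    (h2 : 0 < m2) (β0 : 0 ≤ β) (hβ : m1 * m2 ≤ β ^ 2) {ω : H} (o : C.Least l2 m2 ω)
    (h : β * C.q l1 ω ≤ m1 * C.q l2 ω) : ¬ C.GS l1 l2 m1 m2 β ∧ C.bh l2 m2 l1 ≤ β := by
  have βp : 0 < β := β0.lt_of_ne fun e => by
    rw [← e] at hβ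
    linarith [mul_pos h1 h2]
  have ω0 := C.q_pos b2.1 o.2.1.ne_zero
  refine ⟨fun hG => ?_, ?_⟩
  swap
  · have i1 := mul_le_mul_of_nonneg_left (C.bh_le b1 o ω) (mul_pos βp h2).le
    have i2 := mul_le_mul_of_nonneg_left h h2.le
    have i3 := mul_le_mul_of_nonneg_right hβ ω0.le
    refine le_of_mul_le_mul_right ?_ (mul_pos βp ω0)
    rw [R_self] at i1
    calc _ = β * m2 * (C.bh l2 m2 l1 * C.P ω) := by rw [o.1.q_eq]; ring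
      _ ≤ _ := by linarith
  obtain ⟨z, w, s, t, pz, pw, z0, w0, hs, lb, e1, e2⟩ := C.Deg_data hG
  have hd : (β * C.R z w) ^ 2 ≠ m1 * m2 := by
    rcases hl.lt_or_gt with e | e
    · exact C.Deg_ne hN hF b1 b2 e h1 h2 β0 pz pw z0 w0 hs lb e1 e2
    · rw [C.R_comm, mul_comm m1]
      exact C.Deg_ne hN hF b2 b1 e h2 h1 β0 pw pz w0 z0 (C.R_comm z w ▸ hs.swap)
        (add_comm (s * C.q l1 z) _ ▸ lb.swap) e2 e1
  obtain ⟨u, r, r0, pu, qu, Pu, -⟩ := C.CritA_norm o.2.1.ne_zero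
  have a2 : C.q l2 u = m2 * r := by
    have := o.1.q_eq
    rw [qu, Pu] at this
    exact mul_left_cancel₀ r0.ne' (by linarith)
  have ya : m2 * r ≤ C.q l2 w := by
    have := C.least_quot b2.1 h2 o w
    rw [qu, a2, pw] at this
    exact (abs_le_of_sq_le_sq' (by linarith) (C.q_nonneg b2.1.le w)).2
  rw [qu, qu, a2] at h
  obtain ⟨s0, t0, hx, hy⟩ := id hs
  rw [mul_one] at hx hy
  have τ1 : C.R z w ≤ 1 := by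
    have := C.R_le z w
    rwa [C.CritA_one pz, C.CritA_one pw, one_pow, mul_one] at this
  have τ0 := C.R_nonneg z w
  have cβ : β * C.R z w ≤ β := mul_le_of_le_one_right β0 τ1
  have U := C.semi1 b1 b2 h1 h2 lb pu pu (x := m1 * (m2 * r) / β) (y := m2 * r)
    (by rw [le_div_iff₀' βp]; exact le_of_mul_le_mul_left (by linarith) r0) a2.le
    (by rw [R_self, pu, mul_one, mul_div_cancel₀ _ βp.ne'])
  rw [div_pow, le_div_iff₀ (by positivity)] at U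
  have i1 := mul_le_mul_of_nonneg_left (pow_le_pow_left₀ (by positivity) ya 2) (sq_nonneg m1)
  have i2 : β ^ 2 * (s * C.q l1 z + t * C.q l2 w) - m1 * C.q l2 w ^ 2 =
      m1 * s ^ 2 * (β ^ 2 - (β * C.R z w) ^ 2) +
        (2 * (β * C.R z w * s * t) + m2 * t ^ 2) * (β ^ 2 - m1 * m2) := by
    rw [hx, hy]
    ring
  have i3 : β ^ 2 * (s * C.q l1 z + t * C.q l2 w) - m1 * C.q l2 w ^ 2 ≤ 0 :=
    le_of_mul_le_mul_left (by linarith) h1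
  have i4 := sub_nonneg.2 (pow_le_pow_left₀ (mul_nonneg β0 τ0) cβ 2)
  have p1 : 0 < m1 * s ^ 2 := by positivity
  have p2 : 0 < 2 * (β * C.R z w * s * t) + m2 * t ^ 2 := by positivity
  have i5 := mul_nonneg p1.le i4
  have i6 := mul_nonneg p2.le (sub_nonneg.2 hβ)
  have i7 := (mul_eq_zero.1 (show m1 * s ^ 2 * (β ^ 2 - (β * C.R z w) ^ 2) = 0 by
    linarith)).resolve_left p1.ne'
  have i8 := (mul_eq_zero.1 (show (2 * (β * C.R z w * s * t) + m2 * t ^ 2) *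
    (β ^ 2 - m1 * m2) = 0 by linarith)).resolve_left p2.ne'
  exact hd (by linarith)

theorem Polar2.ball_diag (Pz : C.Polar2 ι) (hN : C.NC) (hF : C.FL) {lv : ℝ → ℝ → ℝ}
    (hlv : ∀ l m W, C.Adm l → C.Least l m W → lv l m = C.q l W / 4) (h1 : 0 < m1) (h2 : 0 < m2)
    {ρ : ℝ} (hρ : 0 < ρ) :
    ∃ ε : ℝ, 0 < ε ∧ ∀ l1 l2 β : ℝ, -C.Λ < l1 → l1 ≤ l2 → l2 < 0 → 0 ≤ β →
      (β ^ 2 < m1 * m2 ∨ (lv l1 m1 ≤ lv l2 m2 ∧ C.bh l1 m1 l2 < β) ∨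
        (lv l2 m2 ≤ lv l1 m1 ∧ C.bh l2 m2 l1 < β) ∨
        (l1 < l2 ∧ ∃ ω, C.Least l2 m2 ω ∧ β * C.q l1 ω ≤ m1 * C.q l2 ω) ∨
        (l1 < l2 ∧ ∃ ω, C.Least l1 m1 ω ∧ β * C.q l2 ω ≤ m2 * C.q l1 ω) ∨
        l2 ≤ -ρ ∧ ρ ≤ |((C.Λ + l1) / (C.Λ + l2)) ^ 2 * m2 - m1| ∧
          (l2 - l1 < ε ∨ l1 < -C.Λ + ε)) →
      (C.GS l1 l2 m1 m2 β ↔ β < min (C.bh l1 m1 l2) (C.bh l2 m2 l1) ∨
        (m1 * m2 < β ^ 2 ∧ ((lv l1 m1 ≤ lv l2 m2 ∧ C.bh l1 m1 l2 < β) ∨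
          (lv l2 m2 ≤ lv l1 m1 ∧ C.bh l2 m2 l1 < β)))) := by
  obtain ⟨ε1, p1, A⟩ := C.near_far h1 h2 hρ
  obtain ⟨δ, δ0, B⟩ : ∃ δ : ℝ, 0 < δ ∧ ∀ l1 l2 β : ℝ, -C.Λ + ε1 ≤ l1 → l1 ≤ l2 → l2 ≤ -ρ →
      l2 - l1 < δ → 0 ≤ β → ρ ≤ |((C.Λ + l1) / (C.Λ + l2)) ^ 2 * m2 - m1| →
      (C.GS l1 l2 m1 m2 β ↔
        β < min (C.bh l1 m1 l2) (C.bh l2 m2 l1) ∨ max (C.bh l1 m1 l2) (C.bh l2 m2 l1) < β) := by
    rcases eq_or_ne m1 m2 with rfl | hm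
    · refine ⟨ρ * ε1 / (2 * m1), by positivity, fun l1 l2 β k1 k2 k3 k4 β0 k5 => absurd k5 ?_⟩
      have e1 : 0 < C.Λ + l2 := by linarith
      obtain ⟨κ, hκ⟩ : ∃ κ, κ = (C.Λ + l1) / (C.Λ + l2) := ⟨_, rfl⟩
      have e2 : κ * (C.Λ + l2) = C.Λ + l1 := by rw [hκ, div_mul_cancel₀ _ e1.ne']
      have κ0 : 0 ≤ κ := by rw [hκ]; exact div_nonneg (by linarith) e1.le
      have κ1 : κ ≤ 1 := by rw [hκ, div_le_one e1]; linarith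
      rw [lt_div_iff₀ (by positivity)] at k4
      have e3 := mul_le_mul_of_nonneg_left (show ε1 ≤ C.Λ + l2 by linarith) (sub_nonneg.2 κ1)
      have e4 := mul_le_mul_of_nonneg_right (show (1 - κ) * ε1 ≤ l2 - l1 by linarith)
        (show 0 ≤ 2 * m1 by positivity)
      have e5 : (1 - κ) * (2 * m1) < ρ := lt_of_mul_lt_mul_right (by linarith) p1.le
      have e6 := mul_le_mul_of_nonneg_right (pow_le_one₀ (n := 2) κ0 κ1) h1.le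
      have e7 := mul_nonneg (sq_nonneg (1 - κ)) h1.le
      rw [← hκ, not_le, abs_of_nonpos (by linarith)]
      linarith
    · obtain ⟨δ, δ0, B⟩ := Pz.diag_unif h1 h2 hm (p := -C.Λ + ε1) (r := -ρ) (by linarith)
        (by linarith)
      exact ⟨δ, δ0, fun l1 l2 β k1 k2 k3 k4 β0 _ => B l1 l2 β k1 k2 k3 k4 β0⟩
  refine ⟨min δ ε1, lt_min δ0 p1, fun l1 l2 β k1 k2 k3 β0 hh => ?_⟩
  have b1 : C.Adm l1 := ⟨k1, k2.trans_lt k3⟩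
  have b2 : C.Adm l2 := ⟨k1.trans_le k2, k3⟩
  have up : (lv l1 m1 ≤ lv l2 m2 ∧ C.bh l1 m1 l2 < β) ∨
      (lv l2 m2 ≤ lv l1 m1 ∧ C.bh l2 m2 l1 < β) → C.GS l1 l2 m1 m2 β ∧ m1 * m2 < β ^ 2 := by
    rintro (⟨e, h⟩ | ⟨e, h⟩)
    · exact upper_lv hlv b1 b2 h1 h2 β0 e h
    · rw [C.GS_swap, mul_comm]
      exact upper_lv hlv b2 b1 h2 h1 β0 e h
  have conv : (C.GS l1 l2 m1 m2 β ↔ β < min (C.bh l1 m1 l2) (C.bh l2 m2 l1) ∨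
      max (C.bh l1 m1 l2) (C.bh l2 m2 l1) < β) → (C.GS l1 l2 m1 m2 β ↔
        β < min (C.bh l1 m1 l2) (C.bh l2 m2 l1) ∨
          (m1 * m2 < β ^ 2 ∧ ((lv l1 m1 ≤ lv l2 m2 ∧ C.bh l1 m1 l2 < β) ∨
            (lv l2 m2 ≤ lv l1 m1 ∧ C.bh l2 m2 l1 < β)))) := fun h =>
    ⟨fun g => (h.1 g).imp_right fun e =>
      have k : (lv l1 m1 ≤ lv l2 m2 ∧ C.bh l1 m1 l2 < β) ∨
          (lv l2 m2 ≤ lv l1 m1 ∧ C.bh l2 m2 l1 < β) := (le_total _ _).imp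
        (fun k => ⟨k, (le_max_left _ _).trans_lt e⟩) fun k => ⟨k, (le_max_right _ _).trans_lt e⟩
      ⟨(up k).2, k⟩,
      fun g => g.elim (fun e => h.2 (Or.inl e)) fun e => (up e.2).1⟩
  rcases lt_or_ge (β ^ 2) (m1 * m2) with hd | hd
  · exact conv (Pz.toPolar.low_formula b1 b2 h1 h2 β0 hd)
  rcases hh with h | h | h | ⟨hl, ω, o, h⟩ | ⟨hl, ω, o, h⟩ | ⟨k4, k6, k5⟩
  · exact absurd h hd.not_gt
  · exact iff_of_true (up (Or.inl h)).1 (Or.inr ⟨(up (Or.inl h)).2, Or.inl h⟩)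
  · exact iff_of_true (up (Or.inr h)).1 (Or.inr ⟨(up (Or.inr h)).2, Or.inr h⟩)
  · obtain ⟨c1, c2⟩ := cone hN hF b1 b2 hl.ne h1 h2 β0 hd o h
    exact iff_of_false c1 fun e => e.elim ((min_le_right _ _).trans c2).not_gt
      fun e => c1 (up e.2).1
  · obtain ⟨c1, c2⟩ := cone hN hF b2 b1 hl.ne' h2 h1 β0 (by rwa [mul_comm]) o h
    rw [C.GS_swap] at c1
    exact iff_of_false c1 fun e => e.elim ((min_le_left _ _).trans c2).not_gt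
      fun e => c1 (up e.2).1
  refine conv ?_
  rcases lt_or_ge l1 (-C.Λ + ε1) with k7 | k7
  · refine A l1 l2 k1 k7 k2 k4 k6 β β0 (Or.inr (Or.inr fun hd => ?_))
    rw [lt_min_iff]
    exact Pz.toPolar.lowerRange_pol b1 b2 h1 h2 β0 hd
  · refine B l1 l2 β k7 k2 k4 ?_ β0 k6
    rcases k5 with k5 | k5
    · exact k5.trans_le (min_le_left _ _)
    · linarith [min_le_right δ ε1]

end Ctx

theorem final_ball_diag (R : ℝ) (hR : 0 < R) (Ω : Set E4) (hΩ : Ω = Metric.ball 0 R)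
    (μ₁ μ₂ : ℝ) (h1 : 0 < μ₁) (h2 : 0 < μ₂) (ρ : ℝ) (hρ : 0 < ρ) :
    ∃ ε : ℝ, 0 < ε ∧ ∀ l₁ l₂ β : ℝ, -lam1 Ω < l₁ → l₁ ≤ l₂ → l₂ < 0 → 0 ≤ β →
      (β ^ 2 < μ₁ * μ₂ ∨ (level1 Ω l₁ μ₁ ≤ level1 Ω l₂ μ₂ ∧ betaHat Ω l₁ μ₁ l₂ < β) ∨
        (level1 Ω l₂ μ₂ ≤ level1 Ω l₁ μ₁ ∧ betaHat Ω l₂ μ₂ l₁ < β) ∨
        (l₁ < l₂ ∧ ∃ w : H01 Ω, PosSol1 l₂ μ₂ w ∧ energy1 l₂ μ₂ w = level1 Ω l₂ μ₂ ∧
          β * quad l₁ w ≤ μ₁ * quad l₂ w) ∨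
        (l₁ < l₂ ∧ ∃ w : H01 Ω, PosSol1 l₁ μ₁ w ∧ energy1 l₁ μ₁ w = level1 Ω l₁ μ₁ ∧
          β * quad l₂ w ≤ μ₂ * quad l₁ w) ∨
        (l₂ ≤ -ρ ∧ ρ ≤ |((lam1 Ω + l₁) / (lam1 Ω + l₂)) ^ 2 * μ₂ - μ₁| ∧
          (l₂ - l₁ < ε ∨ l₁ < -lam1 Ω + ε))) →
      (HasGroundState Ω l₁ l₂ μ₁ μ₂ β ↔
        β < min (betaHat Ω l₁ μ₁ l₂) (betaHat Ω l₂ μ₂ l₁) ∨
          (μ₁ * μ₂ < β ^ 2 ∧ ((level1 Ω l₁ μ₁ ≤ level1 Ω l₂ μ₂ ∧ betaHat Ω l₁ μ₁ l₂ < β) ∨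
            (level1 Ω l₂ μ₂ ≤ level1 Ω l₁ μ₁ ∧ betaHat Ω l₂ μ₂ l₁ < β)))) := by
  obtain ⟨d, rfl⟩ : ∃ d : Dom, d.Ω = Ω := ⟨⟨Metric.ball 0 R, Metric.isOpen_ball,
    Metric.isConnected_ball hR, Metric.isBounded_ball⟩, hΩ.symm⟩
  obtain ⟨Pz⟩ := exists_polar2 hR hΩ
  obtain ⟨ε, hε, h⟩ := Pz.ball_diag (ctx_NC d) (ctx_FL d) (lv := level1 d.Ω)
    (fun _ _ _ a o => level1_eq a o) h1 h2 hρ
  refine ⟨ε, hε, fun l₁ l₂ β k1 k2 k3 hβ hh => ?_⟩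
  rw [lam1_eq d] at k1 hh
  have a1 : (ctx d).Adm l₁ := ⟨k1, k2.trans_lt k3⟩
  have a2 : (ctx d).Adm l₂ := ⟨k1.trans_le k2, k3⟩
  rw [betaHat_eq a1, betaHat_eq a2] at hh
  rw [hasGS_iff a1 a2, betaHat_eq a1, betaHat_eq a2]
  refine h l₁ l₂ β k1 k2 k3 hβ
    (hh.imp_right (Or.imp_right (Or.imp_right (Or.imp ?_ (Or.imp_left ?_)))))
  · rintro ⟨e, w, w1, w2, w3⟩
    obtain ⟨W, hW⟩ := exists_rep w
    exact ⟨e, W, (hW.least a2).1 ⟨w1, w2⟩, by rwa [hW.quad, hW.quad] at w3⟩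
  · rintro ⟨e, w, w1, w2, w3⟩
    obtain ⟨W, hW⟩ := exists_rep w
    exact ⟨e, W, (hW.least a1).1 ⟨w1, w2⟩, by rwa [hW.quad, hW.quad] at w3⟩

end CritSys
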