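import Pool.Agent.Work.MP_80ee1d_an.OdeB

/-!
The linearised Emden-Fowler equation has no solution with the boundary behaviour of `H¹₀`.
With `ω = K' Y - Z K` and `X = ω' / 4 - Z ω / Y` one has `X' = 2 J ω / Y²`.
-/

open MeasureTheory Filter Topology Set

noncomputable section
namespace CritSys

/-- Solutions of the linearised equation. -/
structure EL (T l m : ℝ) (Y K G : ℝ → ℝ) : Prop where
  d1 : ∀ t < T, HasDerivAt K (G t) t
  d2 : ∀ t < T, HasDerivAt G (K t + l * Real.exp t ^ 2 * K t - 3 * m * Y t ^ 2 * K t) t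
  int : IntegrableOn (fun t => K t ^ 4) (Iio T)
  bdry : ∀ c : ℝ, 0 < c → ¬ ∀ᶠ t in 𝓝[<] T, c ≤ |K t|

variable {T l m : ℝ} {Y Z K G : ℝ → ℝ}

theorem EL.neg (k : EL T l m Y K G) : EL T l m Y (fun t => -K t) fun t => -G t where
  d1 t ht := (k.d1 t ht).neg
  d2 t ht := (k.d2 t ht).neg.congr_deriv (by ring)
  int := by simpa only [Even.neg_pow (by decide : Even 4)] using k.int
  bdry c hc := by simpa only [abs_neg] using k.bdry c hc

/-- The auxiliary function. -/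
def LinX (m : ℝ) (Y Z K G : ℝ → ℝ) (t : ℝ) : ℝ :=
  -(m / 2 * Y t ^ 3 * K t) - Z t * OdeB_W Y Z K G t / Y t

theorem Lin_dW (h : EF T l m Y Z) (k : EL T l m Y K G) {t : ℝ} (ht : t < T) :
    HasDerivAt (OdeB_W Y Z K G) (-(2 * m * Y t ^ 3 * K t)) t :=
  (((k.d2 t ht).fun_mul (h.d1 t ht)).fun_sub ((h.d2 t ht).fun_mul (k.d1 t ht))).congr_deriv
    (by ring)

theorem Lin_dX (h : EF T l m Y Z) (k : EL T l m Y K G) {t : ℝ} (ht : t < T) :
    HasDerivAt (LinX m Y Z K G) (2 * JJ l m Y Z t * OdeB_W Y Z K G t / Y t ^ 2) t := by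
  have h0 := (h.pos t ht).ne'
  refine (((((h.d1 t ht).fun_pow 3).const_mul (m / 2)).fun_mul (k.d1 t ht)).fun_neg.fun_sub
    (((h.d2 t ht).fun_mul (Lin_dW h k ht)).fun_div (h.d1 t ht) h0)).congr_deriv ?_
  simp only [JJ, OdeB_W]
  field_simp
  push_cast
  ring

theorem Lin_neg (h : EF T l m Y Z) (hl : l < 0) (hm : 0 < m) {t : ℝ} (ht : t < T)
    (hW : OdeB_W Y Z K G t < 0) : 2 * JJ l m Y Z t * OdeB_W Y Z K G t / Y t ^ 2 < 0 :=
  div_neg_of_neg_of_pos (mul_neg_of_pos_of_neg (by linarith [h.J_pos hl hm ht]) hW)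
    (pow_pos (h.pos t ht) 2)

theorem Lin_dq (h : EF T l m Y Z) (k : EL T l m Y K G) {t : ℝ} (ht : t < T) :
    HasDerivAt (fun s => K s / Y s) (OdeB_W Y Z K G t / Y t ^ 2) t :=
  ((k.d1 t ht).fun_div (h.d1 t ht) (h.pos t ht).ne').congr_deriv (by rw [OdeB_W]; ring)

theorem Lin_dp (h : EF T l m Y Z) (c : ℝ) (n : ℕ) {t : ℝ} (ht : t < T) :
    HasDerivAt (fun s => c / Y s ^ (n + 1)) (-(c * (n + 1) * Z t / Y t ^ (n + 2))) t := by
  have h0 := (h.pos t ht).ne'
  refine ((hasDerivAt_const t c).fun_div ((h.d1 t ht).fun_pow (n + 1))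
    (pow_ne_zero _ h0)).congr_deriv ?_
  simp only [Nat.add_sub_cancel]
  field_simp
  push_cast
  ring

theorem Lin_ds (h : EF T l m Y Z) (k : EL T l m Y K G) {t : ℝ} (ht : t < T) :
    HasDerivAt (fun s => OdeB_W Y Z K G s / Y s ^ 4) (4 * LinX m Y Z K G t / Y t ^ 4) t := by
  have h0 := (h.pos t ht).ne'
  refine ((Lin_dW h k ht).fun_div ((h.d1 t ht).fun_pow 4) (pow_ne_zero _ h0)).congr_deriv ?_
  simp only [LinX]
  field_simp
  push_cast
  ring

theorem Lin_top (h : EF T l m Y Z) (k : EL T l m Y K G) (hl : l < 0) (hm : 0 < m) {t₂ c : ℝ}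
    (ht : t₂ < T) (hc : 0 < c) (hX : ∀ s, t₂ ≤ s → s < T → LinX m Y Z K G s ≤ -c) : False := by
  obtain ⟨a, ha, hZ⟩ := h.tendsto_Z hl hm
  obtain ⟨t₃, h3, hz⟩ : ∃ t₃ < T, ∀ s, t₃ ≤ s → s < T → t₂ ≤ s ∧ -(2 * a) ≤ Z s ∧ Z s ≤ 0 := by
    obtain ⟨r, hr, hr'⟩ := (mem_nhdsLT_iff_exists_Ioo_subset.1
      ((hZ.eventually_const_le (show -(2 * a) < -a by linarith)).and
        (hZ.eventually_le_const (show -a < 0 by linarith))))
    obtain ⟨r', k1, k2⟩ := exists_between (max_lt hr ht)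
    exact ⟨r', k2, fun s s1 s2 => ⟨((le_max_right _ _).trans k1.le).trans s1,
      hr' ⟨((le_max_left _ _).trans_lt k1).trans_le s1, s2⟩⟩⟩
  obtain ⟨c', c0, hc'⟩ : ∃ c' : ℝ, 0 < c' ∧ 2 * a * c' = c := ⟨c / (2 * a), by positivity, by
    field_simp⟩
  obtain ⟨σ, hσ⟩ : ∃ σ : ℝ, ∀ s, t₃ ≤ s → s < T → OdeB_W Y Z K G s ≤ σ * Y s ^ 4 - c' * Y s := by
    refine ⟨OdeB_W Y Z K G t₃ / Y t₃ ^ 4 + c' / Y t₃ ^ (2 + 1), fun s s1 s2 => ?_⟩
    have k1 := OdeB_anti (f := fun s => OdeB_W Y Z K G s / Y s ^ 4 + c' / Y s ^ (2 + 1)) s1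
      (fun r hr => (Lin_ds h k (hr.2.trans_lt s2)).fun_add (Lin_dp h c' 2 (hr.2.trans_lt s2)))
      (fun r hr => by
        obtain ⟨z1, z2, -⟩ := hz r hr.1.le (hr.2.trans s2)
        have z3 := hX r z1 (hr.2.trans s2)
        have z4 := mul_le_mul_of_nonneg_left z2 c0.le
        rw [← sub_eq_add_neg, ← sub_div]
        refine div_nonpos_of_nonpos_of_nonneg ?_ (by positivity)
        push_cast
        linarith)
    have y0 := h.pos s s2
    have k2 := mul_le_mul_of_nonneg_right k1 (pow_pos y0 4).le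
    have k3 : (OdeB_W Y Z K G s / Y s ^ 4 + c' / Y s ^ (2 + 1)) * Y s ^ 4 =
        OdeB_W Y Z K G s + c' * Y s := by
      field_simp
      ring
    linarith
  have cK : ContinuousOn (fun s => 1 + K s ^ 4) (Iio T) := fun s hs =>
    (continuousAt_const.add ((k.d1 s hs).continuousAt.pow 4)).continuousWithinAt
  have ii : ∀ s < T, IntervalIntegrable (fun s => 1 + K s ^ 4) volume t₃ s := fun s hs =>
    (cK.mono fun r hr => lt_of_le_of_lt hr.2 (max_lt h3 hs)).intervalIntegrable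
  obtain ⟨I, hI⟩ : ∃ I : ℝ, ∀ s, t₃ ≤ s → s < T → ∫ r in t₃..s, (1 + K r ^ 4) ≤ I := by
    refine ⟨T - t₃ + ∫ r in Iio T, K r ^ 4, fun s s1 s2 => ?_⟩
    have i1 : IntegrableOn (fun r => K r ^ 4) (Ioc t₃ s) :=
      k.int.mono_set fun r hr => lt_of_le_of_lt hr.2 s2
    rw [intervalIntegral.integral_add intervalIntegrable_const
      ((intervalIntegrable_iff_integrableOn_Ioc_of_le s1).2 i1), intervalIntegral.integral_const,
      intervalIntegral.integral_of_le s1, smul_eq_mul, mul_one]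
    have i2 := setIntegral_mono_set k.int (ae_of_all _ fun r => by positivity)
      (show Ioc t₃ s ≤ᵐ[volume] Iio T from
        (show Ioc t₃ s ⊆ Iio T from fun r hr => lt_of_le_of_lt hr.2 s2).eventuallyLE)
    linarith
  have st : ∀ t s, t₃ ≤ t → t ≤ s → s < T →
      OdeB_W Y Z K G s ≤ OdeB_W Y Z K G t + 2 * m * Y t ^ 3 * I := fun t s t1 t2 s2 => by
    have yt := h.pos t (t2.trans_lt s2)
    have k1 := OdeB_anti
      (f := fun r => OdeB_W Y Z K G r - 2 * m * Y t ^ 3 * ∫ r' in t₃..r, (1 + K r' ^ 4)) t2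
      (fun r hr => (Lin_dW h k (hr.2.trans_lt s2)).fun_sub
        ((intervalIntegral.integral_hasDerivAt_right (ii r (hr.2.trans_lt s2))
          (cK.stronglyMeasurableAtFilter isOpen_Iio r (hr.2.trans_lt s2))
          (cK.continuousAt (Iio_mem_nhds (hr.2.trans_lt s2)))).const_mul _))
      (fun r hr => by
        have r2 := hr.2.trans s2
        have y1 : Y r ≤ Y t := OdeB_anti hr.1.le (fun q hq => h.d1 q (hq.2.trans_lt r2))
          fun q hq => (hz q (t1.trans hq.1.le) (hq.2.trans r2)).2.2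
        have y0 := h.pos r r2
        have y2 : Y r ^ 3 ≤ Y t ^ 3 := pow_le_pow_left₀ y0.le y1 3
        have y3 : -K r ≤ 1 + K r ^ 4 := by
          linarith [sq_nonneg (K r ^ 2 - 1 / 2), sq_nonneg (K r + 1 / 2)]
        have y4 := mul_le_mul_of_nonneg_left y3 (pow_pos y0 3).le
        have y5 := mul_le_mul_of_nonneg_right y2 (show 0 ≤ 1 + K r ^ 4 by positivity)
        have y6 := mul_le_mul_of_nonneg_left (y4.trans y5) hm.le
        linarith)
    have k2 : 0 ≤ ∫ r' in t₃..t, (1 + K r' ^ 4) :=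
      intervalIntegral.integral_nonneg t1 fun r _ => by positivity
    have k3 := mul_le_mul_of_nonneg_left (hI s (t1.trans t2) s2)
      (show 0 ≤ 2 * m * Y t ^ 3 by positivity)
    have k4 := mul_nonneg (show 0 ≤ 2 * m * Y t ^ 3 by positivity) k2
    linarith
  have lim : Tendsto (fun t => σ * Y t ^ 3 + 2 * m * Y t ^ 2 * I) (𝓝[<] T) (𝓝 0) := by
    simpa using ((h.bdry.pow 3).const_mul σ).add (((h.bdry.pow 2).const_mul (2 * m)).mul_const I)
  obtain ⟨t₄, k4, h4⟩ := ((lim.eventually_lt_const c0).and (Ioo_mem_nhdsLT h3)).exists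
  have y4 := h.pos t₄ h4.2
  obtain ⟨c₃, c3, hc3⟩ : ∃ c₃ : ℝ, 0 < c₃ ∧ ∀ s, t₄ ≤ s → s < T →
      OdeB_W Y Z K G s ≤ -(2 * a * c₃) := by
    refine ⟨Y t₄ * (c' - (σ * Y t₄ ^ 3 + 2 * m * Y t₄ ^ 2 * I)) / (2 * a),
      div_pos (mul_pos y4 (by linarith)) (by positivity), fun s s1 s2 => ?_⟩
    rw [mul_div_cancel₀ _ (by positivity)]
    linarith [st t₄ s h4.1.le s1 s2, hσ t₄ h4.1.le h4.2]
  have lim2 : Tendsto (fun t => (K t₄ / Y t₄ + c₃ / Y t₄ ^ (0 + 1)) * Y t) (𝓝[<] T) (𝓝 0) := by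
    simpa only [mul_zero] using h.bdry.const_mul (K t₄ / Y t₄ + c₃ / Y t₄ ^ (0 + 1))
  refine k.bdry (c₃ / 2) (by positivity) ?_
  filter_upwards [lim2.eventually_lt_const (show 0 < c₃ / 2 by positivity), Ioo_mem_nhdsLT h4.2]
    with s s0 hs
  have k1 := OdeB_anti (f := fun s => K s / Y s + c₃ / Y s ^ (0 + 1)) hs.1.le
    (fun r hr => (Lin_dq h k (hr.2.trans_lt hs.2)).fun_add (Lin_dp h c₃ 0 (hr.2.trans_lt hs.2)))
    (fun r hr => by
      obtain ⟨-, z2, -⟩ := hz r (h4.1.trans hr.1).le (hr.2.trans hs.2)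
      have z3 := hc3 r hr.1.le (hr.2.trans hs.2)
      have z4 := mul_le_mul_of_nonneg_left z2 c3.le
      rw [← sub_eq_add_neg, ← sub_div]
      refine div_nonpos_of_nonpos_of_nonneg ?_ (by positivity)
      push_cast
      linarith)
  have y0 := h.pos s hs.2
  have k2 := mul_le_mul_of_nonneg_right k1 y0.le
  have k3 : (K s / Y s + c₃ / Y s ^ (0 + 1)) * Y s = K s + c₃ := by
    field_simp
    ring
  exact le_abs.2 (Or.inr (by linarith))

theorem Lin_bot (h : EF T l m Y Z) (k : EL T l m Y K G) (hl : l < 0) (hm : 0 < m) {t₁ c : ℝ}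
    (ht : t₁ < T) (hc : 0 < c) (hX : ∀ s, s ≤ t₁ → c ≤ LinX m Y Z K G s) : False := by
  have hY := h.tendsto_Y hl hm
  obtain ⟨t₃, hz⟩ := eventually_atBot.1 ((h.J_le hl hm).and (eventually_le_atBot t₁))
  have zy : ∀ s ≤ t₃, s < T ∧ Z s ≤ Y s := fun s hs => by
    obtain ⟨z1, z2⟩ := hz s hs
    have y0 := h.pos s (z2.trans_lt ht)
    refine ⟨z2.trans_lt ht, (abs_le_of_sq_le_sq' ?_ y0.le).2⟩
    have : 0 ≤ m * Y s ^ 4 := by positivity
    rw [JJ] at z1
    linarith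
  have lim : Tendsto (fun t => (OdeB_W Y Z K G t₃ / Y t₃ ^ 4 + c / Y t₃ ^ (3 + 1)) * Y t ^ 4)
      atBot (𝓝 0) := by
    simpa using (hY.pow 4).const_mul (OdeB_W Y Z K G t₃ / Y t₃ ^ 4 + c / Y t₃ ^ (3 + 1))
  obtain ⟨t₄, h4⟩ := eventually_atBot.1
    ((lim.eventually_lt_const (show 0 < c / 2 by positivity)).and (eventually_le_atBot t₃))
  have w4 : ∀ s ≤ t₄, OdeB_W Y Z K G s ≤ -(c / 2) := fun s hs => by
    obtain ⟨s0, s3⟩ := h4 s hs
    have k1 := OdeB_mono (f := fun s => OdeB_W Y Z K G s / Y s ^ 4 + c / Y s ^ (3 + 1)) s3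
      (fun r hr => (Lin_ds h k (zy r hr.2).1).fun_add (Lin_dp h c 3 (zy r hr.2).1))
      (fun r hr => by
        obtain ⟨z1, z2⟩ := zy r hr.2.le
        have y0 := h.pos r z1
        have z3 := mul_le_mul_of_nonneg_right (hX r (hz r hr.2.le).2) y0.le
        have z4 := mul_le_mul_of_nonneg_left z2 hc.le
        have e : 4 * LinX m Y Z K G r / Y r ^ 4 + -(c * ((3 : ℕ) + 1) * Z r / Y r ^ (3 + 2)) =
            (4 * (LinX m Y Z K G r * Y r) - 4 * (c * Z r)) / Y r ^ 5 := by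
          field_simp
          push_cast
          ring
        rw [e]
        exact div_nonneg (by linarith) (by positivity))
    have y0 := h.pos s (zy s s3).1
    have k2 := mul_le_mul_of_nonneg_right k1 (pow_pos y0 4).le
    have k3 : (OdeB_W Y Z K G s / Y s ^ 4 + c / Y s ^ (3 + 1)) * Y s ^ 4 =
        OdeB_W Y Z K G s + c := by
      field_simp
      ring
    linarith
  have t43 := (h4 t₄ le_rfl).2
  have lim2 : Tendsto (fun t => -((K t₄ / Y t₄ - c / 4 / Y t₄ ^ (1 + 1)) * Y t ^ 2) + Y t)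
      atBot (𝓝 0) := by
    simpa using ((hY.pow 2).const_mul (K t₄ / Y t₄ - c / 4 / Y t₄ ^ (1 + 1))).neg.add hY
  obtain ⟨t₅, h5⟩ := eventually_atBot.1
    ((lim2.eventually_lt_const (show 0 < c / 4 by positivity)).and (eventually_le_atBot t₄))
  have w5 : ∀ s ≤ t₅, 1 ≤ K s := fun s hs => by
    obtain ⟨s0, s4⟩ := h5 s hs
    have k1 := OdeB_anti (f := fun s => K s / Y s - c / 4 / Y s ^ (1 + 1)) s4
      (fun r hr => (Lin_dq h k (zy r (hr.2.trans t43)).1).fun_sub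
        (Lin_dp h (c / 4) 1 (zy r (hr.2.trans t43)).1))
      (fun r hr => by
        obtain ⟨z1, z2⟩ := zy r (hr.2.le.trans t43)
        have y0 := h.pos r z1
        have z3 := mul_le_mul_of_nonneg_right (w4 r hr.2.le) y0.le
        have z4 := mul_le_mul_of_nonneg_left z2 hc.le
        have e : OdeB_W Y Z K G r / Y r ^ 2 - -(c / 4 * ((1 : ℕ) + 1) * Z r / Y r ^ (1 + 2)) =
            (OdeB_W Y Z K G r * Y r + c * Z r / 2) / Y r ^ 3 := by
          field_simp
          push_cast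
          ring
        rw [e]
        exact div_nonpos_of_nonpos_of_nonneg (by linarith) (by positivity))
    have y0 := h.pos s (zy s (s4.trans t43)).1
    have k2 := mul_le_mul_of_nonneg_right k1 (pow_pos y0 2).le
    have k3 : (K s / Y s - c / 4 / Y s ^ (1 + 1)) * Y s ^ 2 = K s * Y s - c / 4 := by
      field_simp
      ring
    exact le_of_mul_le_mul_right (by linarith) y0
  have t5 : t₅ < T := (zy t₅ ((h5 t₅ le_rfl).2.trans t43)).1
  have i1 : IntegrableOn (fun _ => (1 : ℝ)) (Iic t₅) :=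
    (k.int.mono_set fun r hr => lt_of_le_of_lt hr t5).mono' aestronglyMeasurable_const
      ((ae_restrict_iff' measurableSet_Iic).2 (ae_of_all _ fun r hr => by
        rw [norm_one]
        exact one_le_pow₀ (w5 r hr)))
  simp at i1

theorem Lin_W_nonneg (h : EF T l m Y Z) (k : EL T l m Y K G) (hl : l < 0) (hm : 0 < m) {t : ℝ}
    (ht : t < T) : 0 ≤ OdeB_W Y Z K G t := by
  refine le_of_not_gt fun hW => ?_
  have xz : ∀ b, OdeB_W Y Z K G b = 0 → -(2 * m * Y b ^ 3 * K b) = 4 * LinX m Y Z K G b :=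
    fun b hb => by
      rw [LinX, hb]
      ring
  have right : 0 < LinX m Y Z K G t := by
    by_cases hA : ∀ s, t ≤ s → s < T → OdeB_W Y Z K G s < 0
    · refine lt_of_not_ge fun hx => ?_
      have h1 : t < (t + T) / 2 := by linarith
      have h2 : (t + T) / 2 < T := by linarith
      have h3 := OdeB_santi h1 (fun s hs => Lin_dX h k (hs.2.trans_lt h2))
        fun s hs => Lin_neg h hl hm (hs.2.trans h2) (hA s hs.1.le (hs.2.trans h2))
      refine Lin_top h k hl hm h2 (c := -LinX m Y Z K G ((t + T) / 2)) (by linarith)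
        fun s s1 s2 => ?_
      rw [neg_neg]
      exact OdeB_anti s1 (fun r hr => Lin_dX h k (hr.2.trans_lt s2)) fun r hr =>
        (Lin_neg h hl hm (hr.2.trans s2) (hA r (h1.trans hr.1).le (hr.2.trans s2))).le
    · push Not at hA
      obtain ⟨c, htc, hcT, hc⟩ := hA
      obtain ⟨b, hb, hb0, hbn⟩ := OdeB_first htc
        (fun s hs => (Lin_dW h k (hs.2.trans_lt hcT)).continuousAt.continuousWithinAt) hW hc
      have hbT : b < T := hb.2.trans_lt hcT
      have tb : t < b := hb.1.lt_of_ne fun e => by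
        rw [← e] at hb0
        linarith
      have h1 : 0 ≤ -(2 * m * Y b ^ 3 * K b) := by
        refine ge_of_tendsto (hasDerivAt_iff_tendsto_slope_left_right.1 (Lin_dW h k hbT)).1 ?_
        filter_upwards [Ioo_mem_nhdsLT tb] with s hs
        rw [slope_def_field, hb0, sub_zero]
        exact div_nonneg_of_nonpos (hbn s ⟨hs.1.le, hs.2⟩).le (by linarith [hs.2])
      have h2 := OdeB_santi tb (fun s hs => Lin_dX h k (hs.2.trans_lt hbT))
        fun s hs => Lin_neg h hl hm (hs.2.trans hbT) (hbn s ⟨hs.1.le, hs.2⟩)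
      linarith [xz b hb0]
  by_cases hA : ∀ s, s ≤ t → OdeB_W Y Z K G s < 0
  · exact Lin_bot h k hl hm ht right fun s hs => OdeB_anti hs
      (fun r hr => Lin_dX h k (hr.2.trans_lt ht)) fun r hr =>
        (Lin_neg h hl hm (hr.2.trans ht) (hA r hr.2.le)).le
  · push Not at hA
    obtain ⟨c, hct, hc⟩ := hA
    obtain ⟨b, hb, hb0, hbn⟩ := OdeB_last hct
      (fun s hs => (Lin_dW h k (hs.2.trans_lt ht)).continuousAt.continuousWithinAt) hc hW
    have tb : b < t := hb.2.lt_of_ne fun e => by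
      rw [e] at hb0
      linarith
    have h1 : -(2 * m * Y b ^ 3 * K b) ≤ 0 := by
      refine le_of_tendsto (hasDerivAt_iff_tendsto_slope_left_right.1
        (Lin_dW h k (tb.trans ht))).2 ?_
      filter_upwards [Ioo_mem_nhdsGT tb] with s hs
      rw [slope_def_field, hb0, sub_zero]
      exact div_nonpos_of_nonpos_of_nonneg (hbn s ⟨hs.1, hs.2.le⟩).le (by linarith [hs.1])
    have h2 := OdeB_santi tb (fun s hs => Lin_dX h k (hs.2.trans_lt ht))
      fun s hs => Lin_neg h hl hm (hs.2.trans ht) (hbn s ⟨hs.1, hs.2.le⟩)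
    linarith [xz b hb0]

theorem EL_zero (h : EF T l m Y Z) (k : EL T l m Y K G) (hl : l < 0) (hm : 0 < m) {t : ℝ}
    (ht : t < T) : K t = 0 := by
  have h0 : OdeB_W Y Z K G =ᶠ[𝓝 t] fun _ => (0 : ℝ) := by
    filter_upwards [Iio_mem_nhds ht] with s hs
    have h1 := Lin_W_nonneg h k hl hm hs
    have h2 := Lin_W_nonneg h k.neg hl hm hs
    unfold OdeB_W at h1 h2 ⊢
    linarith
  have hz := (Lin_dW h k ht).unique ((hasDerivAt_const t (0 : ℝ)).congr_of_eventuallyEq h0)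
  have h1 := h.pos t ht
  exact (mul_eq_zero.1 (neg_eq_zero.1 hz)).resolve_left (by positivity)

end CritSys
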