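import Pool.Agent.Work.MP_80ee1d_an.X.Alg
import Pool.Agent.Work.MP_80ee1d_an.W.Final
import Pool.Agent.Work.MP_80ee1d_an.Final

/-!
Deformation of the first component of a ground state towards the least energy solution of the first
equation, when the first quadratic form is small.
-/

open MeasureTheory Filter Topology
open scoped RealInnerProductSpace

noncomputable section
namespace CritSys
namespace Ctx

variable {X : Type} [MeasurableSpace X] {H : Type} [NormedAddCommGroup H] [InnerProductSpace ℝ H]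
  {μ : Measure X} [IsFiniteMeasure μ] (C : Ctx H μ) {φ : H} {γ l l1 l2 m1 m2 β : ℝ}

theorem Far_low (a : C.Adm l) {u : H} (hu : C.P u = 1) : C.S / C.Λ * (C.Λ + l) ≤ C.q l u := by
  have h1 : 0 < (C.Λ + l) / C.Λ := div_pos (by linarith [a.1]) C.Lam_pos
  have h2 := C.sob u
  rw [C.CritA_one hu, one_pow, mul_one] at h2
  refine le_trans (le_of_eq ?_) ((mul_le_mul_of_nonneg_left h2 h1.le).trans (C.q_lower a.2.le u))
  ring

theorem Far_split (hE : C.Eig φ γ) (hl : -C.Λ ≤ l) (d : H) :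
    γ * C.S * ‖C.val d - (C.M d φ / C.M φ φ) • C.val φ‖ ^ 2 ≤ C.q l d := by
  have hM := C.M_pos hE.pos.ne_zero
  rw [← map_smul, ← map_sub]
  obtain ⟨x, hx⟩ : ∃ x, x = C.M d φ / C.M φ φ := ⟨_, rfl⟩
  rw [← hx]
  obtain ⟨r, hr⟩ : ∃ r, r = d - x • φ := ⟨_, rfl⟩
  rw [← hr]
  have h1 : C.M r φ = 0 := by rw [hr, M_sub1, M_smul1, hx, div_mul_cancel₀ _ hM.ne', sub_self]
  have h2 : C.B l φ r = 0 := by rw [B, hE.eq, C.M_comm φ, h1]; ring
  have h3 : d = x • φ + r := by rw [hr, add_sub_cancel]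
  have h4 := hE.gap r h1
  have h5 := mul_le_mul_of_nonneg_left (C.sob r) hE.γ_pos.le
  have h6 := C.q_nonneg hl (x • φ)
  have h7 := mul_le_mul_of_nonneg_right hl (C.M_nonneg r)
  have h8 : C.q l r = ‖r‖ ^ 2 + l * C.M r r := rfl
  rw [h3, q_add, B_smul1, h2]
  linarith

theorem Far_near (hE : C.Eig φ γ) (hl : -C.Λ ≤ l) {u : H} (hu : C.P u = 1) (hp : C.Pos u)
    (h : 64 * C.q l u ≤ γ * C.S) : ‖C.val u - C.val φ‖ ≤ 1 / 4 := by
  have hg : 0 < γ * C.S := mul_pos hE.γ_pos C.S_pos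
  have h1 := C.Far_split hE hl u
  have hx : 0 ≤ C.M u φ / C.M φ φ :=
    (div_pos (C.M_pos_of_pos hp hE.pos.nonneg hE.pos.ne_zero) (C.M_pos hE.pos.ne_zero)).le
  generalize C.M u φ / C.M φ φ = x at h1 hx
  have h2 : ‖C.val u - x • C.val φ‖ ≤ 1 / 8 :=
    (abs_le_of_sq_le_sq' (le_of_mul_le_mul_left (by linarith) hg) (by norm_num)).2
  have h3 := abs_norm_sub_norm_le (C.val u) (x • C.val φ)
  rw [C.CritA_one hu, norm_smul, hE.norm, mul_one, Real.norm_of_nonneg hx] at h3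
  have h4 : C.val u - C.val φ = (C.val u - x • C.val φ) + (x - 1) • C.val φ := by
    rw [sub_smul, one_smul]; abel
  rw [h4]
  refine (norm_add_le _ _).trans ?_
  rw [norm_smul, hE.norm, mul_one, Real.norm_eq_abs, abs_sub_comm]
  linarith

theorem Far_T {W z : H} (hW : C.P W = 1) : 1 - ‖C.val W - C.val z‖ ≤ C.T W W W z := by
  have h1 := (abs_le.1 (C.T_abs_le W W W (W - z))).2
  rw [T_sub4, C.CritA_one hW, map_sub] at h1
  have h2 : C.T W W W W = 1 := hW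
  linarith

theorem Far_coer (hE : C.Eig φ γ) (hl : -C.Λ ≤ l) {W d : H} (hW : C.P W = 1)
    (h1 : 1 / 2 ≤ C.T W W W φ) (h2 : C.T W W W d = 0) :
    γ * C.S * ‖C.val d‖ ^ 2 ≤ 9 * C.q l d := by
  have hg : 0 < γ * C.S := mul_pos hE.γ_pos C.S_pos
  have h3 := C.Far_split hE hl d
  generalize C.M d φ / C.M φ φ = x at h3
  have h4 := C.T_abs_le W W W (d - x • φ)
  rw [T_sub4, T_smul4, h2, zero_sub, abs_neg, abs_mul, C.CritA_one hW, map_sub, map_smul,
    abs_of_nonneg (show 0 ≤ C.T W W W φ by linarith)] at h4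
  have h5 := mul_le_mul_of_nonneg_left h1 (abs_nonneg x)
  have h6 := C.PertA_norm hE d x
  have h7 : ‖C.val d‖ ^ 2 ≤ (3 * ‖C.val d - x • C.val φ‖) ^ 2 :=
    pow_le_pow_left₀ (norm_nonneg _) (by linarith) 2
  have h8 := mul_le_mul_of_nonneg_left h7 hg.le
  linarith

theorem Far_P (W d : H) (r : ℝ) : C.P (W + r • d) = C.P W + 4 * r * C.T W W W d +
    6 * r ^ 2 * C.T W W d d + 4 * r ^ 3 * C.T W d d d + r ^ 4 * C.T d d d d := by
  simp only [P, T_add1, T_add2, T_add3, T_add4, T_smul1, T_smul2, T_smul3, T_smul4]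
  rw [C.T_swap34 W W d W, C.T_swap24 W d W W, C.T_swap14 d W W W, C.T_swap23 W d W d,
    C.T_swap24 W d d W, C.T_swap13 d W W d, C.T_swap14 d W d W, C.T_pairs d d W W,
    C.T_swap12 d W d d, C.T_swap13 d d W d, C.T_swap14 d d d W]
  ring

theorem Far_Pdiff {W d : H} (hW : C.P W = 1) (h0 : C.T W W W d = 0) (hd : ‖C.val d‖ ≤ 1) {r : ℝ}
    (r0 : 0 ≤ r) (r1 : r ≤ 1) :
    |C.P (W + (1 : ℝ) • d) - C.P (W + r • d)| ≤ 28 * ((1 - r) * ‖C.val d‖ ^ 2) := by
  have n := C.CritA_one hW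
  have h2 := C.T_abs_le W W d d
  have h3 := C.T_abs_le W d d d
  have h4 := C.T_abs_le d d d d
  rw [n] at h2 h3
  have d0 := norm_nonneg (C.val d)
  generalize ‖C.val d‖ = δ at *
  have e : C.P (W + (1 : ℝ) • d) - C.P (W + r • d) = (1 - r) * (6 * (1 + r) * C.T W W d d +
      4 * (1 + r + r ^ 2) * C.T W d d d + (1 + r + r ^ 2 + r ^ 3) * C.T d d d d) := by
    rw [Far_P, Far_P, h0]
    ring
  have k3 : δ * δ * δ ≤ δ ^ 2 := by
    rw [sq]
    exact mul_le_of_le_one_right (by positivity) hd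
  have k4 : δ * δ * δ * δ ≤ δ ^ 2 := (mul_le_of_le_one_right (by positivity) hd).trans k3
  have r2 : r ^ 2 ≤ 1 := pow_le_one₀ r0 r1
  have r3 : r ^ 3 ≤ 1 := pow_le_one₀ r0 r1
  rw [e, abs_mul, abs_of_nonneg (sub_nonneg.2 r1), mul_left_comm]
  refine mul_le_mul_of_nonneg_left ?_ (sub_nonneg.2 r1)
  refine (abs_add_three _ _ _).trans ?_
  rw [abs_mul (6 * (1 + r)), abs_mul (4 * (1 + r + r ^ 2)), abs_mul (1 + r + r ^ 2 + r ^ 3),
    abs_of_nonneg (by positivity : 0 ≤ 6 * (1 + r)),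
    abs_of_nonneg (by positivity : 0 ≤ 4 * (1 + r + r ^ 2)),
    abs_of_nonneg (by positivity : 0 ≤ 1 + r + r ^ 2 + r ^ 3)]
  have a2 : 6 * (1 + r) * |C.T W W d d| ≤ 12 * δ ^ 2 :=
    mul_le_mul (by linarith) (by linarith) (abs_nonneg _) (by norm_num)
  have a3 : 4 * (1 + r + r ^ 2) * |C.T W d d d| ≤ 12 * δ ^ 2 :=
    mul_le_mul (by linarith) (by linarith) (abs_nonneg _) (by norm_num)
  have a4 : (1 + r + r ^ 2 + r ^ 3) * |C.T d d d d| ≤ 4 * δ ^ 2 :=
    mul_le_mul (by linarith) (by linarith) (abs_nonneg _) (by norm_num)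
  linarith

theorem Far_Pone {W d : H} (hW : C.P W = 1) (h0 : C.T W W W d = 0) (r : ℝ) :
    1 ≤ C.P (W + r • d) := by
  have h1 := (abs_le.1 (C.T_abs_le W W W (W + r • d))).2
  have h2 : C.T W W W W = 1 := hW
  rw [T_add4, T_smul4, h0, h2, C.CritA_one hW] at h1
  rw [P_eq]
  exact one_le_pow₀ (by linarith)

theorem Far_Rdiff {W d w : H} (hW : C.P W = 1) (hw : C.P w = 1) (hd : ‖C.val d‖ ≤ 1) {r : ℝ}
    (r0 : 0 ≤ r) (r1 : r ≤ 1) :
    C.R (W + (1 : ℝ) • d) w - C.R (W + r • d) w ≤ 4 * ((1 - r) * ‖C.val d‖) := by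
  have nb : ∀ s : ℝ, 0 ≤ s → s ≤ 1 → ‖C.val (W + s • d)‖ ≤ 2 := fun s s0 s1 => by
    rw [map_add, map_smul]
    refine (norm_add_le _ _).trans ?_
    rw [C.CritA_one hW, norm_smul, Real.norm_of_nonneg s0]
    have := mul_le_one₀ s1 (norm_nonneg _) hd
    linarith
  have h := (abs_le.1 (T4_tele (C.val (W + (1 : ℝ) • d)) (C.val (W + (1 : ℝ) • d)) (C.val w)
    (C.val w) (C.val (W + r • d)) (C.val (W + r • d)) (C.val w) (C.val w))).2
  have e : ‖C.val (W + (1 : ℝ) • d) - C.val (W + r • d)‖ = (1 - r) * ‖C.val d‖ := by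
    rw [← map_sub, add_sub_add_left_eq_sub, ← sub_smul, map_smul, norm_smul,
      Real.norm_of_nonneg (sub_nonneg.2 r1)]
  rw [e, sub_self, norm_zero, C.CritA_one hw] at h
  have p : 0 ≤ (1 - r) * ‖C.val d‖ := mul_nonneg (sub_nonneg.2 r1) (norm_nonneg _)
  have k1 := mul_le_mul_of_nonneg_left (nb 1 zero_le_one le_rfl) p
  have k2 := mul_le_mul_of_nonneg_left (nb r r0 r1) p
  simp only [R, T]
  linarith

/-- The deformation argument. -/
theorem Far_path (hE : C.Eig φ γ) (a1 : C.Adm l1) (a2 : C.Adm l2) (h1 : 0 < m1) (h2 : 0 < m2)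
    {z w W : H} {s t a τ₀ u ε Y : ℝ} (pz : C.P z = 1) (pw : C.P w = 1) (z0 : C.Pos z)
    (hs : Sys m1 m2 β (C.q l1 z) (C.q l2 w) 1 1 (C.R z w) s t)
    (hc : C.LB l1 l2 m1 m2 β (s * C.q l1 z + t * C.q l2 w)) (pW : C.P W = 1) (W0 : C.Pos W)
    (eW : ∀ ψ, C.B l1 W ψ = a * C.T W W W ψ) (hb : β * C.R W w * a ≤ m1 * C.q l2 w)
    (hτ0 : 0 < τ₀) (hτ : τ₀ ≤ C.R z w) (hu : 0 < u) (hx : C.q l1 z ≤ Y) (ha : a ≤ Y)
    (hua : u * (4 * C.q l1 z) ≤ a) (hY : 64 * Y ≤ γ * C.S) (hε : 36 * Y = ε * (γ * C.S))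
    (hεu : ε * (28 + 2 * (1 + 4 / u) * (1568 + 8 * (16 / τ₀ ^ 2))) ≤ u)
    (hθ : (1 + u / 4) * (m1 * m2) ≤ u / 4 * (β * C.R z w) ^ 2) (hβ : 0 < β) : False := by
  have hg : 0 < γ * C.S := mul_pos hE.γ_pos C.S_pos
  have x0 : 0 < C.q l1 z := C.q_pos a1.1 z0.ne_zero
  have y0 : 0 < C.q l2 w := C.q_pos a2.1 (C.CritC_ne pw)
  have TW : C.T W W W W = 1 := pW
  have qW : C.q l1 W = a := by rw [← B_self, eW, TW, mul_one]
  have n1 := C.Far_near hE a1.1.le pz z0 (by linarith)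
  have n2 := C.Far_near hE a1.1.le pW W0 (by linarith)
  have n3 : ‖C.val W - C.val z‖ ≤ 1 / 2 := by
    have := norm_sub_le_norm_sub_add_norm_sub (C.val W) (C.val φ) (C.val z)
    rw [norm_sub_rev (C.val φ)] at this
    linarith
  have t1 : 1 / 2 ≤ C.T W W W z := by linarith [C.Far_T (z := z) pW]
  have t2 : 1 / 2 ≤ C.T W W W φ := by linarith [C.Far_T (z := φ) pW]
  have t3 : C.T W W W z ≤ 1 := by
    have := (abs_le.1 (C.T_abs_le W W W z)).2
    rw [C.CritA_one pW, C.CritA_one pz] at this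
    linarith
  obtain ⟨lam, l1', l2', hl⟩ : ∃ lam : ℝ, 1 ≤ lam ∧ lam ≤ 2 ∧ lam * C.T W W W z = 1 :=
    ⟨1 / C.T W W W z, by rw [le_div_iff₀ (by linarith)]; linarith,
      by rw [div_le_iff₀ (by linarith)]; linarith, div_mul_cancel₀ _ (by linarith)⟩
  obtain ⟨d, hd⟩ : ∃ d, d = lam • z - W := ⟨_, rfl⟩
  have d0 : C.T W W W d = 0 := by rw [hd, T_sub4, T_smul4, hl, TW, sub_self]
  have e1 : W + (1 : ℝ) • d = lam • z := by rw [hd, one_smul, add_sub_cancel]
  have qr : ∀ r : ℝ, C.q l1 (W + r • d) = a + r ^ 2 * C.q l1 d := fun r => by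
    rw [q_add, B_smul2, eW, d0, q_smul, qW]
    ring
  have lsq1 : 1 ≤ lam ^ 2 := one_le_pow₀ l1'
  have lsq4 : lam ^ 2 ≤ 4 := by
    have := pow_le_pow_left₀ (by linarith) l2' 2
    linarith
  have q1 : lam ^ 2 * C.q l1 z = a + C.q l1 d := by
    rw [← q_smul, ← e1, qr]
    ring
  have P1 : C.P (W + (1 : ℝ) • d) = (lam ^ 2) ^ 2 := by rw [e1, P_smul, pz]; ring
  have R1 : C.R (W + (1 : ℝ) • d) w = lam ^ 2 * C.R z w := by
    have := C.R_smul lam 1 z w
    rw [one_smul] at this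
    rw [e1, this]
    ring
  have co := C.Far_coer hE a1.1.le pW t2 d0
  have a0 : 0 < a := by rw [← qW]; exact C.q_pos a1.1 W0.ne_zero
  have D0 := C.q_nonneg a1.1.le d
  have k1 : lam ^ 2 * C.q l1 z ≤ 4 * C.q l1 z := mul_le_mul_of_nonneg_right lsq4 x0.le
  have δ1 : ‖C.val d‖ ≤ 1 := by
    refine (abs_le_of_sq_le_sq' (le_of_mul_le_mul_left ?_ hg) zero_le_one).2
    linarith
  obtain ⟨s0, t0, hx', hy'⟩ := hs
  have c0 : 0 < β * C.R z w := mul_pos hβ (hτ0.trans_le hτ)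
  have hD : 0 < (β * C.R z w) ^ 2 - m1 * m2 := by
    have i1 : 0 < m1 * m2 := mul_pos h1 h2
    have i2 : u / 4 * (m1 * m2) < u / 4 * (β * C.R z w) ^ 2 := by linarith
    have := lt_of_mul_lt_mul_left i2 (by positivity)
    linarith
  have g1 : β * C.R z w * C.q l1 z - m1 * C.q l2 w = t * ((β * C.R z w) ^ 2 - m1 * m2) := by
    rw [hx', hy']
    ring
  have g0 : 0 < β * C.R z w * C.q l1 z - m1 * C.q l2 w := by rw [g1]; positivity
  have hcont : Continuous fun r : ℝ => β * C.R (W + r • d) w * C.q l1 (W + r • d) -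
      m1 * C.q l2 w * C.P (W + r • d) := by
    have c1 : Continuous fun r : ℝ => W + r • d := by fun_prop
    exact (((C.continuous_R.comp (c1.prodMk continuous_const)).const_mul β).mul
      ((C.continuous_q l1).comp c1)).sub ((C.continuous_P.comp c1).const_mul _)
  obtain ⟨r, ⟨r0, r1⟩, hr⟩ := intermediate_value_Ico zero_le_one hcont.continuousOn
    (show (0 : ℝ) ∈ Set.Ico _ _ from ⟨by
      simp only [zero_smul, add_zero]
      rw [qW, pW]
      linarith, by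
      simp only [P1, R1, qr]
      have := mul_pos (show 0 < (lam ^ 2) ^ 2 by positivity) g0
      rw [one_pow, one_mul, ← q1]
      linarith⟩)
  simp only at hr
  have Pr := C.Far_Pone pW d0 r
  have Pd := C.Far_Pdiff pW d0 δ1 r0 r1.le
  have Rd := C.Far_Rdiff pW pw δ1 r0 r1.le
  have U0 : W + r • d ≠ 0 := fun e => by
    rw [e, P_zero] at Pr
    linarith
  have se := C.Deg_semi a1 a2 h1 h2 hc U0 (C.CritC_ne pw) (by linarith)
  have lv : (s * C.q l1 z + t * C.q l2 w) * m1 =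
      C.q l1 z ^ 2 - t * (β * C.R z w * C.q l1 z - m1 * C.q l2 w) := by
    rw [hx', hy']
    ring
  rw [P1] at Pd
  rw [R1] at Rd
  rw [qr] at hr se
  rw [lv] at se
  have dn := norm_nonneg (C.val d)
  have Y0 : 0 < Y := x0.trans_le hx
  have ε0 : 0 ≤ ε := by
    have : 0 < ε * (γ * C.S) := by linarith
    exact ((mul_pos_iff_of_pos_right hg).1 this).le
  generalize C.q l1 z = x at *
  generalize C.q l2 w = y at *
  generalize C.R z w = τ at *
  generalize C.q l1 d = D at *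
  generalize ‖C.val d‖ = δ at *
  generalize C.P (W + r • d) = Pr' at *
  generalize C.R (W + r • d) w = Rr at *
  generalize lam ^ 2 = Λ' at *
  generalize γ * C.S = g at *
  have τ0 : 0 < τ := hτ0.trans_le hτ
  have L0 : 0 < Λ' := by linarith
  have P0 : 0 < Pr' := by linarith
  have Lx : 0 < Λ' * x := mul_pos L0 x0
  have r1' : 0 < 1 - r := by linarith
  have rr : r ^ 2 ≤ r := by
    rw [sq]
    exact mul_le_of_le_one_right r0 r1.le
  have key : 1 - Rr / (Λ' * τ) * (1 - (1 - r ^ 2) * D / (Λ' * x)) * (Λ' ^ 2 / Pr') =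
      (β * τ * x - m1 * y) / (β * τ * x) := by
    have i1 : 1 - (1 - r ^ 2) * D / (Λ' * x) = (a + r ^ 2 * D) / (Λ' * x) := by
      rw [eq_div_iff Lx.ne', sub_mul, div_mul_cancel₀ _ Lx.ne']
      linarith
    have i2 : m1 * y = β * Rr * (a + r ^ 2 * D) / Pr' := by
      rw [eq_div_iff P0.ne']
      linarith
    rw [i1, i2]
    field_simp
  refine Far_algB (p := (1 - r ^ 2) * D / (Λ' * x)) (π := (1 - r) * δ ^ 2)
    (ν := 4 * ((1 - r) * δ) / τ₀) (b := Λ' ^ 2 / Pr') (Γ := Rr / (Λ' * τ)) (θ := u / 4) (ε := ε)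
    (N := 16 / τ₀ ^ 2) hu (by positivity) le_rfl (by positivity)
    (div_nonneg (mul_nonneg (by linarith) D0) Lx.le) ?_ ε0 ?_ (by positivity) ?_ ?_ ?_ hεu ?_ ?_
  · rw [div_le_iff₀ Lx]
    have i1 := mul_le_mul_of_nonneg_left k1 hu.le
    have i2 := mul_nonneg (sq_nonneg r) D0
    linarith
  · rw [← mul_div_assoc, le_div_iff₀ Lx]
    refine le_of_mul_le_mul_left ?_ hg
    have i1 : (1 - r) * (g * δ ^ 2) * (Λ' * x) ≤ (1 - r ^ 2) * (9 * D) * (4 * Y) :=
      mul_le_mul (mul_le_mul (by linarith) co (by positivity) (by linarith)) (by linarith) Lx.le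
        (mul_nonneg (by linarith) (by linarith))
    have i2 : (1 - r ^ 2) * (9 * D) * (4 * Y) = (1 - r ^ 2) * D * (36 * Y) := by ring
    rw [i2, hε] at i1
    linarith
  · have i1 : (4 * ((1 - r) * δ) / τ₀) ^ 2 = 16 / τ₀ ^ 2 * ((1 - r) * ((1 - r) * δ ^ 2)) := by
      field_simp
      ring
    rw [i1]
    exact mul_le_mul_of_nonneg_left (mul_le_of_le_one_left (by positivity) (by linarith))
      (by positivity)
  · have Lt : 0 < Λ' * τ := mul_pos L0 τ0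
    rw [le_div_iff₀ Lt, sub_mul, one_mul]
    have i1 : τ₀ ≤ Λ' * τ := hτ.trans (le_mul_of_one_le_left τ0.le lsq1)
    have i2 := mul_le_mul_of_nonneg_left i1 (show 0 ≤ 4 * ((1 - r) * δ) / τ₀ by positivity)
    rw [div_mul_cancel₀ _ hτ0.ne'] at i2
    linarith
  · rw [div_sub_one P0.ne', abs_div, abs_of_pos P0, div_le_iff₀ P0]
    exact Pd.trans (le_mul_of_one_le_right (by positivity) Pr)
  · rw [key]
    positivity
  · rw [key]
    have i1 : 1 - (1 - r ^ 2) * D / (Λ' * x) = (a + r ^ 2 * D) / (Λ' * x) := by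
      rw [eq_div_iff Lx.ne', sub_mul, div_mul_cancel₀ _ Lx.ne']
      linarith
    have i2 : ((a + r ^ 2 * D) / (Λ' * x)) ^ 2 * (Λ' ^ 2 / Pr') =
        (a + r ^ 2 * D) ^ 2 / (Pr' * x ^ 2) := by
      field_simp
    rw [i1, i2, le_div_iff₀ (by positivity)]
    refine le_trans ?_ se
    generalize β * τ = c at *
    generalize c * x - m1 * y = G at *
    have i3 : t * G * c ^ 2 ≤ (1 + u / 4) * G ^ 2 := by
      have j1 : c ^ 2 ≤ (1 + u / 4) * (c ^ 2 - m1 * m2) := by linarith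
      have j2 := mul_le_mul_of_nonneg_left j1 (mul_pos t0 g0).le
      calc _ ≤ t * G * ((1 + u / 4) * (c ^ 2 - m1 * m2)) := j2
        _ = (1 + u / 4) * G * (t * (c ^ 2 - m1 * m2)) := by ring
        _ = _ := by rw [← g1]; ring
    have i4 : (1 - (1 + u / 4) * (G / (c * x)) ^ 2) * (Pr' * x ^ 2) =
        (x ^ 2 - (1 + u / 4) * G ^ 2 / c ^ 2) * Pr' := by
      field_simp
    rw [i4]
    refine mul_le_mul_of_nonneg_right (sub_le_sub_left ?_ _) P0.le
    rwa [le_div_iff₀ (by positivity)]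

end Ctx
end CritSys
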