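import Pool.Agent.Work.MP_80ee1d_an.X.RadLin
import Pool.Agent.Work.MP_80ee1d_an.W.Final

/-!
Ground states of the system on a ball are radial, and the radial linearised operator is injective.
-/

open MeasureTheory Filter Topology Metric
open scoped ContDiff RealInnerProductSpace ENNReal

noncomputable section
namespace CritSys

theorem pol_fix' (h : Hs) {R : ℝ} (hR : 0 < R) {u w : D} {F F' : E4 → ℝ}
    (hu : u ∈ H0 (ball 0 R)) (h0 : 0 ≤ val u) (hw : val w = h.polL (val u))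
    (su : ∀ ψ ∈ H0 (ball 0 R), IntegrableOn (fun x => F x * val ψ x) (ball (0 : E4) R) ∧
      ⟪u, ψ⟫ = ∫ x in ball (0 : E4) R, F x * val ψ x)
    (sw : ∀ ψ ∈ H0 (ball 0 R), IntegrableOn (fun x => F' x * val ψ x) (ball (0 : E4) R) ∧
      ⟪w, ψ⟫ = ∫ x in ball (0 : E4) R, F' x * val ψ x)
    (hF : ∀ᵐ x : E4, ⟪x, h.e⟫ < h.τ → F x ≤ F' x) : w = u := by
  have hcont : Continuous fun x : E4 => ⟪x, h.e⟫ := by fun_prop
  set Ω' : Set E4 := ball 0 R ∩ {x | ⟪x, h.e⟫ < h.τ} with hΩ'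
  have ho : IsOpen Ω' := isOpen_ball.inter (isOpen_lt hcont continuous_const)
  have hconv : Convex ℝ Ω' := (convex_ball 0 R).inter (convex_halfSpace_lt
    ⟨fun x y => inner_add_left x y h.e, fun c x => real_inner_smul_left x h.e c⟩ h.τ)
  have u0 : ∀ᵐ x, 0 ≤ val u x := (Lp.coeFn_nonneg _).2 h0
  have hz : ∀ᵐ x, val (w - u) x = h.pol (val u) x - val u x := by
    rw [map_sub, hw]
    filter_upwards [Lp.coeFn_sub (h.polL (val u)) (val u), h.polL_ae (val u)] with x e1 e2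
    rw [e1, Pi.sub_apply, e2]
  have hge : ∀ x ∈ Ω', val u x ≤ h.pol (val u) x := fun x hx => by
    rw [Hs.pol, if_pos (show ⟪x, h.e⟫ < h.τ from hx.2)]; exact le_max_left _ _
  have hout : ∀ᵐ x, x ∉ ball (0 : E4) R → val u x = 0 :=
    (H0_zero_outside hu).mono fun x hx k => (hx k).1
  have hout' : ∀ᵐ x, h.σ x ∉ ball (0 : E4) R → val u (h.σ x) = 0 :=
    h.σ_mp.quasiMeasurePreserving.ae hout
  have hzero : ∀ᵐ x ∂(volume.restrict Ω'), val (w - u) x = 0 := by
    by_contra hne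
    have hpos := smp_D ho hconv.isPreconnected (u := w - u) (by
      rw [ae_restrict_iff' ho.measurableSet]
      filter_upwards [hz] with x e hx
      rw [e]; exact sub_nonneg.2 (hge x hx)) hne (by
      intro ψ hψ hψ0
      have hψ' := H0_mono Set.inter_subset_left hψ
      rw [inner_sub_left, (su ψ hψ').2, (sw ψ hψ').2, sub_nonneg]
      refine integral_mono_ae (su ψ hψ').1 (sw ψ hψ').1 (ae_restrict_of_ae ?_)
      filter_upwards [hF, hψ0, H0_zero_outside hψ] with x e1 e2 e4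
      by_cases hx : x ∈ Ω'
      · exact mul_le_mul_of_nonneg_right (e1 hx.2) e2
      · rw [(e4 hx).1, mul_zero, mul_zero])
    rw [ae_restrict_iff' ho.measurableSet] at hpos
    have hU : IsOpen (Ω' ∩ {x | R < ‖h.σ x‖}) :=
      ho.inter (isOpen_lt continuous_const h.σ_contDiff.continuous.norm)
    have hτ := h.hτ
    obtain ⟨r, hr1, hr2⟩ := exists_between (show max 0 (R - 2 * h.τ) < R from
      max_lt hR (by linarith only [hτ]))
    have hr0 : 0 < r := (le_max_left _ _).trans_lt hr1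
    have hr3 : R - 2 * h.τ < r := (le_max_right _ _).trans_lt hr1
    have hn : ‖(-r) • h.e‖ = r := by rw [norm_smul, h.he, norm_neg, Real.norm_of_nonneg hr0.le, mul_one]
    have hi : ⟪(-r) • h.e, h.e⟫ = -r := by
      rw [real_inner_smul_left, real_inner_self_eq_norm_sq, h.he]; ring
    have hne' : (Ω' ∩ {x | R < ‖h.σ x‖}).Nonempty := by
      refine ⟨(-r) • h.e, ⟨by rwa [mem_ball_zero_iff, hn], ?_⟩, ?_⟩
      · change ⟪_, h.e⟫ < h.τ
        rw [hi]; linarith
      · change R < ‖_‖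
        refine lt_of_pow_lt_pow_left₀ 2 (norm_nonneg _) ?_
        rw [h.norm_σ_sq, hn, hi]
        linarith only [hR, hr3, hτ, hr0, mul_pos_of_neg_of_neg (Mathlib.Tactic.Linarith.sub_neg_of_lt hR) (Mathlib.Tactic.Linarith.sub_neg_of_lt hr3), mul_pos_of_neg_of_neg (Mathlib.Tactic.Linarith.sub_neg_of_lt hτ) (Mathlib.Tactic.Linarith.sub_neg_of_lt hr3), mul_pos_of_neg_of_neg (Mathlib.Tactic.Linarith.sub_neg_of_lt hr0) (Mathlib.Tactic.Linarith.sub_neg_of_lt hr3)]
    refine (hU.measure_pos volume hne').ne' (measure_eq_zero_iff_ae_notMem.2 ?_)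
    filter_upwards [hpos, hz, hout', u0] with x e1 e2 e3 e4 hx
    have k := e1 hx.1
    rw [e2, Hs.pol, if_pos (show ⟪x, h.e⟫ < h.τ from hx.1.2), e3 (by simpa using (show R < ‖h.σ x‖ from hx.2).le), max_eq_left e4, sub_self] at k
    exact lt_irrefl _ k
  have hhalf : ∀ᵐ x, ⟪x, h.e⟫ < h.τ → val u (h.σ x) ≤ val u x := by
    rw [ae_restrict_iff' ho.measurableSet] at hzero
    filter_upwards [hzero, hz, hout', u0] with x e1 e2 e3 e4 hx
    by_cases hb : x ∈ ball (0 : E4) R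
    · have k := e1 ⟨hb, hx⟩
      rw [e2, Hs.pol, if_pos hx, sub_eq_zero] at k
      exact max_eq_left_iff.1 k
    · rw [e3]
      · exact e4
      rw [mem_ball_zero_iff, not_lt] at hb ⊢
      refine hb.trans (le_of_sq_le_sq ?_ (norm_nonneg _))
      rw [h.norm_σ_sq]
      linarith only [hx, mul_pos h.hτ (sub_pos.2 hx)]
  refine sub_eq_zero.1 (val_inj (Lp.ext ?_))
  filter_upwards [hz, hhalf, h.σ_mp.quasiMeasurePreserving.ae hhalf, h.ae_ne,
    Lp.coeFn_zero ℝ 4 (volume : Measure E4)] with x e1 e2 e3 e4 e5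
  rw [e1, e5, Pi.zero_apply, sub_eq_zero, Hs.pol]
  split_ifs with k
  · exact max_eq_left (e2 k)
  · rw [h.σ_σ, h.inner_σ] at e3
    exact min_eq_left (e3 (by linarith only [k, e4, lt_of_le_of_ne (not_lt.1 k) e4.symm]))

namespace Ctx

variable {X : Type} [MeasurableSpace X] {H : Type} [NormedAddCommGroup H] [InnerProductSpace ℝ H]
  {μ : Measure X} [IsFiniteMeasure μ]

/-- Rearrangements with a closed space of symmetric functions and nondegeneracy in it. -/
structure Polar2 (C : Ctx H μ) (ι : Type) : Type extends Polar C ι where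
  V : Submodule ℝ H
  closed : IsClosed (V : Set H)
  mem : ∀ u, 0 ≤ C.val u → (∀ i, Rel i u u) → u ∈ V
  fix2 : ∀ i l a b z w z' w', l ≤ 0 → 0 ≤ a → 0 ≤ b → 0 ≤ C.val z → 0 ≤ C.val w → Rel i z z' →
    Rel i w w' → (∀ ψ, C.B l z ψ = a * C.T z z z ψ + b * C.T w w z ψ) →
    (∀ ψ, C.B l z' ψ = a * C.T z' z' z' ψ + b * C.T w' w' z' ψ) → z' = z
  nondeg : ∀ l a W k, C.Adm l → 0 < a → C.Sol1 l a W → C.Pos W → (∀ i, Rel i W W) → k ∈ V →
    (∀ ψ, C.B l k ψ = 3 * a * C.T W W k ψ) → k = 0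

variable {C : Ctx H μ} {ι : Type} (Pz : C.Polar2 ι) {l1 l2 m1 m2 β : ℝ}

theorem Polar2.gs_mem (a1 : C.Adm l1) (a2 : C.Adm l2) (h1 : 0 < m1) (h2 : 0 < m2) (hβ : 0 ≤ β)
    {z w : H} {s t : ℝ} (pz : C.P z = 1) (pw : C.P w = 1) (z0 : C.Pos z) (w0 : C.Pos w)
    (hs : Sys m1 m2 β (C.q l1 z) (C.q l2 w) 1 1 (C.R z w) s t)
    (hc : C.LB l1 l2 m1 m2 β (s * C.q l1 z + t * C.q l2 w))
    (hd : (β * C.R z w) ^ 2 ≠ m1 * m2) : z ∈ Pz.V := by
  have nz : 0 ≤ C.val z := PosL.nonneg z0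
  have nw : 0 ≤ C.val w := PosL.nonneg w0
  have eqn : ∀ u v, C.IsMin l1 l2 m1 m2 β (s * C.q l1 z + t * C.q l2 w) u v s t →
      ∀ ψ, C.B l1 u ψ = m1 * s * C.T u u u ψ + β * t * C.T v v u ψ := fun u v h ψ => by
    have e := C.CritC_eqn hc h ψ
    simp only [B_smul1, T_smul1, T_smul2, T_smul3] at e
    have s0 := Real.sqrt_pos.2 hs.1
    refine mul_left_cancel₀ s0.ne' ?_
    have e1 := Real.mul_self_sqrt hs.1.le
    have e2 := Real.mul_self_sqrt hs.2.1.le
    rw [e]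
    linear_combination (m1 * √s * C.T u u u ψ) * e1 + (β * √s * C.T v v u ψ) * e2
  refine Pz.mem z nz fun i => ?_
  obtain ⟨z', r1, n1⟩ := Pz.ex i z nz
  obtain ⟨w', r2, n2⟩ := Pz.ex i w nw
  have p1 := (Pz.P_eq i z z' nz r1).trans pz
  have p2 := (Pz.P_eq i w w' nw r2).trans pw
  have q1 := Pz.toPolar.q_le nz r1 n1 l1
  have q2 := Pz.toPolar.q_le nw r2 n2 l2
  have q3 := Pz.R_le i z z' w w' nz nw r1 r2
  have lim : ∀ a b : ℝ, Tendsto (fun ε : ℝ => a + ε * (b - a)) (𝓝[>] 0) (𝓝 a) := fun a b => by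
    have : Continuous fun ε : ℝ => a + ε * (b - a) := by fun_prop
    simpa using (this.tendsto 0).mono_left nhdsWithin_le_nhds
  obtain ⟨σ, τ, -, -, ev⟩ := sys_tendsto (lim (C.q l1 z) (C.q l1 z')) (lim (C.q l2 w) (C.q l2 w'))
    tendsto_const_nhds tendsto_const_nhds (lim (C.R z w) (C.R z' w')) hs (by simpa using hd)
  obtain ⟨ε, k, ε0, ε1⟩ := (ev.and (Ioo_mem_nhdsGT (show (0 : ℝ) < 1 from one_pos))).exists
  have f1 := mul_nonneg ε0.le (sub_nonneg.2 q1)
  have f2 := mul_nonneg ε0.le (sub_nonneg.2 q2)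
  have f3 := mul_nonneg ε0.le (sub_nonneg.2 q3)
  have g1 := mul_nonneg (sub_pos.2 ε1).le (sub_nonneg.2 q1)
  have g2 := mul_nonneg (sub_pos.2 ε1).le (sub_nonneg.2 q2)
  have g3 := mul_nonneg (sub_pos.2 ε1).le (sub_nonneg.2 q3)
  have k2 := C.mon a1 a2 h1 h2 hβ hc p1 p2 (by linarith) (by linarith)
    (by linarith [C.R_nonneg z w]) (by linarith) k
  obtain ⟨s0, t0, hx, hy⟩ := id hs
  obtain ⟨s1, t1, hx', hy'⟩ := k
  have key : (s + σ ε) * (ε * (C.q l1 z - C.q l1 z')) + (t + τ ε) * (ε * (C.q l2 w - C.q l2 w')) +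
      (s * τ ε + t * σ ε) * (β * (ε * (C.R z' w' - C.R z w))) ≤ 0 := by
    have e : (s + σ ε) * (ε * (C.q l1 z - C.q l1 z')) +
        (t + τ ε) * (ε * (C.q l2 w - C.q l2 w')) +
        (s * τ ε + t * σ ε) * (β * (ε * (C.R z' w' - C.R z w))) = s * C.q l1 z + t * C.q l2 w -
        (σ ε * (C.q l1 z + ε * (C.q l1 z' - C.q l1 z)) +
          τ ε * (C.q l2 w + ε * (C.q l2 w' - C.q l2 w))) := by
      linear_combination σ ε * hx + τ ε * hy - s * hx' - t * hy'
    linarith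
  have b1 := mul_nonneg (add_pos s0 s1).le f1
  have b2 := mul_nonneg (add_pos t0 t1).le f2
  have c0 : 0 < s * τ ε + t * σ ε := by positivity
  have b3 := mul_nonneg c0.le (mul_nonneg hβ f3)
  have e1 : C.q l1 z' = C.q l1 z := by
    have : (s + σ ε) * (ε * (C.q l1 z - C.q l1 z')) = 0 := by linarith
    have := (mul_eq_zero.1 ((mul_eq_zero.1 this).resolve_left (add_pos s0 s1).ne')).resolve_left
      ε0.ne'
    linarith
  have e2 : C.q l2 w' = C.q l2 w := by
    have : (t + τ ε) * (ε * (C.q l2 w - C.q l2 w')) = 0 := by linarith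
    have := (mul_eq_zero.1 ((mul_eq_zero.1 this).resolve_left (add_pos t0 t1).ne')).resolve_left
      ε0.ne'
    linarith
  have e3 : β * C.R z' w' = β * C.R z w := by
    have : (s * τ ε + t * σ ε) * (β * (ε * (C.R z' w' - C.R z w))) = 0 := by linarith
    have := (mul_eq_zero.1 this).resolve_left c0.ne'
    refine mul_left_cancel₀ ε0.ne' ?_
    linarith
  have e := Pz.fix2 i l1 (m1 * s) (β * t) z w z' w' a1.2.le (by positivity) (by positivity) nz nw
    r1 r2 (eqn z w ⟨pz, pw, hs, hd, rfl⟩) (eqn z' w' ⟨p1, p2, by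
      unfold Sys
      rw [e1, e2, e3]
      exact hs, by rwa [e3], by rw [e1, e2]⟩)
  rwa [e] at r1

end Ctx

variable {d : Dom}

theorem PolSys_weak {l a b : ℝ} {z w k : K d}
    (h : ∀ ψ, (ctx d).B l k ψ = a * (ctx d).T z z k ψ + b * (ctx d).T w w k ψ) :
    ∀ ψ ∈ H0 d.Ω, IntegrableOn (fun x => (-l + a * val (incl d z) x ^ 2 +
      b * val (incl d w) x ^ 2) * val (incl d k) x * val ψ x) d.Ω ∧ ⟪incl d k, ψ⟫ =
      ∫ x in d.Ω, (-l + a * val (incl d z) x ^ 2 + b * val (incl d w) x ^ 2) *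
        val (incl d k) x * val ψ x := by
  intro ψ hψ
  have h1 : ⟪incl d k, ψ⟫ + l * T4 (oneL d.μ) (oneL d.μ) (valK d k) (valK d (mkK d ψ hψ)) =
      a * T4 (valK d z) (valK d z) (valK d k) (valK d (mkK d ψ hψ)) +
        b * T4 (valK d w) (valK d w) (valK d k) (valK d (mkK d ψ hψ)) := h (mkK d ψ hψ)
  have h2 := inst_V d (-l) a b (valK d z) (valK d w) k (mkK d ψ hψ)
  rw [incl_mkK] at h2
  constructor
  · refine ((((T4_integrable (oneL d.μ) (oneL d.μ) (valK d k) (valK d (mkK d ψ hψ))).const_mul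
      (-l)).add ((T4_integrable (valK d z) (valK d z) (valK d k) (valK d (mkK d ψ hψ))).const_mul
      a)).add ((T4_integrable (valK d w) (valK d w) (valK d k) (valK d (mkK d ψ hψ))).const_mul
      b)).congr ?_
    filter_upwards [valK_ae d z, valK_ae d w, valK_ae d k, valK_ae d (mkK d ψ hψ),
      oneL_ae (μ := d.μ)] with x k1 k2 k3 k4 k5
    simp only [Pi.add_apply]
    rw [k1, k2, k3, k4, k5, incl_mkK]
    ring
  · have h3 : ∫ x in d.Ω, (-l + a * (valK d z x * valK d z x) + b * (valK d w x * valK d w x)) *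
        val (incl d k) x * val ψ x = ∫ x in d.Ω, (-l + a * val (incl d z) x ^ 2 +
          b * val (incl d w) x ^ 2) * val (incl d k) x * val ψ x := by
      refine integral_congr_ae ?_
      filter_upwards [valK_ae d z, valK_ae d w] with x k1 k2
      rw [k1, k2]
      ring
    rw [← h3, ← h2]
    linarith only [h1]

/-- Radial functions. -/
def RadL : Submodule ℝ (L4 (volume : Measure E4)) where
  carrier := {a | ∃ g : ℝ → ℝ, Measurable g ∧ ∀ᵐ x : E4, a x = g ‖x‖}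
  zero_mem' := ⟨fun _ => 0, measurable_const, Lp.coeFn_zero ℝ 4 (volume : Measure E4)⟩
  add_mem' := by
    rintro a b ⟨f, f1, f2⟩ ⟨g, g1, g2⟩
    refine ⟨fun r => f r + g r, f1.add g1, ?_⟩
    filter_upwards [f2, g2, Lp.coeFn_add a b] with x k1 k2 k3
    rw [k3, Pi.add_apply, k1, k2]
  smul_mem' := by
    rintro c a ⟨f, f1, f2⟩
    refine ⟨fun r => c * f r, f1.const_mul c, ?_⟩
    filter_upwards [f2, Lp.coeFn_smul c a] with x k1 k2
    rw [k2, Pi.smul_apply, k1, smul_eq_mul]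

theorem RadL_closed : IsClosed (RadL : Set (L4 (volume : Measure E4))) := by
  refine isClosed_of_closure_subset fun a ha => ?_
  obtain ⟨u, hu, hl⟩ := mem_closure_iff_seq_limit.1 ha
  choose g g1 g2 using hu
  obtain ⟨φ, -, hφ⟩ := (tendstoInMeasure_of_tendsto_Lp hl).exists_seq_tendsto_ae
  refine ⟨fun r => limsup (fun n => g (φ n) r) atTop, Measurable.limsup fun n => g1 (φ n), ?_⟩
  filter_upwards [hφ, ae_all_iff.2 g2] with x k1 k2
  simp only [k2] at k1
  exact k1.limsup_eq.symm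

theorem exists_polar2 {R : ℝ} (hR : 0 < R) (hd : d.Ω = ball 0 R) :
    Nonempty ((ctx d).Polar2 Hs) := by
  have mem : ∀ u : K d, incl d u ∈ H0 (ball 0 R) := fun u => hd ▸ incl_mem d u
  have sol : ∀ {l m : ℝ} {u : K d}, (ctx d).Sol1 l m u → DSol (ball 0 R) l m (incl d u) :=
    fun h => hd ▸ K_dsol h
  have pos : ∀ {u : K d}, (ctx d).Pos u → ∀ᵐ x, x ∈ ball (0 : E4) R → 0 < val (incl d u) x :=
    fun h => hd ▸ K_pos h
  refine ⟨⟨⟨fun h u w => val (incl d w) = h.polL (val (incl d u)), fun h u hu => ?_,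
    fun h u w _ e => ?_, fun h u w _ e => ?_, fun h u w v z hu hv e e' => ?_,
    fun h l m u w a hm su pu e sw => ?_, fun l m u z a hm su pu fu sz pz fz => ?_⟩,
    RadL.comap (val.comp (incl d)).toLinearMap, RadL_closed.preimage (val.comp (incl d)).continuous,
    fun u hu fu => ?_, fun h l a b z w z' w' hl ha hb nz nw e e' sz sz' => ?_,
    fun l a W k al ha sW pW fW hk sk => ?_⟩⟩
  · obtain ⟨w, h1, h2, h3⟩ := pol_H0 h (mem u) (K_val_nonneg hu)
    exact ⟨mkK d w (hd ▸ h1), h2, h3⟩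
  · rw [(K_M w).2, (K_M u).2, Ball_int h e 2 (K_M u).1]
  · rw [(Ball_P w).2, (Ball_P u).2, Ball_int h e 4 (Ball_P u).1]
  · unfold Ctx.R
    rw [K_T, K_T, e, e']
    exact h.T4_pol (K_val_nonneg hu) (K_val_nonneg hv)
  · exact incl_inj d (pol_fix h hR a.2.le hm.le (mem u) (Reg2_nonneg (mem u) (pos pu)) e (sol su)
      (sol sw))
  · exact incl_inj d (ball_unique hR a.2 hm (mem u) (sol su) (pos pu) (fun h => (fu h).symm)
      (mem z) (sol sz) (pos pz) fun h => (fz h).symm)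
  · obtain ⟨f, f1, -, f3⟩ := radial_of_pol (K_val_nonneg hu) fun h => (fu h).symm
    have f4 : Antitone fun t => f (Real.exp t) := fun s t h =>
      f1 (Real.exp_pos s) (Real.exp_pos t) (Real.exp_le_exp.2 h)
    refine ⟨fun r => f (Real.exp (Real.log r)), f4.measurable.comp Real.measurable_log, ?_⟩
    have f5 : ∀ᵐ x : E4, x ≠ 0 := Measure.ae_ne volume 0
    filter_upwards [f3, f5] with x k1 k2
    rw [Real.exp_log (norm_pos_iff.2 k2)]
    exact k1
  · refine incl_inj d (pol_fix' h hR (mem z) (K_val_nonneg nz) e (hd ▸ PolSys_weak sz)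
      (hd ▸ PolSys_weak sz') ?_)
    rw [e, e']
    filter_upwards [h.polL_ae (val (incl d z)), h.polL_ae (val (incl d w)),
      (Lp.coeFn_nonneg _).2 (K_val_nonneg nz), (Lp.coeFn_nonneg _).2 (K_val_nonneg nw)] with
      x k1 k2 k3 k4 hx
    rw [k1, k2, Hs.pol, Hs.pol, if_pos hx, if_pos hx]
    have k5 := le_max_left (val (incl d z) x) (val (incl d z) (h.σ x))
    have k6 := le_max_left (val (incl d w) x) (val (incl d w) (h.σ x))
    have k7 : (0 : ℝ) ≤ val (incl d z) x := k3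
    have k8 : (0 : ℝ) ≤ val (incl d w) x := k4
    have k9 : 0 ≤ -l := neg_nonneg.2 hl
    gcongr
  · obtain ⟨g, g1, g2⟩ := hk
    refine incl_inj d ((ball_nondeg hR al.2 ha (mem W) (sol sW) (pos pW) (fun h => (fW h).symm)
      (mem k) g1 g2 fun ψ hψ => ?_).trans (map_zero _).symm)
    have := (PolSys_weak (a := 3 * a) (b := 0) (z := W) (w := W) (k := k)
      (fun ψ => by rw [sk ψ, zero_mul, add_zero]) ψ (hd ▸ hψ)).2
    simpa only [hd, zero_mul, add_zero] using this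

end CritSys
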