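import Pool.Agent.Work.MP_80ee1d_an.Ball
import Pool.Agent.Work.MP_80ee1d_an.X.Lin

/-!
Radial nondegeneracy of the positive solution of the scalar equation on a ball.
-/

open MeasureTheory Filter Topology Metric
open scoped ContDiff RealInnerProductSpace ENNReal

noncomputable section
namespace CritSys

theorem radial_weak' {R : ℝ} (hR : 0 < R) {u : D} {F : E4 → ℝ}
    (su : ∀ ψ ∈ H0 (ball 0 R), ⟪u, ψ⟫ = ∫ x in ball (0 : E4) R, F x * val ψ x) {f g : ℝ → ℝ}
    (hf : ∀ᵐ x : E4, val u x = f ‖x‖) (hg : ∀ᵐ x : E4, F x = g ‖x‖) {η : ℝ → ℝ}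
    (hη : ContDiff ℝ ∞ η) (hc : HasCompactSupport η) (hs : tsupport η ⊆ Set.Iio (Real.log R)) :
    ∫ t, Real.exp t * f (Real.exp t) * (deriv (deriv η) t - η t) =
      ∫ t, -(Real.exp t ^ 3 * g (Real.exp t)) * η t := by
  obtain ⟨Φ, hΦs, hΦ, hΔ⟩ := radial_tst hR hη hc hs
  obtain ⟨c, hc0, hpol⟩ := polar_int
  have h := su (ofT Φ) (ofT_mem_H0 hΦs)
  have hR' : ∫ x in ball (0 : E4) R, F x * val (ofT Φ) x =
      -(c * ∫ t, -(Real.exp t ^ 3 * g (Real.exp t)) * η t) := by
    rw [setIntegral_eq_integral_of_ae_compl_eq_zero]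
    · have e : ∫ x : E4, F x * val (ofT Φ) x =
          ∫ x : E4, (fun r => g r * (η (Real.log r) / r)) ‖x‖ := by
        refine integral_congr_ae ?_
        filter_upwards [hg, val_ofT Φ] with x h1 h2
        rw [h1, h2, hΦ]
      rw [e, hpol fun r => g r * (η (Real.log r) / r), ← mul_neg, ← integral_neg]
      congr 2
      funext t
      rw [Real.log_exp]
      have := (Real.exp_pos t).ne'
      field_simp
    · filter_upwards [val_ofT Φ] with x h2 hx
      rw [h2, image_eq_zero_of_notMem_tsupport fun h => hx (hΦs h), mul_zero]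
  let P : Fin 4 → Tst := fun i =>
    ⟨fun y => fderiv ℝ (Φ : E4 → ℝ) y (EuclideanSpace.single i 1),
      (Φ.2.1.fderiv_right (by simp)).clm_apply contDiff_const, Φ.2.2.fderiv_apply ℝ _⟩
  have hP : ∀ i y, (P i : E4 → ℝ) y = fderiv ℝ (Φ : E4 → ℝ) y (EuclideanSpace.single i 1) :=
    fun _ _ => rfl
  have hL : ⟪u, ofT Φ⟫ =
      -(c * ∫ t, Real.exp t * f (Real.exp t) * (deriv (deriv η) t - η t)) := by
    have e1 : ⟪u, ofT Φ⟫ =
        ∫ x, ∑ i : Fin 4, ⟪grd u x, EuclideanSpace.single i 1⟫ * (P i : E4 → ℝ) x := by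
      rw [inner_D]
      refine integral_congr_ae ?_
      filter_upwards [grd_ofT Φ] with x hx
      rw [hx]
      simp only [hP, ← inner_gradient, PiLp.inner_apply]
      simp [mul_comm]
    have i1 : ∀ i : Fin 4, Integrable fun x =>
        ⟪grd u x, EuclideanSpace.single i 1⟫ * (P i : E4 → ℝ) x := fun i =>
      ((grd_memLp u).inner_const (EuclideanSpace.single i 1)).integrable_mul (tst_memLp (P i) 2)
    have i2 : ∀ i : Fin 4, Integrable fun x =>
        val u x * fderiv ℝ (P i : E4 → ℝ) x (EuclideanSpace.single i 1) := fun i =>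
      ((Lp.memLp (val u)).locallyIntegrable (by norm_num)).integrable_smul_right_of_hasCompactSupport
        (SpaceC_fderiv_cont (P i) _) ((P i).2.2.fderiv_apply ℝ _)
    have e2 : ∑ i : Fin 4, ∫ x, ⟪grd u x, EuclideanSpace.single i 1⟫ * (P i : E4 → ℝ) x =
        -∑ i : Fin 4, ∫ x, val u x * fderiv ℝ (P i : E4 → ℝ) x (EuclideanSpace.single i 1) := by
      rw [← Finset.sum_neg_distrib]
      refine Finset.sum_congr rfl fun i _ => ?_
      rw [ibp, neg_neg]
    have e3 : ∫ x, ∑ i : Fin 4, val u x * fderiv ℝ (P i : E4 → ℝ) x (EuclideanSpace.single i 1) =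
        ∫ x : E4, (fun r => f r * ((deriv (deriv η) (Real.log r) - η (Real.log r)) / r ^ 3)) ‖x‖ := by
      refine integral_congr_ae ?_
      filter_upwards [hf] with x h1
      rw [← Finset.mul_sum, h1, ← hΔ x]
    rw [e1, integral_finsetSum _ fun i _ => i1 i, e2, ← integral_finsetSum _ fun i _ => i2 i, e3,
      hpol fun r => f r * ((deriv (deriv η) (Real.log r) - η (Real.log r)) / r ^ 3)]
    congr 3
    funext t
    rw [Real.log_exp]
    have := (Real.exp_pos t).ne'
    field_simp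
  rw [hR', hL] at h
  exact mul_left_cancel₀ hc0.ne' (neg_injective h)

theorem RadLin_ode {T : ℝ} {y V : ℝ → ℝ} (hy : LocallyIntegrableOn y (Set.Iio T))
    (hV : ContinuousOn V (Set.Iio T))
    (hw : ∀ η, Tst1 T η → ∫ t, y t * (deriv (deriv η) t - η t) = ∫ t, V t * y t * η t) :
    ∃ K G : ℝ → ℝ, (∀ᵐ t : ℝ, t < T → y t = K t) ∧ (∀ t < T, HasDerivAt K (G t) t) ∧
      ∀ t < T, HasDerivAt G (K t + V t * K t) t := by
  have lc : IsLocallyClosed (Set.Iio T) := isOpen_Iio.isLocallyClosed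
  have hk' : LocallyIntegrableOn (fun t => V t * y t) (Set.Iio T) := hy.continuousOn_mul hV lc
  have ht0 : T - 1 < T := sub_one_lt T
  obtain ⟨Y, c, h1, h2⟩ := reg_weak ht0 hy (hy.add hk') fun η hη => by
    have e1 := Reg1_lin hy (Reg1_deriv (Reg1_deriv hη)) hη 1
    have e2 := integral_add (Reg1_int hy hη) (Reg1_int hk' hη)
    simp only [one_mul] at e1
    simp only [Pi.add_apply, add_mul]
    rw [e2, ← hw η hη, e1]
    ring
  refine ⟨Y, _, h1, h2, fun t ht => ?_⟩
  have cY : ContinuousOn Y (Set.Iio T) := fun s hs => (h2 s hs).continuousAt.continuousWithinAt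
  have cK : ContinuousOn (fun t => Y t + V t * Y t) (Set.Iio T) := cY.add (hV.mul cY)
  have h3 := (intervalIntegral.integral_hasDerivAt_right
    (Reg1_ii (cK.locallyIntegrableOn measurableSet_Iio) ht0 ht)
    (cK.stronglyMeasurableAtFilter isOpen_Iio t ht)
    (cK.continuousAt (Iio_mem_nhds ht))).const_add c
  refine h3.congr_of_eventuallyEq ?_
  filter_upwards [gt_mem_nhds ht] with s hs
  congr 1
  refine intervalIntegral.integral_congr_ae ?_
  filter_upwards [h1] with r hr hr'
  simp only [Pi.add_apply]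
  rw [hr (hr'.2.trans_lt (max_lt ht0 hs))]

theorem ball_nondeg {R l m : ℝ} (hR : 0 < R) (hl : l < 0) (hm : 0 < m) {u k : D}
    (hu : u ∈ H0 (ball 0 R)) (su : DSol (ball 0 R) l m u)
    (pu : ∀ᵐ x, x ∈ ball (0 : E4) R → 0 < val u x) (fu : ∀ h : Hs, h.polL (val u) = val u)
    (hk : k ∈ H0 (ball 0 R)) {g : ℝ → ℝ} (mg : Measurable g) (hg : ∀ᵐ x : E4, val k x = g ‖x‖)
    (sk : ∀ ψ ∈ H0 (ball 0 R), ⟪k, ψ⟫ =
      ∫ x in ball (0 : E4) R, (-l + 3 * m * val u x ^ 2) * val k x * val ψ x) : k = 0 := by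
  obtain ⟨f, a1, a2, a3⟩ := radial_of_pol (Reg2_nonneg hu pu) fu
  obtain ⟨Y, Z, e1, e2⟩ := exists_EF hR hu su pu a1 a2 a3
  have i4 : Integrable fun t : ℝ => (Real.exp t * g (Real.exp t)) ^ 4 := by
    have k1 : Integrable fun x : E4 => g ‖x‖ ^ 4 :=
      (T4_integrable (val k) (val k) (val k) (val k)).congr (by
        filter_upwards [hg] with x hx
        rw [hx]
        ring)
    simpa only [mul_pow] using polar_integrable (g := fun r => g r ^ 4) k1
  have my : Measurable fun t : ℝ => Real.exp t * g (Real.exp t) :=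
    Real.measurable_exp.mul (mg.comp Real.measurable_exp)
  have hy : LocallyIntegrableOn (fun t : ℝ => Real.exp t * g (Real.exp t))
      (Set.Iio (Real.log R)) := by
    refine LocallyIntegrable.locallyIntegrableOn (fun t => ⟨Metric.ball t 1, ball_mem_nhds t one_pos, ?_⟩) _
    have : IsFiniteMeasure (volume.restrict (Metric.ball t 1)) :=
      isFiniteMeasure_restrict.2 measure_ball_lt_top.ne
    refine ((integrable_const (1 : ℝ)).add i4.integrableOn).mono' my.aestronglyMeasurable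
      (Eventually.of_forall fun s => ?_)
    obtain ⟨a, ha⟩ : ∃ a, a = Real.exp s * g (Real.exp s) := ⟨_, rfl⟩
    simp only [Pi.add_apply]
    rw [← ha, Real.norm_eq_abs, ← Even.pow_abs (by decide : Even 4)]
    rcases le_total |a| 1 with h | h
    · linarith [pow_nonneg (abs_nonneg a) 4]
    · linarith [le_self_pow₀ h (by norm_num : (4 : ℕ) ≠ 0)]
  have cY : ContinuousOn Y (Set.Iio (Real.log R)) := fun s hs =>
    (e1.d1 s hs).continuousAt.continuousWithinAt
  obtain ⟨K, G, h1, h2, h3⟩ := RadLin_ode (V := fun t => l * Real.exp t ^ 2 - 3 * m * Y t ^ 2) hy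
    (by fun_prop) fun η hη => by
      rw [radial_weak' hR sk (g := fun r => (-l + 3 * m * f r ^ 2) * g r) hg (by
        filter_upwards [a3, hg] with x k1 k2
        rw [k1, k2]) hη.1 hη.2.1 hη.2.2]
      refine integral_congr_ae ?_
      filter_upwards [e2] with t ht
      by_cases h : t < Real.log R
      · rw [← ht h]; ring
      · rw [image_eq_zero_of_notMem_tsupport fun h' => h (hη.2.2 h'), mul_zero, mul_zero]
  have hK : EL (Real.log R) l m Y K G := by
    refine ⟨h2, fun t ht => (h3 t ht).congr_deriv (by ring), ?_, fun c hc hev => ?_⟩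
    · refine i4.integrableOn.congr ((ae_restrict_iff' measurableSet_Iio).2 ?_)
      filter_upwards [h1] with t ht ht'
      rw [ht ht']
    obtain ⟨s, s1, s2⟩ := (mem_nhdsLT_iff_exists_Ioo_subset).1 hev
    obtain ⟨r, r1, r2⟩ := exists_between (show s < Real.log R from s1)
    obtain ⟨w, hw, w1, -⟩ := abs_H0 hk
    have hg' : Antitone fun t => f (Real.exp t) := fun s t h =>
      a1 (Real.exp_pos s) (Real.exp_pos t) (Real.exp_le_exp.2 h)
    have k3 := Reg2_up hg' e2 r2 (e1.d1 r r2).continuousAt r1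
    have k4 : 0 < f (Real.exp s) :=
      (mul_pos_iff_of_pos_left (Real.exp_pos r)).1 ((e1.pos r r2).trans_le k3)
    refine no_lower_bound isOpen_ball (nonempty_ball.2 hR) (add_mem hw hu)
      (lt_min (div_pos hc hR) k4) ?_
    have k5 : ∀ᵐ x : E4, ‖x‖ < R → min (c / R) (f (Real.exp s)) ≤ |g ‖x‖| + f ‖x‖ :=
      (polar_ae (p := fun r => r < R → min (c / R) (f (Real.exp s)) ≤ |g r| + f r)).2 (by
        filter_upwards [h1] with t ht ht'
        have t1 := (Real.lt_log_iff_exp_lt hR).2 ht'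
        rcases le_or_gt t s with h | h
        · exact (min_le_right _ _).trans ((hg' h).trans (le_add_of_nonneg_left (abs_nonneg _)))
        · have t2 : c ≤ |K t| := s2 ⟨h, t1⟩
          rw [← ht t1, abs_mul, abs_of_pos (Real.exp_pos t)] at t2
          refine (min_le_left _ _).trans (le_add_of_le_of_nonneg ?_ (a2 _))
          rw [div_le_iff₀' hR]
          exact t2.trans (mul_le_mul_of_nonneg_right ht'.le (abs_nonneg _)))
    rw [map_add, w1]
    filter_upwards [k5, a3, hg, Lp.coeFn_add |val k| (val u), Lp.coeFn_abs (val k)] with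
      x x1 x2 x3 x4 x5 hx
    rw [x4, Pi.add_apply, x5, x2, x3]
    exact x1 (mem_ball_zero_iff.1 hx)
  have h4 : ∀ᵐ x : E4, ‖x‖ < R → g ‖x‖ = 0 :=
    (polar_ae (p := fun r => r < R → g r = 0)).2 (by
      filter_upwards [h1] with t k1 ht
      have ht' := (Real.lt_log_iff_exp_lt hR).2 ht
      exact (mul_eq_zero.1 ((k1 ht').trans (EL_zero e1 hK hl hm ht'))).resolve_left
        (Real.exp_pos t).ne')
  refine val_inj (Lp.ext ?_)
  filter_upwards [h4, hg, H0_zero_outside hk, Lp.coeFn_zero ℝ 4 (volume : Measure E4)] with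
    x k1 k2 k3 k4
  rw [k4, Pi.zero_apply]
  by_cases hx : x ∈ ball (0 : E4) R
  · rw [k2, k1 (mem_ball_zero_iff.1 hx)]
  · exact (k3 hx).1

end CritSys
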