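import Pool.Agent.Work.MP_80ee1d_an.X.DiagD

/-!
Arbitrary domains: the couplings above the smaller threshold, outside an explicit window.
-/

open MeasureTheory Filter Topology
open scoped RealInnerProductSpace

noncomputable section
namespace CritSys
namespace Ctx

variable {X : Type} [MeasurableSpace X] {H : Type} [NormedAddCommGroup H] [InnerProductSpace ℝ H]
  {μ : Measure X} [IsFiniteMeasure μ] {C : Ctx H μ} {m1 m2 : ℝ}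
  [CompleteSpace H] [TopologicalSpace.SeparableSpace H]

theorem window (hN : C.NC) (hF : C.FL) {lv : ℝ → ℝ → ℝ}
    (hlv : ∀ l m W, C.Adm l → C.Least l m W → lv l m = C.q l W / 4) (h1 : 0 < m1) (h2 : 0 < m2)
    {ρ : ℝ} (hρ : 0 < ρ) :
    ∃ ε : ℝ, 0 < ε ∧ ∀ l1 l2 β : ℝ, -C.Λ < l1 → l1 ≤ l2 → l2 < 0 → 0 ≤ β →
      (min (C.bh l1 m1 l2) (C.bh l2 m2 l1) ≤ β ∨ m1 * m2 ≤ β ^ 2 ∨ l2 < -C.Λ + ε) →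
      (β ^ 2 < m1 * m2 ∨ (lv l1 m1 ≤ lv l2 m2 ∧ C.bh l1 m1 l2 < β) ∨
        (lv l2 m2 ≤ lv l1 m1 ∧ C.bh l2 m2 l1 < β) ∨
        (l1 < l2 ∧ ∃ ω, C.Least l2 m2 ω ∧ β * C.q l1 ω ≤ m1 * C.q l2 ω) ∨
        (l1 < l2 ∧ ∃ ω, C.Least l1 m1 ω ∧ β * C.q l2 ω ≤ m2 * C.q l1 ω) ∨
        l2 ≤ -ρ ∧ ρ ≤ |((C.Λ + l1) / (C.Λ + l2)) ^ 2 * m2 - m1| ∧ l1 < -C.Λ + ε) →
      (C.GS l1 l2 m1 m2 β ↔ β < min (C.bh l1 m1 l2) (C.bh l2 m2 l1) ∨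
        (m1 * m2 < β ^ 2 ∧ ((lv l1 m1 ≤ lv l2 m2 ∧ C.bh l1 m1 l2 < β) ∨
          (lv l2 m2 ≤ lv l1 m1 ∧ C.bh l2 m2 l1 < β)))) := by
  obtain ⟨ε1, p1, A⟩ := C.near_far h1 h2 hρ
  obtain ⟨ε2, p2, D⟩ := C.far_low h1 h2
  refine ⟨min ε1 ε2, lt_min p1 p2, fun l1 l2 β k1 k2 k3 β0 h0 hh => ?_⟩
  have t1 := min_le_left ε1 ε2
  have t2 := min_le_right ε1 ε2
  have b1 : C.Adm l1 := ⟨k1, k2.trans_lt k3⟩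
  have b2 : C.Adm l2 := ⟨k1.trans_le k2, k3⟩
  have up : (lv l1 m1 ≤ lv l2 m2 ∧ C.bh l1 m1 l2 < β) ∨
      (lv l2 m2 ≤ lv l1 m1 ∧ C.bh l2 m2 l1 < β) → C.GS l1 l2 m1 m2 β ∧ m1 * m2 < β ^ 2 := by
    rintro (⟨e, h⟩ | ⟨e, h⟩)
    · exact upper_lv hlv b1 b2 h1 h2 β0 e h
    · rw [C.GS_swap, mul_comm]
      exact upper_lv hlv b2 b1 h2 h1 β0 e h
  rcases lt_or_ge (β ^ 2) (m1 * m2) with hd | hd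
  · rw [or_iff_left fun e => hd.not_gt e.1]
    rcases h0 with h | h | h
    · refine iff_of_false (fun g => ?_) h.not_gt
      rcases min_le_iff.1 h with e | e
      · exact C.lower_non b2 b1 h2 h1 β0 (by rwa [mul_comm]) e ((C.GS_swap _ _ _ _ _).1 g)
      · exact C.lower_non b1 b2 h1 h2 β0 hd e g
    · exact absurd h hd.not_ge
    · rw [lt_min_iff]
      exact D l1 l2 β b1 b2 k2 (by linarith) β0 hd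
  rcases hh with h | h | h | ⟨hl, ω, o, h⟩ | ⟨hl, ω, o, h⟩ | ⟨k4, k6, k5⟩
  · exact absurd h hd.not_gt
  · exact iff_of_true (up (Or.inl h)).1 (Or.inr ⟨(up (Or.inl h)).2, Or.inl h⟩)
  · exact iff_of_true (up (Or.inr h)).1 (Or.inr ⟨(up (Or.inr h)).2, Or.inr h⟩)
  · obtain ⟨c1, c2⟩ := cone hN hF b1 b2 hl.ne h1 h2 β0 hd o h
    exact iff_of_false c1 fun e => e.elim ((min_le_right _ _).trans c2).not_gt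
      fun e => c1 (up e.2).1
  · obtain ⟨c1, c2⟩ := cone hN hF b2 b1 hl.ne' h2 h1 β0 (by rwa [mul_comm]) o h
    rw [C.GS_swap] at c1
    exact iff_of_false c1 fun e => e.elim ((min_le_left _ _).trans c2).not_gt
      fun e => c1 (up e.2).1
  have h := A l1 l2 k1 (by linarith) k2 k4 k6 β β0 (Or.inr (Or.inr fun e => absurd e hd.not_gt))
  exact ⟨fun g => (h.1 g).imp_right fun e =>
    have k : (lv l1 m1 ≤ lv l2 m2 ∧ C.bh l1 m1 l2 < β) ∨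
        (lv l2 m2 ≤ lv l1 m1 ∧ C.bh l2 m2 l1 < β) := (le_total _ _).imp
      (fun k => ⟨k, (le_max_left _ _).trans_lt e⟩) fun k => ⟨k, (le_max_right _ _).trans_lt e⟩
    ⟨(up k).2, k⟩,
    fun g => g.elim (fun e => h.2 (Or.inl e)) fun e => (up e.2).1⟩

end Ctx

theorem final_window (Ω : Set E4) (ho : IsOpen Ω) (hc : IsConnected Ω)
    (hb : Bornology.IsBounded Ω) (μ₁ μ₂ : ℝ) (h1 : 0 < μ₁) (h2 : 0 < μ₂) (ρ : ℝ) (hρ : 0 < ρ) :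
    ∃ ε : ℝ, 0 < ε ∧ ∀ l₁ l₂ β : ℝ, -lam1 Ω < l₁ → l₁ ≤ l₂ → l₂ < 0 → 0 ≤ β →
      (min (betaHat Ω l₁ μ₁ l₂) (betaHat Ω l₂ μ₂ l₁) ≤ β ∨ μ₁ * μ₂ ≤ β ^ 2 ∨
        l₂ < -lam1 Ω + ε) →
      (β ^ 2 < μ₁ * μ₂ ∨ (level1 Ω l₁ μ₁ ≤ level1 Ω l₂ μ₂ ∧ betaHat Ω l₁ μ₁ l₂ < β) ∨
        (level1 Ω l₂ μ₂ ≤ level1 Ω l₁ μ₁ ∧ betaHat Ω l₂ μ₂ l₁ < β) ∨
        (l₁ < l₂ ∧ ∃ w : H01 Ω, PosSol1 l₂ μ₂ w ∧ energy1 l₂ μ₂ w = level1 Ω l₂ μ₂ ∧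
          β * quad l₁ w ≤ μ₁ * quad l₂ w) ∨
        (l₁ < l₂ ∧ ∃ w : H01 Ω, PosSol1 l₁ μ₁ w ∧ energy1 l₁ μ₁ w = level1 Ω l₁ μ₁ ∧
          β * quad l₂ w ≤ μ₂ * quad l₁ w) ∨
        (l₂ ≤ -ρ ∧ ρ ≤ |((lam1 Ω + l₁) / (lam1 Ω + l₂)) ^ 2 * μ₂ - μ₁| ∧ l₁ < -lam1 Ω + ε)) →
      (HasGroundState Ω l₁ l₂ μ₁ μ₂ β ↔
        β < min (betaHat Ω l₁ μ₁ l₂) (betaHat Ω l₂ μ₂ l₁) ∨
          (μ₁ * μ₂ < β ^ 2 ∧ ((level1 Ω l₁ μ₁ ≤ level1 Ω l₂ μ₂ ∧ betaHat Ω l₁ μ₁ l₂ < β) ∨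
            (level1 Ω l₂ μ₂ ≤ level1 Ω l₁ μ₁ ∧ betaHat Ω l₂ μ₂ l₁ < β)))) := by
  obtain ⟨d, rfl⟩ : ∃ d : Dom, d.Ω = Ω := ⟨⟨Ω, ho, hc, hb⟩, rfl⟩
  obtain ⟨ε, hε, h⟩ := Ctx.window (ctx_NC d) (ctx_FL d) (lv := level1 d.Ω)
    (fun _ _ _ a o => level1_eq a o) h1 h2 hρ
  refine ⟨ε, hε, fun l₁ l₂ β k1 k2 k3 hβ h0 hh => ?_⟩
  rw [lam1_eq d] at k1 h0 hh
  have a1 : (ctx d).Adm l₁ := ⟨k1, k2.trans_lt k3⟩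
  have a2 : (ctx d).Adm l₂ := ⟨k1.trans_le k2, k3⟩
  rw [betaHat_eq a1, betaHat_eq a2] at h0 hh
  rw [hasGS_iff a1 a2, betaHat_eq a1, betaHat_eq a2]
  refine h l₁ l₂ β k1 k2 k3 hβ h0
    (hh.imp_right (Or.imp_right (Or.imp_right (Or.imp ?_ (Or.imp_left ?_)))))
  · rintro ⟨e, w, w1, w2, w3⟩
    obtain ⟨W, hW⟩ := exists_rep w
    exact ⟨e, W, (hW.least a2).1 ⟨w1, w2⟩, by rwa [hW.quad, hW.quad] at w3⟩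
  · rintro ⟨e, w, w1, w2, w3⟩
    obtain ⟨W, hW⟩ := exists_rep w
    exact ⟨e, W, (hW.least a1).1 ⟨w1, w2⟩, by rwa [hW.quad, hW.quad] at w3⟩

end CritSys
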